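import Mathlib

/-!
The computation for the D'Arcais polynomials modulo a prime: an online convolution on packed
natural numbers.
-/

set_option autoImplicit false

namespace Pool.Agent.Y49x.Darc

/-- sum of the divisors of `m` that are at most `d` -/
def sgAux (m : ℕ) : ℕ → ℕ
  | 0 => 0
  | d + 1 => (if m % (d + 1) = 0 then d + 1 else 0) + sgAux m d

/-- the coefficient `σ (k + 1)` modulo `p` -/
def sg (p k : ℕ) : ℕ := sgAux (k + 1) (k + 1) % p

/-- the packed coefficients `sg p m, sg p (m + 1), …` (`k` of them) in base `2 ^ 64` -/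
def pk (p : ℕ) : ℕ → ℕ → ℕ
  | 0, _ => 0
  | k + 1, m => sg p m + 2 ^ 64 * pk p k (m + 1)

/-- the loop: `R` packs the future contributions, `a = re + 2 ^ 32 im` is the current value -/
def loop (p e S : ℕ) : ℕ → ℕ → ℕ → ℕ → Bool
  | 0, _, _, _ => true
  | f + 1, n, R, a =>
    let T := R + a * S
    let c := T % 2 ^ 64
    let cr := c % 2 ^ 32 % p
    let ci := c / 2 ^ 32 % p
    let iv := (n + 1) ^ (p - 2) % p
    (!(cr == 0 && ci == 0)) &&
      loop p e S f (n + 1) (T / 2 ^ 64) (e * ci * iv % p + 2 ^ 32 * (cr * iv % p))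

/-- the values at a square root of `e` modulo `p` do not vanish -/
def chk (p e : ℕ) : Bool := loop p e (pk p p 0) p 0 0 1

/-- all the non-residues up to `e` -/
def chkAll (p : ℕ) : ℕ → Bool
  | 0 => true
  | e + 1 => (e ^ ((p - 1) / 2) % p != p - 1 || chk p e) && chkAll p e

end Pool.Agent.Y49x.Darc
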