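import Pool.Agent.Y49x.Darc.Integ

/-!
The criterion for a general zero `x`: the roots of the minimal polynomial of `x²` modulo a good
prime are squares.
-/

set_option autoImplicit false

namespace Pool.Agent.Y49x.Darc

open Polynomial Pool.Agent.R326

theorem exists_max_over {y : ℂ} (hy : IsIntegral ℤ y) {p : ℕ} (hp : p.Prime) (e : ZMod p)
    (he : ((minpoly ℤ y).map (Int.castRingHom (ZMod p))).IsRoot e) :
    ∃ 𝔪 : Ideal (integralClosure ℤ ℂ), 𝔪.IsMaximal ∧ (p : integralClosure ℤ ℂ) ∈ 𝔪 ∧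
      (⟨y, hy⟩ : integralClosure ℤ ℂ) - (e.val : integralClosure ℤ ℂ) ∈ 𝔪 := by
  have : Fact p.Prime := ⟨hp⟩
  set Y : integralClosure ℤ ℂ := ⟨y, hy⟩ with hY
  let g : ℤ[X] →+* integralClosure ℤ ℂ := eval₂RingHom (algebraMap ℤ (integralClosure ℤ ℂ)) Y
  let : Algebra ℤ[X] (integralClosure ℤ ℂ) := g.toAlgebra
  have hg : algebraMap ℤ[X] (integralClosure ℤ ℂ) = g := rfl
  have hint : Algebra.IsIntegral ℤ[X] (integralClosure ℤ ℂ) := by
    constructor
    intro z
    obtain ⟨f, hf, hfz⟩ : IsIntegral ℤ z := integralClosure.isIntegral z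
    refine ⟨f.map C, hf.map C, ?_⟩
    rw [eval₂_map]
    have h1 : (algebraMap ℤ[X] (integralClosure ℤ ℂ)).comp C =
        algebraMap ℤ (integralClosure ℤ ℂ) := RingHom.ext_int _ _
    rw [h1]
    exact hfz
  let φ : ℤ[X] →+* ZMod p := eval₂RingHom (Int.castRingHom (ZMod p)) e
  have hφ : Function.Surjective φ := by
    intro a
    refine ⟨C (a.val : ℤ), ?_⟩
    simp [φ]
  have hPmax : (RingHom.ker φ).IsMaximal := RingHom.ker_isMaximal_of_surjective φ hφ
  have hker : RingHom.ker (algebraMap ℤ[X] (integralClosure ℤ ℂ)) ≤ RingHom.ker φ := by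
    intro h hh
    rw [RingHom.mem_ker, hg] at hh
    rw [RingHom.mem_ker]
    have h1 : aeval y h = 0 := by
      have h2 := congrArg (algebraMap (integralClosure ℤ ℂ) ℂ) hh
      rw [map_zero, coe_eval₂RingHom, hom_eval₂] at h2
      rw [aeval_def]
      exact h2
    obtain ⟨k, hk⟩ := minpoly.isIntegrallyClosed_dvd hy h1
    rw [hk, map_mul]
    have h3 : φ (minpoly ℤ y) = 0 := by
      rw [coe_eval₂RingHom, ← eval_map]
      exact he
    rw [h3, zero_mul]
  obtain ⟨Q, hQ, hQc⟩ := Ideal.exists_ideal_over_maximal_of_isIntegral (RingHom.ker φ) hker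
  refine ⟨Q, hQ, ?_, ?_⟩
  · have h1 : (C (p : ℤ) : ℤ[X]) ∈ Q.comap (algebraMap ℤ[X] (integralClosure ℤ ℂ)) := by
      rw [hQc, RingHom.mem_ker]
      simp [φ]
    rw [Ideal.mem_comap, hg] at h1
    simpa [g] using h1
  · have h1 : (X - C (e.val : ℤ) : ℤ[X]) ∈ Q.comap (algebraMap ℤ[X] (integralClosure ℤ ℂ)) := by
      rw [hQc, RingHom.mem_ker, map_sub, coe_eval₂RingHom, eval₂_X, eval₂_C, eq_intCast,
        Int.cast_natCast, ZMod.natCast_zmod_val, sub_self]
    rw [Ideal.mem_comap, hg, map_sub, coe_eval₂RingHom, eval₂_X, eval₂_C, eq_intCast,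
      Int.cast_natCast] at h1
    exact h1

/-- at a zero `x`, every root modulo a good prime of the minimal polynomial of `x²` is a square -/
theorem Good.root {p : ℕ} (hg : Good p) {x : ℂ} {n : ℕ} (h : av x n = 0) (e : ZMod p)
    (he : ((minpoly ℤ (x ^ 2)).map (Int.castRingHom (ZMod p))).IsRoot e) : IsSquare e := by
  by_contra hsq
  obtain ⟨hp, hp2, hp3, hc⟩ := hg
  have : Fact p.Prime := ⟨hp⟩
  have hxi := av_integral h
  have hyi : IsIntegral ℤ (x ^ 2) := hxi.pow 2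
  obtain ⟨𝔪, h𝔪, hpm, hem⟩ := exists_max_over hyi hp e he
  let : Field (integralClosure ℤ ℂ ⧸ 𝔪) := Ideal.Quotient.field 𝔪
  set X : integralClosure ℤ ℂ := ⟨x, hxi⟩ with hX
  have hXx : algebraMap (integralClosure ℤ ℂ) ℂ X = x := rfl
  have hX2 : (⟨x ^ 2, hyi⟩ : integralClosure ℤ ℂ) = X ^ 2 := rfl
  set ψ := Ideal.Quotient.mk 𝔪 with hψ
  have hF : (p : integralClosure ℤ ℂ ⧸ 𝔪) = 0 := by
    have := Ideal.Quotient.eq_zero_iff_mem.2 hpm
    rwa [map_natCast] at this
  have hxe : (ψ X) ^ 2 = (e.val : integralClosure ℤ ℂ ⧸ 𝔪) := by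
    have h1 := Ideal.Quotient.eq_zero_iff_mem.2 hem
    rw [hX2, map_sub, map_natCast, map_pow] at h1
    linear_combination h1
  have he0 : e ≠ 0 := by
    intro h0
    rw [h0] at hsq
    exact hsq (IsSquare.zero)
  have hodd : Odd p := hp.odd_of_ne_two (by omega)
  obtain ⟨m, hm⟩ := hodd
  have h3 : e ^ (p / 2) = -1 := by
    rcases ZMod.pow_div_two_eq_neg_one_or_one p he0 with h4 | h4
    · exact absurd ((ZMod.euler_criterion p he0).2 h4) hsq
    · exact h4
  have hd : e.val ^ ((p - 1) / 2) % p = p - 1 := by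
    have h1 : ((e.val ^ ((p - 1) / 2) : ℕ) : ZMod p) = ((p - 1 : ℕ) : ZMod p) := by
      rw [Nat.cast_pow, ZMod.natCast_zmod_val, Nat.cast_sub hp.one_lt.le, ZMod.natCast_self,
        zero_sub, show (p - 1) / 2 = p / 2 by omega, h3, Nat.cast_one]
    have h5 := (ZMod.natCast_eq_natCast_iff' _ _ _).1 h1
    rwa [Nat.mod_eq_of_lt (show p - 1 < p by omega)] at h5
  have h1 := av_ne_of_chk hp hp2 hp3 hF hxe hd (chk_of_all hc _ (ZMod.val_lt e) hd) n
  apply h1
  rw [← av_map]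
  rw [← hXx, ← av_map] at h
  have h3 : av X n = 0 :=
    (FaithfulSMul.algebraMap_injective (integralClosure ℤ ℂ) ℂ) (by rw [h, map_zero])
  rw [h3, map_zero]

end Pool.Agent.Y49x.Darc
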