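import Pool.Agent.Y49x.Darc.Split2

/-!
A set of natural numbers without prime factors among the primes that do not split a polynomial
has density zero.
-/

set_option autoImplicit false

namespace Pool.Agent.Y49x.Darc

open Finset Polynomial Filter Topology
open Pool.Agent.Erdos456.Mert (PP)

open Classical in
/-- the reciprocals of the large primes that do not split `f` -/
noncomputable def gs (f : ℤ[X]) (R n : ℕ) : ℝ :=
  if n.Prime ∧ R < n ∧ ¬ G f n then 1 / (n : ℝ) else 0

lemma gs_nonneg (f : ℤ[X]) (R n : ℕ) : 0 ≤ gs f R n := by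
  unfold gs
  split_ifs
  · positivity
  · exact le_rfl

theorem not_summable {f : ℤ[X]} (hf : f.Monic) (hr : ∀ r : ℚ, aeval r f ≠ 0)
    (hD : 0 < f.natDegree) (R : ℕ) : ¬ Summable (gs f R) := by
  classical
  intro hs
  obtain ⟨C, hC⟩ := split_bound hf hr hD
  obtain ⟨s, hs1⟩ := summable_iff_vanishing_norm.1 hs (1 / 4) (by norm_num)
  set K1 : ℝ := ∑ n ∈ s, gs f R n * Real.log n with hK1
  set K2 : ℝ := ∑ n ∈ range (R + 1), Real.log n / n with hK2
  have key : ∀ N : ℕ, 1 ≤ N → Real.log N ≤ 2 * (K1 + K2 + C) := by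
    intro N hN
    have hN0 : (1 : ℝ) ≤ N := by exact_mod_cast hN
    have hlogN : 0 ≤ Real.log N := Real.log_nonneg hN0
    have h1 := hC N hN
    have h2 : ∑ p ∈ PP (N ^ 2) with ¬ G f p, Real.log p / p ≤
        ∑ n ∈ Icc 1 (N ^ 2), gs f R n * Real.log n + K2 := by
      have h3 : ∑ p ∈ PP (N ^ 2) with ¬ G f p, Real.log p / p =
          (∑ p ∈ {p ∈ PP (N ^ 2) | ¬ G f p} with R < p, Real.log p / p) +
          ∑ p ∈ {p ∈ PP (N ^ 2) | ¬ G f p} with ¬ R < p, Real.log p / p :=
        (sum_filter_add_sum_filter_not _ _ _).symm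
      rw [h3]
      apply add_le_add
      · have h4 : ∑ p ∈ {p ∈ PP (N ^ 2) | ¬ G f p} with R < p, Real.log p / p =
            ∑ p ∈ {p ∈ PP (N ^ 2) | ¬ G f p} with R < p, gs f R p * Real.log p := by
          apply sum_congr rfl
          intro p hp
          rw [mem_filter, mem_filter, mem_filter] at hp
          unfold gs
          rw [if_pos ⟨hp.1.1.2, hp.2, hp.1.2⟩]
          ring
        rw [h4]
        apply sum_le_sum_of_subset_of_nonneg
        · intro p hp
          rw [mem_filter, mem_filter, mem_filter] at hp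
          exact hp.1.1.1
        · intro p _ _
          exact mul_nonneg (gs_nonneg _ _ _) (Real.log_natCast_nonneg p)
      · apply sum_le_sum_of_subset_of_nonneg
        · intro p hp
          rw [mem_filter] at hp
          rw [mem_range]
          omega
        · intro p _ _
          exact div_nonneg (Real.log_natCast_nonneg p) (by positivity)
    have h5 : ∑ n ∈ Icc 1 (N ^ 2), gs f R n * Real.log n ≤ K1 + Real.log N / 2 := by
      rw [← sum_filter_add_sum_filter_not (Icc 1 (N ^ 2)) (fun n => n ∈ s)]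
      apply add_le_add
      · apply sum_le_sum_of_subset_of_nonneg
        · intro n hn
          exact (mem_filter.1 hn).2
        · intro p _ _
          exact mul_nonneg (gs_nonneg _ _ _) (Real.log_natCast_nonneg p)
      · have h6 := hs1 ({n ∈ Icc 1 (N ^ 2) | ¬ n ∈ s}) (by
          rw [disjoint_left]
          intro n hn
          exact (mem_filter.1 hn).2)
        rw [Real.norm_eq_abs, abs_of_nonneg (sum_nonneg fun n _ => gs_nonneg f R n)] at h6
        calc ∑ n ∈ Icc 1 (N ^ 2) with ¬ n ∈ s, gs f R n * Real.log n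
            ≤ ∑ n ∈ Icc 1 (N ^ 2) with ¬ n ∈ s, gs f R n * (2 * Real.log N) := by
              apply sum_le_sum
              intro n hn
              rw [mem_filter, mem_Icc] at hn
              apply mul_le_mul_of_nonneg_left _ (gs_nonneg _ _ _)
              have h7 : (n : ℝ) ≤ (N : ℝ) ^ 2 := by exact_mod_cast hn.1.2
              have h8 : (0 : ℝ) < n := by exact_mod_cast hn.1.1
              calc Real.log n ≤ Real.log ((N : ℝ) ^ 2) := Real.log_le_log h8 h7
                _ = 2 * Real.log N := by rw [Real.log_pow]; norm_num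
          _ = (∑ n ∈ Icc 1 (N ^ 2) with ¬ n ∈ s, gs f R n) * (2 * Real.log N) := by
              rw [sum_mul]
          _ ≤ 1 / 4 * (2 * Real.log N) := by
              apply mul_le_mul_of_nonneg_right h6.le (by positivity)
          _ = Real.log N / 2 := by ring
    linarith
  have h1 : Tendsto (fun N : ℕ => Real.log N) atTop atTop :=
    Real.tendsto_log_atTop.comp tendsto_natCast_atTop_atTop
  obtain ⟨N, hN1, hN2⟩ := ((h1.eventually_gt_atTop (2 * (K1 + K2 + C))).and
    (eventually_ge_atTop 1)).exists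
  exact absurd (key N hN2) (not_le.2 hN1)

lemma tot (P : Finset ℕ) (hP : ∀ p ∈ P, p.Prime) :
    ((∏ p ∈ P, p).totient : ℝ) ≤ ((∏ p ∈ P, p : ℕ) : ℝ) * Real.exp (-∑ p ∈ P, 1 / (p : ℝ)) := by
  induction P using Finset.induction_on with
  | empty => simp
  | insert a P ha ih =>
    have hap := hP a (mem_insert_self a P)
    have ih' := ih fun p hp => hP p (mem_insert_of_mem hp)
    have hcop : Nat.Coprime a (∏ p ∈ P, p) := by
      apply Nat.Coprime.prod_right
      intro p hp
      apply (Nat.coprime_primes hap (hP p (mem_insert_of_mem hp))).2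
      rintro rfl
      exact ha hp
    rw [prod_insert ha, sum_insert ha, Nat.totient_mul hcop, Nat.totient_prime hap, neg_add,
      Real.exp_add]
    push_cast [hap.one_lt.le]
    have ha0 : (1 : ℝ) < a := by exact_mod_cast hap.one_lt
    have h1 : (a : ℝ) - 1 ≤ a * Real.exp (-(1 / (a : ℝ))) := by
      have h2 := Real.add_one_le_exp (-(1 / (a : ℝ)))
      have h3 : (a : ℝ) - 1 = a * (-(1 / (a : ℝ)) + 1) := by field_simp; ring
      rw [h3]
      exact mul_le_mul_of_nonneg_left h2 (by linarith)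
    have h4 : (0 : ℝ) ≤ ((∏ p ∈ P, p).totient : ℝ) := by positivity
    push_cast at ih'
    calc ((a : ℝ) - 1) * ((∏ p ∈ P, p).totient : ℝ)
        ≤ (a * Real.exp (-(1 / (a : ℝ)))) * ((∏ p ∈ P, (p : ℝ)) *
          Real.exp (-∑ p ∈ P, 1 / (p : ℝ))) := by
          apply mul_le_mul h1 ih' h4 (by positivity)
      _ = _ := by ring

open Classical in
theorem density_zero {f : ℤ[X]} (hf : f.Monic) (hr : ∀ r : ℚ, aeval r f ≠ 0)
    (hD : 0 < f.natDegree) (R : ℕ) (Z : Set ℕ)
    (hZ : ∀ n ∈ Z, ∀ p, p.Prime → R < p → ¬ G f p → ¬ p ∣ n) :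
    Tendsto (fun N : ℕ => (#{n ∈ range N | n ∈ Z} : ℝ) / N) atTop (𝓝 0) := by
  rw [Metric.tendsto_atTop]
  intro ε hε
  have h1 := (not_summable_iff_tendsto_nat_atTop_of_nonneg (gs_nonneg f R)).1
    (not_summable hf hr hD R)
  obtain ⟨T, hT⟩ : ∃ T : ℝ, Real.exp (-T) < ε / 2 := by
    have h2 : Tendsto (fun T : ℝ => Real.exp (-T)) atTop (𝓝 0) :=
      Real.tendsto_exp_neg_atTop_nhds_zero
    exact (h2.eventually_lt_const (by positivity : 0 < ε / 2)).exists
  obtain ⟨K, hK⟩ := (h1.eventually_ge_atTop T).exists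
  set P : Finset ℕ := {p ∈ range K | p.Prime ∧ R < p ∧ ¬ G f p} with hPdef
  have hP : ∀ p ∈ P, p.Prime := fun p hp => (mem_filter.1 hp).2.1
  have hsum : T ≤ ∑ p ∈ P, 1 / (p : ℝ) := by
    refine hK.trans (le_of_eq ?_)
    rw [hPdef, sum_filter]
    rfl
  set M : ℕ := ∏ p ∈ P, p with hM
  have hM0 : 0 < M := prod_pos fun p hp => (hP p hp).pos
  have hM0' : (0 : ℝ) < M := by exact_mod_cast hM0
  have htot : (M.totient : ℝ) ≤ M * (ε / 2) := by
    refine (tot P hP).trans ?_
    apply mul_le_mul_of_nonneg_left _ hM0'.le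
    refine le_trans ?_ hT.le
    exact Real.exp_le_exp.2 (by linarith)
  have hcount : ∀ N : ℕ, (#{n ∈ range N | n ∈ Z} : ℝ) ≤ M.totient * ((N : ℝ) / M + 1) := by
    intro N
    have h2 : {n ∈ range N | n ∈ Z} ⊆ {n ∈ Ico 0 (0 + N) | M.Coprime n} := by
      intro n hn
      rw [mem_filter, mem_range] at hn
      rw [mem_filter, mem_Ico]
      refine ⟨⟨Nat.zero_le _, by omega⟩, ?_⟩
      apply Nat.Coprime.prod_left
      intro p hp
      have h3 := (mem_filter.1 hp).2
      exact (Nat.Prime.coprime_iff_not_dvd h3.1).2 (hZ n hn.2 p h3.1 h3.2.1 h3.2.2)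
    have h3 := (card_le_card h2).trans (Nat.Ico_filter_coprime_le 0 N hM0.ne')
    have h4 : ((N / M : ℕ) : ℝ) ≤ (N : ℝ) / M := Nat.cast_div_le
    calc (#{n ∈ range N | n ∈ Z} : ℝ) ≤ ((M.totient * (N / M + 1) : ℕ) : ℝ) := by
          exact_mod_cast h3
      _ = M.totient * (((N / M : ℕ) : ℝ) + 1) := by push_cast; ring
      _ ≤ M.totient * ((N : ℝ) / M + 1) := by
          apply mul_le_mul_of_nonneg_left _ (by positivity)
          linarith
  obtain ⟨N0, hN0⟩ := exists_nat_gt ((M.totient : ℝ) / (ε / 2))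
  refine ⟨N0 + 1, fun N hN => ?_⟩
  have hN1 : (N0 : ℝ) + 1 ≤ N := by exact_mod_cast hN
  have hNpos : (0 : ℝ) < N := by
    have : (0 : ℝ) ≤ N0 := by positivity
    linarith
  rw [Real.dist_eq, sub_zero, abs_of_nonneg (by positivity), div_lt_iff₀ hNpos]
  have h5 : (M.totient : ℝ) < N * (ε / 2) := by
    rw [div_lt_iff₀ (by positivity)] at hN0
    nlinarith
  have h6 : (M.totient : ℝ) * ((N : ℝ) / M) ≤ N * (ε / 2) := by
    rw [mul_div_assoc', div_le_iff₀ hM0']
    nlinarith
  have h7 := hcount N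
  nlinarith

end Pool.Agent.Y49x.Darc
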