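import Pool.Agent.Y49x.Darc.Moment

/-!
For a positive proportion of the `n` the `n`-th D'Arcais polynomial has no zero `i t` with
`t ≠ 0` an integer.
-/

set_option autoImplicit false

namespace Pool.Agent.Y49x.Darc

open Finset Polynomial Pool.Agent.R326
open Pool.Agent.Erdos456.Mert (PP)

lemma G_of_mod {p : ℕ} (hp : p.Prime) (h2 : p ≠ 2) (h4 : p % 4 ≠ 3) :
    G (X ^ 2 + C 1 : ℤ[X]) p := by
  have : Fact p.Prime := ⟨hp⟩
  obtain ⟨c, hc⟩ := ZMod.exists_sq_eq_neg_one_iff.2 h4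
  have h2' : (2 : ZMod p) ≠ 0 := by
    intro h
    have h3 : ((2 : ℕ) : ZMod p) = 0 := by exact_mod_cast h
    rw [ZMod.natCast_eq_zero_iff] at h3
    exact h2 ((Nat.prime_dvd_prime_iff_eq hp Nat.prime_two).1 h3)
  have hne : c ≠ -c := by
    intro h
    have h3 : (2 : ZMod p) * c = 0 := by linear_combination h
    rcases mul_eq_zero.1 h3 with h4 | h4
    · exact h2' h4
    · rw [h4] at hc
      simp at hc
  refine ⟨{c, -c}, ?_, ?_⟩
  · rw [card_pair hne, natDegree_X_pow_add_C]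
  · intro r hr
    rw [mem_insert, mem_singleton] at hr
    rw [IsRoot, eval_map, eval₂_add, eval₂_pow, eval₂_X, eval₂_C, map_one]
    rcases hr with rfl | rfl
    · linear_combination -hc
    · linear_combination -hc

lemma As_lower : ∃ C0 : ℝ, 0 ≤ C0 ∧ ∀ k : ℕ, 1 ≤ k → Real.log k - C0 ≤ As k := by
  classical
  have hm : (X ^ 2 + C 1 : ℤ[X]).Monic := monic_X_pow_add_C 1 (by norm_num)
  have hd : 0 < (X ^ 2 + C 1 : ℤ[X]).natDegree := by rw [natDegree_X_pow_add_C]; norm_num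
  have hr : ∀ r : ℚ, aeval r (X ^ 2 + C 1 : ℤ[X]) ≠ 0 := by
    intro r h
    rw [map_add, map_pow, aeval_X, aeval_C, map_one] at h
    nlinarith [sq_nonneg r]
  obtain ⟨C0, hC0⟩ := split_bound hm hr hd
  set K : ℝ := ∑ p ∈ range 6, Real.log p / p with hK
  have hK0 : 0 ≤ K := sum_nonneg fun p _ => div_nonneg (Real.log_natCast_nonneg p) (by positivity)
  refine ⟨|C0| + K, by positivity, fun k hk => ?_⟩
  have h1 := hC0 k hk
  have h2 : ∑ p ∈ PP (k ^ 2) with ¬ G (X ^ 2 + C 1 : ℤ[X]) p, Real.log p / p ≤ As k + K := by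
    rw [← sum_filter_add_sum_filter_not _ (fun p => 5 < p)]
    apply add_le_add
    · unfold As
      apply sum_le_sum_of_subset_of_nonneg
      · intro p hp
        rw [mem_filter, mem_filter] at hp
        unfold Ps
        rw [mem_filter]
        refine ⟨hp.1.1, ?_, hp.2⟩
        by_contra h4
        exact hp.1.2 (G_of_mod (mem_filter.1 hp.1.1).2 (by omega) h4)
      · intro p _ _
        exact div_nonneg (Real.log_natCast_nonneg p) (by positivity)
    · apply sum_le_sum_of_subset_of_nonneg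
      · intro p hp
        rw [mem_filter] at hp
        rw [mem_range]
        omega
      · intro p _ _
        exact div_nonneg (Real.log_natCast_nonneg p) (by positivity)
  have h3 := le_abs_self C0
  linarith

lemma t_dvd {p n : ℕ} {t : ℤ} (hp : p.Prime) (h4 : p % 4 = 3)
    (h : av (Complex.I * (t : ℂ)) n = 0) (hn : n % p < 5) : (p : ℤ) ∣ t := by
  have : Fact p.Prime := ⟨hp⟩
  have hs := minpoly_splits (s := n % p) hp h (by omega) (Nat.mod_le _ _) (Nat.dvd_sub_mod n)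
  have hxi := av_integral h
  have hdeg : ((minpoly ℤ (Complex.I * (t : ℂ))).map (Int.castRingHom (ZMod p))).degree ≠ 0 := by
    rw [degree_eq_natDegree ((minpoly.monic hxi).map _).ne_zero,
      (minpoly.monic hxi).natDegree_map]
    exact_mod_cast (minpoly.natDegree_pos hxi).ne'
  obtain ⟨r, hr⟩ := hs.exists_eval_eq_zero hdeg
  have h1 : aeval (Complex.I * (t : ℂ)) (X ^ 2 + C (t ^ 2) : ℤ[X]) = 0 := by
    rw [map_add, map_pow, aeval_X, aeval_C, mul_pow, Complex.I_sq]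
    simp
  obtain ⟨q, hq⟩ := minpoly.isIntegrallyClosed_dvd hxi h1
  have h2 : r ^ 2 + (t : ZMod p) ^ 2 = 0 := by
    have h3 := congrArg (fun f => (Polynomial.map (Int.castRingHom (ZMod p)) f).eval r) hq
    simp only [Polynomial.map_mul, eval_mul, hr, zero_mul, Polynomial.map_add, Polynomial.map_pow,
      map_X, map_C, eval_add, eval_pow, eval_X, eval_C] at h3
    simpa using h3
  by_contra ht
  have ht0 : (t : ZMod p) ≠ 0 := by
    rwa [Ne, ZMod.intCast_zmod_eq_zero_iff_dvd]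
  have h3 : IsSquare (-1 : ZMod p) := by
    refine ⟨r / t, ?_⟩
    field_simp
    linear_combination -h2
  exact ZMod.exists_sq_eq_neg_one_iff.1 h3 h4

theorem good_n {k M n : ℕ} (hn : n < M) (hX : Real.log (16 * M) < Xf k n) (t : ℤ)
    (ht : t ≠ 0) : av (Complex.I * (t : ℂ)) n ≠ 0 := by
  intro h
  set D : ℕ := ∏ p ∈ Ps k with n % p < 5, p with hD
  have h1 : D ∣ t.natAbs := by
    apply Finset.prod_primes_dvd
    · intro p hp
      exact Nat.prime_iff.1 (mem_Ps (mem_filter.1 hp).1).1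
    · intro p hp
      have h2 := mem_Ps (mem_filter.1 hp).1
      exact Int.natCast_dvd.1 (t_dvd h2.1 h2.2.2.1 h (mem_filter.1 hp).2)
  have h2 : Real.log D = Xf k n := by
    rw [hD, Nat.cast_prod, Real.log_prod]
    · rw [sum_filter]
      rfl
    · intro p hp
      exact_mod_cast (mem_Ps (mem_filter.1 hp).1).1.ne_zero
  have h3 : D ≤ t.natAbs := Nat.le_of_dvd (Int.natAbs_pos.2 ht) h1
  have hx : Complex.I * (t : ℂ) ≠ 0 := mul_ne_zero Complex.I_ne_zero (by exact_mod_cast ht)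
  have h4 := size_lt hx h
  rw [norm_mul, Complex.norm_I, one_mul, Complex.norm_intCast] at h4
  have h5 : (t.natAbs : ℝ) = |(t : ℝ)| := by
    rw [Nat.cast_natAbs, Int.cast_abs]
  have h6 : (D : ℝ) ≤ t.natAbs := by exact_mod_cast h3
  have h7 : (n : ℝ) < M := by exact_mod_cast hn
  have hD0 : (0 : ℝ) < D := by
    have : 0 < D := Nat.pos_of_dvd_of_pos h1 (Int.natAbs_pos.2 ht)
    exact_mod_cast this
  have h8 : (D : ℝ) ≤ 16 * M := by linarith
  have h9 := Real.log_le_log hD0 h8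
  linarith

lemma key_ineq {l A C0 : ℝ} (hC : 0 ≤ C0) (hl : 1000 + 200 * C0 ≤ l) (hA : l - C0 ≤ A) :
    12 * (100 * l ^ 2 + 10 * l * A + 100 * A + 220 * l + 100) ≤ 11 * (5 * A + 6 * l - 6) ^ 2 := by
  obtain ⟨d, rfl⟩ : ∃ d, A = l - C0 + d := ⟨A - (l - C0), by ring⟩
  have hd : 0 ≤ d := by linarith
  have h1 : 0 ≤ d * (1090 * l - 550 * C0 - 1860) := mul_nonneg hd (by linarith)
  have h2 : 0 ≤ (l - 1) * (11 * l - 1090 * C0 - 5292) := mul_nonneg (by linarith) (by linarith)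
  nlinarith [sq_nonneg d, sq_nonneg C0]

theorem positive : ∃ M0 : ℕ, ∀ M : ℕ, M0 ≤ M → (M : ℝ) / 12 ≤
    Nat.card {n : ℕ | n < M ∧ ∀ t : ℤ, t ≠ 0 → av (Complex.I * (t : ℂ)) n ≠ 0} := by
  classical
  obtain ⟨C0, hC0, hC⟩ := As_lower
  have hlim : Filter.Tendsto (fun N : ℕ => Real.log N) Filter.atTop Filter.atTop :=
    Real.tendsto_log_atTop.comp tendsto_natCast_atTop_atTop
  obtain ⟨k0, hk0, hk1⟩ := ((hlim.eventually_ge_atTop (1000 + 200 * C0)).and
    (Filter.eventually_ge_atTop 1)).exists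
  refine ⟨k0 ^ 4, fun M hM => ?_⟩
  set k := Nat.sqrt (Nat.sqrt M) with hk
  have hkM : k ^ 4 ≤ M := by
    have h1 : k ^ 2 ≤ Nat.sqrt M := Nat.sqrt_le' _
    have h2 : (Nat.sqrt M) ^ 2 ≤ M := Nat.sqrt_le' _
    calc k ^ 4 = (k ^ 2) ^ 2 := by ring
      _ ≤ (Nat.sqrt M) ^ 2 := Nat.pow_le_pow_left h1 2
      _ ≤ M := h2
  have hMk : M < (k + 1) ^ 4 := by
    have h1 : Nat.sqrt M < (k + 1) ^ 2 := Nat.lt_succ_sqrt' _
    have h2 : M < (Nat.sqrt M + 1) ^ 2 := Nat.lt_succ_sqrt' _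
    calc M < (Nat.sqrt M + 1) ^ 2 := h2
      _ ≤ ((k + 1) ^ 2) ^ 2 := Nat.pow_le_pow_left h1 2
      _ = (k + 1) ^ 4 := by ring
  have hkk : k0 ≤ k := by
    rw [hk, Nat.le_sqrt', Nat.le_sqrt']
    calc (k0 ^ 2) ^ 2 = k0 ^ 4 := by ring
      _ ≤ M := hM
  have hk1' : 1 ≤ k := hk1.trans hkk
  have hkr : (1 : ℝ) ≤ k := by exact_mod_cast hk1'
  have hMr : (1 : ℝ) ≤ M := by
    have : 1 ≤ M := (Nat.one_le_pow 4 k hk1').trans hkM
    exact_mod_cast this
  set l := Real.log k with hl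
  have hl0 : 1000 + 200 * C0 ≤ l := by
    refine hk0.trans (Real.log_le_log (by exact_mod_cast hk1) (by exact_mod_cast hkk))
  have hA := hC k hk1'
  set lam := Real.log (16 * M) with hlam
  have hlam1 : lam ≤ 4 * l + 6 := by
    have h1 : (16 * M : ℝ) ≤ 2 ^ 8 * (k : ℝ) ^ 4 := by
      have h2 : (M : ℝ) ≤ ((k : ℝ) + 1) ^ 4 := by exact_mod_cast hMk.le
      have h3 : ((k : ℝ) + 1) ^ 4 ≤ (2 * k) ^ 4 := pow_le_pow_left₀ (by positivity) (by linarith) 4
      have h4 : (2 * (k : ℝ)) ^ 4 = 16 * (k : ℝ) ^ 4 := by ring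
      linarith
    have h5 : lam ≤ Real.log (2 ^ 8 * (k : ℝ) ^ 4) := Real.log_le_log (by positivity) h1
    rw [Real.log_mul (by positivity) (by positivity), Real.log_pow, Real.log_pow] at h5
    have h6 := Real.log_two_lt_d9
    push_cast at h5
    linarith
  set m := 5 * As k + 10 * l with hm
  have hA0 := As_nonneg k
  have hm0 : 0 ≤ m := by
    rw [hm]; nlinarith
  have hmom := moment hk1' hkM hm0
  set w := 5 * As k + 6 * l - 6 with hw
  have hw0 : 0 < w := by rw [hw]; linarith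
  set B := {n ∈ range M | Xf k n ≤ lam} with hB
  have h1 : (#B : ℝ) * w ^ 2 ≤ ∑ n ∈ range M, (Xf k n - m) ^ 2 := by
    calc (#B : ℝ) * w ^ 2 = ∑ n ∈ B, w ^ 2 := by rw [sum_const, nsmul_eq_mul]
      _ ≤ ∑ n ∈ B, (Xf k n - m) ^ 2 := by
          apply sum_le_sum
          intro n hn
          have h2 := (mem_filter.1 hn).2
          have h3 : w ≤ m - Xf k n := by rw [hw, hm]; linarith
          calc w ^ 2 ≤ (m - Xf k n) ^ 2 := pow_le_pow_left₀ hw0.le h3 2
            _ = (Xf k n - m) ^ 2 := by ring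
      _ ≤ _ := by
          apply sum_le_sum_of_subset_of_nonneg (filter_subset _ _)
          intro n _ _
          positivity
  have h2 := key_ineq hC0 hl0 hA
  have h3 : (m - 5 * As k) ^ 2 + 10 * Real.log k * As k + 20 * m + 20 * Real.log k + 100 =
      100 * l ^ 2 + 10 * l * As k + 100 * As k + 220 * l + 100 := by
    rw [hm, ← hl]; ring
  rw [h3] at hmom
  have h4 : (#B : ℝ) ≤ 11 / 12 * M := by
    have h5 : (#B : ℝ) * w ^ 2 ≤ (11 / 12 * M) * w ^ 2 := by
      refine (h1.trans hmom).trans ?_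
      have h6 := mul_le_mul_of_nonneg_left h2 (show (0 : ℝ) ≤ M by linarith)
      nlinarith
    exact le_of_mul_le_mul_right h5 (by positivity)
  have h5 : (M : ℝ) = #B + #{n ∈ range M | ¬ Xf k n ≤ lam} := by
    have h6 := card_filter_add_card_filter_not (s := range M) (fun n => Xf k n ≤ lam)
    rw [card_range] at h6
    exact_mod_cast h6.symm
  have h6 : #{n ∈ range M | ¬ Xf k n ≤ lam} ≤
      Nat.card {n : ℕ | n < M ∧ ∀ t : ℤ, t ≠ 0 → av (Complex.I * (t : ℂ)) n ≠ 0} := by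
    have hfin : {n : ℕ | n < M ∧ ∀ t : ℤ, t ≠ 0 → av (Complex.I * (t : ℂ)) n ≠ 0}.Finite :=
      (finite_toSet (range M)).subset fun n hn => by
        rw [mem_coe, mem_range]; exact hn.1
    rw [Nat.card_coe_set_eq, ← Set.ncard_coe_finset]
    apply Set.ncard_le_ncard _ hfin
    intro n hn
    rw [mem_coe, mem_filter, mem_range, not_le] at hn
    exact ⟨hn.1, fun t ht => good_n hn.1 hn.2 t ht⟩
  have h7 : (#{n ∈ range M | ¬ Xf k n ≤ lam} : ℝ) ≤
      Nat.card {n : ℕ | n < M ∧ ∀ t : ℤ, t ≠ 0 → av (Complex.I * (t : ℂ)) n ≠ 0} := by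
    exact_mod_cast h6
  linarith

end Pool.Agent.Y49x.Darc
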