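import Pool.Agent.Y49x.Darc.PropnW
import Pool.Agent.Y49x.Darc.Propn

/-!
The proportion of the `n` such that the `n`-th D'Arcais polynomial has no zero `i t` with
`t ≠ 0` an integer.
-/

set_option autoImplicit false

namespace Pool.Agent.Y49x.Darc.Gen

open Finset Polynomial Pool.Agent.R326
open Pool.Agent.Erdos456.Mert (PP)

lemma As_lower (K : ℕ) (hK : 2 ≤ K) :
    ∃ C0 : ℝ, 0 ≤ C0 ∧ ∀ k : ℕ, 1 ≤ k → Real.log k - C0 ≤ As K k := by
  classical
  have hm : (X ^ 2 + C 1 : ℤ[X]).Monic := monic_X_pow_add_C 1 (by norm_num)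
  have hd : 0 < (X ^ 2 + C 1 : ℤ[X]).natDegree := by rw [natDegree_X_pow_add_C]; norm_num
  have hr : ∀ r : ℚ, aeval r (X ^ 2 + C 1 : ℤ[X]) ≠ 0 := by
    intro r h
    rw [map_add, map_pow, aeval_X, aeval_C, map_one] at h
    nlinarith [sq_nonneg r]
  obtain ⟨C0, hC0⟩ := split_bound hm hr hd
  set E : ℝ := ∑ p ∈ range (K + 1), Real.log p / p with hE
  have hE0 : 0 ≤ E := sum_nonneg fun p _ => div_nonneg (Real.log_natCast_nonneg p) (by positivity)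
  refine ⟨|C0| + E, by positivity, fun k hk => ?_⟩
  have h1 := hC0 k hk
  have h2 : ∑ p ∈ PP (k ^ 2) with ¬ G (X ^ 2 + C 1 : ℤ[X]) p, Real.log p / p ≤ As K k + E := by
    rw [← sum_filter_add_sum_filter_not _ (fun p => K < p)]
    apply add_le_add
    · unfold As
      apply sum_le_sum_of_subset_of_nonneg
      · intro p hp
        rw [mem_filter, mem_filter] at hp
        unfold Ps
        rw [mem_filter]
        refine ⟨hp.1.1, ?_, hp.2⟩
        by_contra h4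
        exact hp.1.2 (G_of_mod (mem_filter.1 hp.1.1).2 (by omega) h4)
      · intro p _ _
        exact div_nonneg (Real.log_natCast_nonneg p) (by positivity)
    · apply sum_le_sum_of_subset_of_nonneg
      · intro p hp
        rw [mem_filter] at hp
        rw [mem_range]
        omega
      · intro p _ _
        exact div_nonneg (Real.log_natCast_nonneg p) (by positivity)
  have h3 := le_abs_self C0
  linarith

theorem good_n {W K k M n : ℕ} (hNZ : NZ W K) (hWK : W ≤ K) (hK : 2 < K) (hn : n < M)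
    (hX : Real.log (16 * M) < Xf W K k n) (t : ℤ) (ht : t ≠ 0) :
    av (Complex.I * (t : ℂ)) n ≠ 0 := by
  intro h
  set D : ℕ := ∏ p ∈ Ps K k with n % p < W, p with hD
  have h1 : D ∣ t.natAbs := by
    apply Finset.prod_primes_dvd
    · intro p hp
      exact Nat.prime_iff.1 (mem_Ps (mem_filter.1 hp).1).1
    · intro p hp
      have h2 := mem_Ps (mem_filter.1 hp).1
      exact Int.natCast_dvd.1 (t_dvd hNZ hWK hK h2.1 h2.2.2.1 h2.2.2.2 h (mem_filter.1 hp).2)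
  have h2 : Real.log D = Xf W K k n := by
    rw [hD, Nat.cast_prod, Real.log_prod]
    · rw [sum_filter]
      rfl
    · intro p hp
      exact_mod_cast (mem_Ps (mem_filter.1 hp).1).1.ne_zero
  have h3 : D ≤ t.natAbs := Nat.le_of_dvd (Int.natAbs_pos.2 ht) h1
  have hx : Complex.I * (t : ℂ) ≠ 0 := mul_ne_zero Complex.I_ne_zero (by exact_mod_cast ht)
  have h4 := size_lt hx h
  rw [norm_mul, Complex.norm_I, one_mul, Complex.norm_intCast] at h4
  have h5 : (t.natAbs : ℝ) = |(t : ℝ)| := by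
    rw [Nat.cast_natAbs, Int.cast_abs]
  have h6 : (D : ℝ) ≤ t.natAbs := by exact_mod_cast h3
  have h7 : (n : ℝ) < M := by exact_mod_cast hn
  have hD0 : (0 : ℝ) < D := by
    have : 0 < D := Nat.pos_of_dvd_of_pos h1 (Int.natAbs_pos.2 ht)
    exact_mod_cast this
  have h8 : (D : ℝ) ≤ 16 * M := by linarith
  have h9 := Real.log_le_log hD0 h8
  linarith

theorem proportion {W K : ℕ} (hNZ : NZ W K) (hWK : W ≤ K) (hK : 2 < K) (c : ℝ)
    (hineq : ∀ C0 : ℝ, 0 ≤ C0 → ∃ l0 : ℝ, 0 ≤ l0 ∧ ∀ l A : ℝ, l0 ≤ l → l - C0 ≤ A →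
      0 < W * A - 2 * l - 6 ∧ (2 * l) ^ 2 + 2 * W * l * A + 4 * W * (W * A + 2 * l) + 4 * W * l +
        4 * W ^ 2 ≤ c * (W * A - 2 * l - 6) ^ 2) :
    ∃ M0 : ℕ, ∀ M : ℕ, M0 ≤ M → (1 - c) * M ≤
      Nat.card {n : ℕ | n < M ∧ ∀ t : ℤ, t ≠ 0 → av (Complex.I * (t : ℂ)) n ≠ 0} := by
  classical
  obtain ⟨C0, hC0, hC⟩ := As_lower K hK.le
  obtain ⟨l0, hl00, hl0⟩ := hineq C0 hC0
  have hlim : Filter.Tendsto (fun N : ℕ => Real.log N) Filter.atTop Filter.atTop :=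
    Real.tendsto_log_atTop.comp tendsto_natCast_atTop_atTop
  obtain ⟨k0, hk0, hk1⟩ := ((hlim.eventually_ge_atTop l0).and
    (Filter.eventually_ge_atTop 1)).exists
  refine ⟨k0 ^ 4, fun M hM => ?_⟩
  set k := Nat.sqrt (Nat.sqrt M) with hk
  have hkM : k ^ 4 ≤ M := by
    have h1 : k ^ 2 ≤ Nat.sqrt M := Nat.sqrt_le' _
    have h2 : (Nat.sqrt M) ^ 2 ≤ M := Nat.sqrt_le' _
    calc k ^ 4 = (k ^ 2) ^ 2 := by ring
      _ ≤ (Nat.sqrt M) ^ 2 := Nat.pow_le_pow_left h1 2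
      _ ≤ M := h2
  have hMk : M < (k + 1) ^ 4 := by
    have h1 : Nat.sqrt M < (k + 1) ^ 2 := Nat.lt_succ_sqrt' _
    have h2 : M < (Nat.sqrt M + 1) ^ 2 := Nat.lt_succ_sqrt' _
    calc M < (Nat.sqrt M + 1) ^ 2 := h2
      _ ≤ ((k + 1) ^ 2) ^ 2 := Nat.pow_le_pow_left h1 2
      _ = (k + 1) ^ 4 := by ring
  have hkk : k0 ≤ k := by
    rw [hk, Nat.le_sqrt', Nat.le_sqrt']
    calc (k0 ^ 2) ^ 2 = k0 ^ 4 := by ring
      _ ≤ M := hM
  have hk1' : 1 ≤ k := hk1.trans hkk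
  have hkr : (1 : ℝ) ≤ k := by exact_mod_cast hk1'
  have hMr : (1 : ℝ) ≤ M := by
    have : 1 ≤ M := (Nat.one_le_pow 4 k hk1').trans hkM
    exact_mod_cast this
  set l := Real.log k with hl
  have hl1 : l0 ≤ l := by
    refine hk0.trans (Real.log_le_log (by exact_mod_cast hk1) (by exact_mod_cast hkk))
  have hA := hC k hk1'
  obtain ⟨hw0, hmain⟩ := hl0 l (As K k) hl1 hA
  set lam := Real.log (16 * M) with hlam
  have hlam1 : lam ≤ 4 * l + 6 := by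
    have h1 : (16 * M : ℝ) ≤ 2 ^ 8 * (k : ℝ) ^ 4 := by
      have h2 : (M : ℝ) ≤ ((k : ℝ) + 1) ^ 4 := by exact_mod_cast hMk.le
      have h3 : ((k : ℝ) + 1) ^ 4 ≤ (2 * k) ^ 4 := pow_le_pow_left₀ (by positivity) (by linarith) 4
      have h4 : (2 * (k : ℝ)) ^ 4 = 16 * (k : ℝ) ^ 4 := by ring
      linarith
    have h5 : lam ≤ Real.log (2 ^ 8 * (k : ℝ) ^ 4) := Real.log_le_log (by positivity) h1
    rw [Real.log_mul (by positivity) (by positivity), Real.log_pow, Real.log_pow] at h5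
    have h6 := Real.log_two_lt_d9
    push_cast at h5
    linarith
  set m := W * As K k + 2 * l with hm
  have hA0 := As_nonneg K k
  have hm0 : 0 ≤ m := by
    have : 0 ≤ (W : ℝ) * As K k := by positivity
    rw [hm]; linarith
  have hmom := moment hWK hk1' hkM hm0
  set w := W * As K k - 2 * l - 6 with hw
  set B := {n ∈ range M | Xf W K k n ≤ lam} with hB
  have h1 : (#B : ℝ) * w ^ 2 ≤ ∑ n ∈ range M, (Xf W K k n - m) ^ 2 := by
    calc (#B : ℝ) * w ^ 2 = ∑ n ∈ B, w ^ 2 := by rw [sum_const, nsmul_eq_mul]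
      _ ≤ ∑ n ∈ B, (Xf W K k n - m) ^ 2 := by
          apply sum_le_sum
          intro n hn
          have h2 := (mem_filter.1 hn).2
          have h3 : w ≤ m - Xf W K k n := by rw [hw, hm]; linarith
          calc w ^ 2 ≤ (m - Xf W K k n) ^ 2 := pow_le_pow_left₀ hw0.le h3 2
            _ = (Xf W K k n - m) ^ 2 := by ring
      _ ≤ _ := by
          apply sum_le_sum_of_subset_of_nonneg (filter_subset _ _)
          intro n _ _
          positivity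
  have h3 : (m - W * As K k) ^ 2 = (2 * l) ^ 2 := by
    rw [hm]; ring
  rw [h3] at hmom
  have h4 : (#B : ℝ) ≤ c * M := by
    have h5 : (#B : ℝ) * w ^ 2 ≤ (c * M) * w ^ 2 := by
      refine (h1.trans hmom).trans ?_
      have h6 := mul_le_mul_of_nonneg_left hmain (show (0 : ℝ) ≤ M by linarith)
      calc _ ≤ (M : ℝ) * (c * w ^ 2) := h6
        _ = _ := by ring
    exact le_of_mul_le_mul_right h5 (by positivity)
  have h5 : (M : ℝ) = #B + #{n ∈ range M | ¬ Xf W K k n ≤ lam} := by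
    have h6 := card_filter_add_card_filter_not (s := range M) (fun n => Xf W K k n ≤ lam)
    rw [card_range] at h6
    exact_mod_cast h6.symm
  have h6 : #{n ∈ range M | ¬ Xf W K k n ≤ lam} ≤
      Nat.card {n : ℕ | n < M ∧ ∀ t : ℤ, t ≠ 0 → av (Complex.I * (t : ℂ)) n ≠ 0} := by
    have hfin : {n : ℕ | n < M ∧ ∀ t : ℤ, t ≠ 0 → av (Complex.I * (t : ℂ)) n ≠ 0}.Finite :=
      (finite_toSet (range M)).subset fun n hn => by
        rw [mem_coe, mem_range]; exact hn.1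
    rw [Nat.card_coe_set_eq, ← Set.ncard_coe_finset]
    apply Set.ncard_le_ncard _ hfin
    intro n hn
    rw [mem_coe, mem_filter, mem_range, not_le] at hn
    exact ⟨hn.1, fun t ht => good_n hNZ hWK hK hn.1 hn.2 t ht⟩
  have h7 : (#{n ∈ range M | ¬ Xf W K k n ≤ lam} : ℝ) ≤
      Nat.card {n : ℕ | n < M ∧ ∀ t : ℤ, t ≠ 0 → av (Complex.I * (t : ℂ)) n ≠ 0} := by
    exact_mod_cast h6
  linarith

lemma ineq25 (C0 : ℝ) (hC : 0 ≤ C0) : ∃ l0 : ℝ, 0 ≤ l0 ∧ ∀ l A : ℝ, l0 ≤ l → l - C0 ≤ A →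
    0 < ((25 : ℕ) : ℝ) * A - 2 * l - 6 ∧ (2 * l) ^ 2 + 2 * ((25 : ℕ) : ℝ) * l * A +
      4 * ((25 : ℕ) : ℝ) * (((25 : ℕ) : ℝ) * A + 2 * l) + 4 * ((25 : ℕ) : ℝ) * l +
        4 * ((25 : ℕ) : ℝ) ^ 2 ≤ 11 / 100 * (((25 : ℕ) : ℝ) * A - 2 * l - 6) ^ 2 := by
  refine ⟨2000 + 200 * C0, by positivity, fun l A hl hA => ?_⟩
  obtain ⟨d, rfl⟩ : ∃ d, A = l - C0 + d := ⟨A - (l - C0), by ring⟩
  have hd : 0 ≤ d := by linarith
  push_cast
  refine ⟨by linarith, ?_⟩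
  have h1 : 0 ≤ d * (l - 2000 - 200 * C0) := mul_nonneg hd (by linarith)
  have h2 : 0 ≤ (l - 1) * (l - 2000 - 200 * C0) := mul_nonneg (by linarith) (by linarith)
  have h3 : 0 ≤ d * C0 := mul_nonneg hd hC
  have h4 : 0 ≤ d * l := mul_nonneg hd (by linarith)
  have h5 : 0 ≤ C0 * (l - 2000 - 200 * C0) := mul_nonneg hC (by linarith)
  nlinarith [sq_nonneg d, sq_nonneg C0]

lemma ineq50 (C0 : ℝ) (hC : 0 ≤ C0) : ∃ l0 : ℝ, 0 ≤ l0 ∧ ∀ l A : ℝ, l0 ≤ l → l - C0 ≤ A →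
    0 < ((50 : ℕ) : ℝ) * A - 2 * l - 6 ∧ (2 * l) ^ 2 + 2 * ((50 : ℕ) : ℝ) * l * A +
      4 * ((50 : ℕ) : ℝ) * (((50 : ℕ) : ℝ) * A + 2 * l) + 4 * ((50 : ℕ) : ℝ) * l +
        4 * ((50 : ℕ) : ℝ) ^ 2 ≤ 1 / 20 * (((50 : ℕ) : ℝ) * A - 2 * l - 6) ^ 2 := by
  refine ⟨2000 + 200 * C0, by positivity, fun l A hl hA => ?_⟩
  obtain ⟨d, rfl⟩ : ∃ d, A = l - C0 + d := ⟨A - (l - C0), by ring⟩
  have hd : 0 ≤ d := by linarith
  push_cast
  refine ⟨by linarith, ?_⟩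
  have h1 : 0 ≤ d * (l - 2000 - 200 * C0) := mul_nonneg hd (by linarith)
  have h2 : 0 ≤ (l - 1) * (l - 2000 - 200 * C0) := mul_nonneg (by linarith) (by linarith)
  have h3 : 0 ≤ d * C0 := mul_nonneg hd hC
  have h4 : 0 ≤ d * l := mul_nonneg hd (by linarith)
  have h5 : 0 ≤ C0 * (l - 2000 - 200 * C0) := mul_nonneg hC (by linarith)
  nlinarith [sq_nonneg d, sq_nonneg C0]

end Pool.Agent.Y49x.Darc.Gen
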