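import Pool.Agent.Y49x.Darc.Integ
import Pool.Agent.Y49x.Darc.Density

/-!
The D'Arcais polynomial of degree `p N` is `(X ^ p - X) ^ N` modulo `p`; the zeros at a given
point have density zero.
-/

set_option autoImplicit false

namespace Pool.Agent.Y49x.Darc

open Finset Polynomial Pool.Agent.R326 Filter Topology

lemma rec_to_av (x : ℤ) (b : ℕ → ℤ) (h0 : b 0 = 1)
    (hb : ∀ m : ℕ, ((m : ℤ) + 1) * b (m + 1) = x * ∑ k ∈ range (m + 1),
      (ArithmeticFunction.sigma 1 (k + 1) : ℤ) * b (m - k)) (n : ℕ) :
    av x n = n.factorial * b n := by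
  induction n using Nat.strong_induction_on with
  | _ n ih =>
    cases n with
    | zero => simp [av_zero, h0]
    | succ n =>
      rw [av_succ]
      have h2 : ∀ k ∈ range (n + 1), (ArithmeticFunction.sigma 1 (k + 1) : ℤ) *
          (n.descFactorial k : ℤ) * av x (n - k) =
          (n.factorial : ℤ) * ((ArithmeticFunction.sigma 1 (k + 1) : ℤ) * b (n - k)) := by
        intro k hk
        rw [mem_range] at hk
        rw [ih (n - k) (by omega)]
        have h3 := Nat.factorial_mul_descFactorial (show k ≤ n by omega)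
        have h4 : (n.factorial : ℤ) = ((n - k).factorial : ℤ) * (n.descFactorial k : ℤ) := by
          rw [← h3]; push_cast; ring
        rw [h4]; ring
      rw [sum_congr rfl h2, ← mul_sum, Nat.factorial_succ]
      push_cast
      linear_combination (-(n.factorial : ℤ)) * hb n

/-- the Euler product -/
noncomputable def euS : PowerSeries ℤ := PowerSeries.mk fun n => eu n

/-- the sums of divisors -/
noncomputable def sgS : PowerSeries ℤ :=
  PowerSeries.mk fun n => (ArithmeticFunction.sigma 1 (n + 1) : ℤ)

lemma d_euS : PowerSeries.derivative ℤ euS = -(sgS * euS) := by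
  ext m
  rw [PowerSeries.coeff_derivative, map_neg, PowerSeries.coeff_mul,
    Finset.Nat.sum_antidiagonal_eq_sum_range_succ_mk]
  simp only [euS, sgS, PowerSeries.coeff_mk]
  rw [mul_comm, eu_rec m]

lemma d_euS_pow (a : ℕ) : PowerSeries.derivative ℤ (euS ^ a) =
    -((a : PowerSeries ℤ) * (sgS * euS ^ a)) := by
  induction a with
  | zero =>
    rw [pow_zero]
    simp
  | succ a ih =>
    rw [pow_succ, Derivation.leibniz, ih, d_euS]
    simp only [smul_eq_mul]
    push_cast
    ring

lemma eup_rec (a m : ℕ) : ((m : ℤ) + 1) * PowerSeries.coeff (m + 1) (euS ^ a) =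
    (-(a : ℤ)) * ∑ k ∈ range (m + 1), (ArithmeticFunction.sigma 1 (k + 1) : ℤ) *
      PowerSeries.coeff (m - k) (euS ^ a) := by
  have h := congrArg (PowerSeries.coeff m) (d_euS_pow a)
  rw [PowerSeries.coeff_derivative, map_neg,
    show (a : PowerSeries ℤ) = PowerSeries.C (a : ℤ) by simp, PowerSeries.coeff_C_mul,
    PowerSeries.coeff_mul, Finset.Nat.sum_antidiagonal_eq_sum_range_succ_mk] at h
  simp only [sgS, PowerSeries.coeff_mk] at h
  rw [mul_comm, h]
  ring

lemma av_neg (a n : ℕ) : av (-(a : ℤ)) n = n.factorial * PowerSeries.coeff n (euS ^ a) := by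
  apply rec_to_av
  · rw [PowerSeries.coeff_zero_eq_constantCoeff_apply, map_pow]
    have : PowerSeries.constantCoeff euS = 1 := by
      rw [← PowerSeries.coeff_zero_eq_constantCoeff_apply]
      simp [euS, eu_zero]
    rw [this, one_pow]
  · exact eup_rec a

lemma av_zmod (p : ℕ) [Fact p.Prime] (c : ZMod p) : av c p = 0 := by
  have hp : p.Prime := Fact.out
  have h1 : c = (Int.castRingHom (ZMod p)) (-((-c).val : ℤ)) := by
    simp
  rw [h1, ← av_map, av_neg, map_mul, eq_intCast, Int.cast_natCast,
    (ZMod.natCast_eq_zero_iff _ _).2 ((hp.dvd_factorial).2 le_rfl), zero_mul]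

lemma avX_p (p : ℕ) [Fact p.Prime] :
    (av (X : ℤ[X]) p).map (Int.castRingHom (ZMod p)) = X ^ p - X := by
  have hp : p.Prime := Fact.out
  have hQm : ((av (X : ℤ[X]) p).map (Int.castRingHom (ZMod p))).Monic := (av_monic p).1.map _
  have hQd : ((av (X : ℤ[X]) p).map (Int.castRingHom (ZMod p))).natDegree = p := by
    rw [(av_monic p).1.natDegree_map, (av_monic p).2]
  have hX : (X ^ p - X : (ZMod p)[X]).natDegree = p :=
    FiniteField.X_pow_card_sub_X_natDegree_eq _ hp.one_lt
  have hXm : (X ^ p - X : (ZMod p)[X]).Monic := by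
    apply (monic_X_pow p).sub_of_left
    rw [degree_X_pow, degree_X]
    exact_mod_cast hp.one_lt
  apply eq_of_degree_sub_lt_of_eval_finset_eq (s := (univ : Finset (ZMod p)))
  · rw [card_univ, ZMod.card]
    have h1 : degree ((av (X : ℤ[X]) p).map (Int.castRingHom (ZMod p))) = p := by
      rw [degree_eq_natDegree hQm.ne_zero, hQd]
    have h2 : degree (X ^ p - X : (ZMod p)[X]) = p := by
      rw [degree_eq_natDegree hXm.ne_zero, hX]
    rw [← h1]
    exact degree_sub_lt_left (h1.trans h2.symm) hQm.ne_zero
      (hQm.leadingCoeff.trans hXm.leadingCoeff.symm)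
  · intro c _
    rw [eval_sub, eval_pow, eval_X, ZMod.pow_card, sub_self, eval_map]
    have h1 := av_map (eval₂RingHom (Int.castRingHom (ZMod p)) c) X p
    rw [coe_eval₂RingHom, eval₂_X] at h1
    rw [h1, av_zmod]

section ring

variable {F : Type*} [CommRing F]

lemma cast_desc' (p : ℕ) (hp : (p : F) = 0) (N s k : ℕ) (hk : k ≤ s) :
    ((p * N + s).descFactorial k : F) = (s.descFactorial k : F) := by
  induction k with
  | zero => simp
  | succ k ih =>
    rw [Nat.descFactorial_succ, Nat.descFactorial_succ, Nat.cast_mul, Nat.cast_mul,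
      ih (by omega), show p * N + s - k = p * N + (s - k) by omega, Nat.cast_add, Nat.cast_mul,
      hp]
    ring

lemma cast_desc_zero' (p : ℕ) (hp : (p : F) = 0) (N s j : ℕ) :
    ((p * N + s).descFactorial (s + 1 + j) : F) = 0 := by
  induction j with
  | zero =>
    rw [add_zero, Nat.descFactorial_succ, show p * N + s - s = p * N by omega, Nat.cast_mul,
      Nat.cast_mul, hp]
    ring
  | succ j ih =>
    rw [← add_assoc, Nat.descFactorial_succ, Nat.cast_mul, ih, mul_zero]

lemma av_period' (p : ℕ) (hp : (p : F) = 0) (x : F) (N s : ℕ) (hs : s ≤ p) :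
    av x (p * N + s) = av x (p * N) * av x s := by
  induction s using Nat.strong_induction_on with
  | _ s ih =>
    cases s with
    | zero => simp [av_zero]
    | succ s =>
      rw [← add_assoc, av_succ, av_succ]
      have h1 : ∑ k ∈ range (p * N + s + 1), (ArithmeticFunction.sigma 1 (k + 1) : F) *
          ((p * N + s).descFactorial k : F) * av x (p * N + s - k) =
          ∑ k ∈ range (s + 1), (ArithmeticFunction.sigma 1 (k + 1) : F) *
          ((p * N + s).descFactorial k : F) * av x (p * N + s - k) := by
        symm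
        apply sum_subset
        · intro k hk
          rw [mem_range] at *
          omega
        · intro k _ hk
          rw [mem_range, not_lt] at hk
          obtain ⟨j, rfl⟩ : ∃ j, k = s + 1 + j := ⟨k - (s + 1), by omega⟩
          rw [cast_desc_zero' p hp N s j]
          ring
      have h2 : ∀ k ∈ range (s + 1), (ArithmeticFunction.sigma 1 (k + 1) : F) *
          ((p * N + s).descFactorial k : F) * av x (p * N + s - k) =
          av x (p * N) * ((ArithmeticFunction.sigma 1 (k + 1) : F) *
            (s.descFactorial k : F) * av x (s - k)) := by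
        intro k hk
        rw [mem_range] at hk
        rw [cast_desc' p hp N s k (by omega), show p * N + s - k = p * N + (s - k) by omega,
          ih (s - k) (by omega) (by omega)]
        ring
      rw [h1, sum_congr rfl h2, ← mul_sum]
      ring

lemma av_mul' (p : ℕ) (hp : (p : F) = 0) (x : F) (N : ℕ) : av x (p * N) = av x p ^ N := by
  induction N with
  | zero => simp [av_zero]
  | succ N ih => rw [Nat.mul_succ, av_period' p hp x N p le_rfl, ih, pow_succ]

end ring

/-- the polynomial of degree `p N` modulo `p` -/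
theorem avX_mul (p N : ℕ) [Fact p.Prime] :
    (av (X : ℤ[X]) (p * N)).map (Int.castRingHom (ZMod p)) = (X ^ p - X) ^ N := by
  have h1 := av_map (mapRingHom (Int.castRingHom (ZMod p))) X (p * N)
  have h2 := av_map (mapRingHom (Int.castRingHom (ZMod p))) X p
  rw [coe_mapRingHom, map_X] at h1 h2
  have hF : (p : (ZMod p)[X]) = 0 := by
    have := CharP.cast_eq_zero (ZMod p)[X] p
    exact this
  rw [h1, av_mul' p hF, ← h2, avX_p]

/-- the minimal polynomial of a zero modulo a prime factor of the degree -/
theorem minpoly_dvd {x : ℂ} {n p : ℕ} [Fact p.Prime] (h : av x n = 0) (hpn : p ∣ n) :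
    (minpoly ℤ x).map (Int.castRingHom (ZMod p)) ∣ (X ^ p - X) ^ (n / p) := by
  have h1 : aeval x (av (X : ℤ[X]) n) = 0 := by
    have h2 := av_map (eval₂RingHom (algebraMap ℤ ℂ) x) X n
    rw [coe_eval₂RingHom, eval₂_X] at h2
    rw [aeval_def, h2, h]
  have h3 := minpoly.isIntegrallyClosed_dvd (av_integral h) h1
  have h4 := map_dvd (mapRingHom (Int.castRingHom (ZMod p))) h3
  rw [coe_mapRingHom] at h4
  rwa [← Nat.mul_div_cancel' hpn, avX_mul] at h4

end Pool.Agent.Y49x.Darc
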