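import Pool.Agent.Y49x.Darc.Inv

/-!
From the computation modulo a prime to the non-vanishing over the complex numbers.
-/

set_option autoImplicit false

namespace Pool.Agent.Y49x.Darc

open Finset Pool.Agent.R326

lemma chk_of_all {p m : ℕ} (h : chkAll p m = true) (e : ℕ) (he : e < m)
    (hr : e ^ ((p - 1) / 2) % p = p - 1) : chk p e = true := by
  induction m with
  | zero => omega
  | succ m ih =>
    rw [chkAll, Bool.and_eq_true, Bool.or_eq_true] at h
    rcases Nat.lt_succ_iff_lt_or_eq.1 he with h1 | h1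
    · exact ih h.2 h1
    · subst h1
      rcases h.1 with h2 | h2
      · rw [hr] at h2; simp at h2
      · exact h2

/-- the primes for which the computation succeeds -/
structure Good (p : ℕ) : Prop where
  prime : p.Prime
  two_lt : 2 < p
  cube_lt : p * p * p < 2 ^ 32
  chk : chkAll p p = true

theorem Good.ne {p : ℕ} (hg : Good p) {d : ℕ} (hd : (p - d % p) ^ ((p - 1) / 2) % p = p - 1)
    {x : ℂ} (hx : x ^ 2 = -(d : ℂ)) (n : ℕ) : av x n ≠ 0 := by
  obtain ⟨hp, hp2, hp3, hc⟩ := hg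
  have hxi : IsIntegral ℤ x := by
    apply IsIntegral.of_pow (n := 2) (by norm_num)
    rw [hx]
    exact (isIntegral_algebraMap (R := ℤ) (A := ℂ) (x := (d : ℤ))).neg
  obtain ⟨𝔪, h𝔪, hpm⟩ := exists_max p hp.one_lt
  let : Field (integralClosure ℤ ℂ ⧸ 𝔪) := Ideal.Quotient.field 𝔪
  set X : integralClosure ℤ ℂ := ⟨x, hxi⟩ with hX
  have hXx : algebraMap (integralClosure ℤ ℂ) ℂ X = x := rfl
  have hX2 : X ^ 2 = -(d : integralClosure ℤ ℂ) := by
    apply Subtype.ext
    simpa [hX] using hx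
  set ψ := Ideal.Quotient.mk 𝔪 with hψ
  have hF : (p : integralClosure ℤ ℂ ⧸ 𝔪) = 0 := by
    have := Ideal.Quotient.eq_zero_iff_mem.2 hpm
    rwa [map_natCast] at this
  have hlt := Nat.mod_lt d hp.pos
  have he : p - d % p < p := by
    by_contra h
    have h1 : p - d % p = p := by omega
    rw [h1] at hd
    have h2 : p ^ ((p - 1) / 2) % p = 0 :=
      Nat.mod_eq_zero_of_dvd (dvd_pow_self p (by omega))
    omega
  have hxe : (ψ X) ^ 2 = ((p - d % p : ℕ) : integralClosure ℤ ℂ ⧸ 𝔪) := by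
    rw [← map_pow, hX2, map_neg, map_natCast, Nat.cast_sub hlt.le, cast_mod hF, hF]
    ring
  have h1 := av_ne_of_chk hp hp2 hp3 hF hxe hd (chk_of_all hc _ he hd) n
  intro h
  apply h1
  rw [← av_map]
  rw [← hXx, ← av_map] at h
  have h3 : av X n = 0 :=
    (FaithfulSMul.algebraMap_injective (integralClosure ℤ ℂ) ℂ) (by rw [h, map_zero])
  rw [h3, map_zero]

lemma nonres {p : ℕ} (hp : p.Prime) (h4 : p % 4 = 3) (m : ℕ) (hm : ¬ p ∣ m) :
    (p - m ^ 2 % p) ^ ((p - 1) / 2) % p = p - 1 := by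
  have : Fact p.Prime := ⟨hp⟩
  have hlt := Nat.mod_lt (m ^ 2) hp.pos
  have hF : (p : ZMod p) = 0 := ZMod.natCast_self p
  have h1 : (((p - m ^ 2 % p) ^ ((p - 1) / 2) : ℕ) : ZMod p) = ((p - 1 : ℕ) : ZMod p) := by
    rw [Nat.cast_pow, Nat.cast_sub hlt.le, cast_mod hF, Nat.cast_sub hp.one_lt.le, hF, zero_sub,
      zero_sub, Odd.neg_pow ⟨p / 4, by omega⟩, Nat.cast_pow, ← pow_mul,
      show 2 * ((p - 1) / 2) = p - 1 by omega, fermat hp hF m hm, Nat.cast_one]
  have h2 := (ZMod.natCast_eq_natCast_iff' _ _ _).1 h1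
  rwa [Nat.mod_eq_of_lt (show p - 1 < p by omega)] at h2

/-- a zero at `i t` is divisible by the good primes `3` modulo `4` -/
theorem Good.dvd {p : ℕ} (hg : Good p) (h4 : p % 4 = 3) {m : ℕ} {x : ℂ}
    (hx : x ^ 2 = -((m ^ 2 : ℕ) : ℂ)) {n : ℕ} (h : av x n = 0) : p ∣ m := by
  by_contra hm
  exact hg.ne (nonres hg.prime h4 m hm) hx n h

end Pool.Agent.Y49x.Darc
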