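import Pool.Agent.R326.DArcais6

/-!
The D'Arcais polynomial of degree `n + 1` has no zero `x ≠ 0` with `16 n ≤ |x|`.
-/

set_option autoImplicit false

namespace Pool.Agent.Y49x.Darc

open Finset Pool.Agent.R326

lemma sigma_le (m : ℕ) : ArithmeticFunction.sigma 1 m * 2 ≤ (m + 1) * m := by
  rw [ArithmeticFunction.sigma_one_apply]
  have h1 : ∑ d ∈ m.divisors, d ≤ ∑ d ∈ range (m + 1), d := by
    apply sum_le_sum_of_subset
    intro d hd
    rw [mem_range]
    exact Nat.lt_succ_of_le (Nat.divisor_le hd)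
  have h2 := Finset.sum_range_id_mul_two (m + 1)
  rw [Nat.add_sub_cancel] at h2
  omega

lemma geom_sum (n : ℕ) : ∑ k ∈ range n, ((k : ℝ) + 2) * ((k : ℝ) + 3) / 2 * (1 / 8) ^ (k + 1) =
    169 / 343 - ((n : ℝ) ^ 2 / 14 + 37 * n / 98 + 169 / 343) * (1 / 8) ^ n := by
  induction n with
  | zero => simp
  | succ n ih =>
    rw [sum_range_succ, ih]
    push_cast
    ring

lemma size {x : ℂ} (n : ℕ) (hn : 16 * (n : ℝ) ≤ ‖x‖) :
    ‖x‖ / 2 * ‖av x n‖ ≤ ‖av x (n + 1)‖ := by
  induction n using Nat.strong_induction_on with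
  | _ n ih =>
    have hx : 0 ≤ ‖x‖ := norm_nonneg x
    have hstep : ∀ m, m < n → ‖x‖ / 2 * ‖av x m‖ ≤ ‖av x (m + 1)‖ := by
      intro m hm
      apply ih m hm
      have : (m : ℝ) ≤ n := by exact_mod_cast hm.le
      linarith
    have hpow : ∀ k, k ≤ n → (‖x‖ / 2) ^ k * ‖av x (n - k)‖ ≤ ‖av x n‖ := by
      intro k
      induction k with
      | zero => intro _; simp
      | succ k ihk =>
        intro hk
        have h1 := hstep (n - (k + 1)) (by omega)
        rw [show n - (k + 1) + 1 = n - k by omega] at h1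
        calc (‖x‖ / 2) ^ (k + 1) * ‖av x (n - (k + 1))‖
            = (‖x‖ / 2) ^ k * (‖x‖ / 2 * ‖av x (n - (k + 1))‖) := by ring
          _ ≤ (‖x‖ / 2) ^ k * ‖av x (n - k)‖ := by
              apply mul_le_mul_of_nonneg_left h1 (by positivity)
          _ ≤ ‖av x n‖ := ihk (by omega)
    have hterm : ∀ k, k ≤ n → (n.descFactorial k : ℝ) * ‖av x (n - k)‖ ≤
        (1 / 8) ^ k * ‖av x n‖ := by
      intro k hk
      have h1 : (n.descFactorial k : ℝ) ≤ (n : ℝ) ^ k := by
        exact_mod_cast Nat.descFactorial_le_pow n k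
      have h2 : (n : ℝ) ^ k ≤ (‖x‖ / 16) ^ k := by
        apply pow_le_pow_left₀ (by positivity)
        linarith
      calc (n.descFactorial k : ℝ) * ‖av x (n - k)‖ ≤ (‖x‖ / 16) ^ k * ‖av x (n - k)‖ :=
            mul_le_mul_of_nonneg_right (h1.trans h2) (norm_nonneg _)
        _ = (1 / 8) ^ k * ((‖x‖ / 2) ^ k * ‖av x (n - k)‖) := by
            rw [← mul_assoc, ← mul_pow]
            congr 2
            ring
        _ ≤ (1 / 8) ^ k * ‖av x n‖ := by
            apply mul_le_mul_of_nonneg_left (hpow k hk) (by positivity)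
    have hR : ‖∑ k ∈ range n, (ArithmeticFunction.sigma 1 (k + 1 + 1) : ℂ) *
        (n.descFactorial (k + 1) : ℂ) * av x (n - (k + 1))‖ ≤ ‖av x n‖ / 2 := by
      calc ‖∑ k ∈ range n, (ArithmeticFunction.sigma 1 (k + 1 + 1) : ℂ) *
        (n.descFactorial (k + 1) : ℂ) * av x (n - (k + 1))‖
          ≤ ∑ k ∈ range n, ‖(ArithmeticFunction.sigma 1 (k + 1 + 1) : ℂ) *
              (n.descFactorial (k + 1) : ℂ) * av x (n - (k + 1))‖ := norm_sum_le _ _
        _ ≤ ∑ k ∈ range n, (((k : ℝ) + 2) * ((k : ℝ) + 3) / 2 * (1 / 8) ^ (k + 1)) *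
              ‖av x n‖ := by
            apply sum_le_sum
            intro k hk
            rw [mem_range] at hk
            rw [norm_mul, norm_mul, Complex.norm_natCast, Complex.norm_natCast, mul_assoc,
              mul_assoc]
            have h1 : (ArithmeticFunction.sigma 1 (k + 1 + 1) : ℝ) ≤
                ((k : ℝ) + 2) * ((k : ℝ) + 3) / 2 := by
              have h2 := sigma_le (k + 1 + 1)
              have h3 : ((ArithmeticFunction.sigma 1 (k + 1 + 1) * 2 : ℕ) : ℝ) ≤
                (((k + 1 + 1 + 1) * (k + 1 + 1) : ℕ) : ℝ) := by exact_mod_cast h2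
              push_cast at h3
              linarith
            have h4 := hterm (k + 1) hk
            exact mul_le_mul h1 h4 (by positivity) (by positivity)
        _ ≤ ‖av x n‖ / 2 := by
            rw [← sum_mul, geom_sum]
            have h5 : 0 ≤ ((n : ℝ) ^ 2 / 14 + 37 * n / 98 + 169 / 343) * (1 / 8) ^ n := by
              positivity
            have h6 := norm_nonneg (av x n)
            nlinarith
    rw [av_succ, sum_range_succ', norm_mul]
    have h0 : (ArithmeticFunction.sigma 1 (0 + 1) : ℂ) * (n.descFactorial 0 : ℂ) *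
        av x (n - 0) = av x n := by simp
    rw [h0]
    set R := ∑ k ∈ range n, (ArithmeticFunction.sigma 1 (k + 1 + 1) : ℂ) *
        (n.descFactorial (k + 1) : ℂ) * av x (n - (k + 1)) with hRdef
    have h7 : ‖av x n‖ / 2 ≤ ‖R + av x n‖ := by
      have h8 : ‖av x n‖ ≤ ‖R + av x n‖ + ‖R‖ := by
        have := norm_sub_le (R + av x n) R
        rwa [add_sub_cancel_left] at this
      linarith
    calc ‖x‖ / 2 * ‖av x n‖ = ‖x‖ * (‖av x n‖ / 2) := by ring
      _ ≤ ‖x‖ * ‖R + av x n‖ := mul_le_mul_of_nonneg_left h7 hx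

theorem av_ne_of_size {x : ℂ} (hx : x ≠ 0) (n : ℕ) (hn : 16 * (n : ℝ) ≤ ‖x‖) :
    av x (n + 1) ≠ 0 := by
  induction n with
  | zero =>
    rw [av_succ]
    simpa [av_zero] using hx
  | succ n ih =>
    intro h
    have h1 := size (n + 1) hn
    rw [h, norm_zero] at h1
    have h2 : av x (n + 1) ≠ 0 := ih (by push_cast at hn; linarith)
    have h3 : 0 < ‖x‖ / 2 * ‖av x (n + 1)‖ :=
      mul_pos (by have := norm_pos_iff.2 hx; linarith) (norm_pos_iff.2 h2)
    linarith

end Pool.Agent.Y49x.Darc
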