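import Pool.Agent.Y49x.Darc.Good
import Pool.Agent.Y49x.Darc.Size

/-!
The zeros of the D'Arcais polynomials are algebraic integers; the zeros `i t` with `t²` rational.
-/

set_option autoImplicit false

namespace Pool.Agent.Y49x.Darc

open Finset Pool.Agent.R326 Polynomial

lemma av_monic (n : ℕ) : (av (X : ℤ[X]) n).Monic ∧ (av (X : ℤ[X]) n).natDegree = n := by
  induction n using Nat.strong_induction_on with
  | _ n ih =>
    cases n with
    | zero => simp [av_zero]
    | succ n =>
      obtain ⟨h1, h2⟩ := ih n (by omega)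
      have hS : ∃ R : ℤ[X], R.degree < (av (X : ℤ[X]) n).degree ∧
          av (X : ℤ[X]) (n + 1) = X * (R + av (X : ℤ[X]) n) := by
        refine ⟨∑ k ∈ range n, (ArithmeticFunction.sigma 1 (k + 1 + 1) : ℤ[X]) *
          (n.descFactorial (k + 1) : ℤ[X]) * av X (n - (k + 1)), ?_, ?_⟩
        · rw [degree_eq_natDegree h1.ne_zero, h2]
          apply mem_degreeLT.1
          apply Submodule.sum_mem
          intro k hk
          apply mem_degreeLT.2
          rw [mem_range] at hk
          rw [← Nat.cast_mul]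
          apply lt_of_le_of_lt (degree_mul_le _ _)
          have h3 : ((ArithmeticFunction.sigma 1 (k + 1 + 1) * n.descFactorial (k + 1) : ℕ) :
            ℤ[X]).degree ≤ 0 := degree_natCast_le _
          have h4 : (av (X : ℤ[X]) (n - (k + 1))).degree = ((n - (k + 1) : ℕ) : WithBot ℕ) := by
            rw [degree_eq_natDegree (ih _ (by omega)).1.ne_zero, (ih _ (by omega)).2]
          rw [h4]
          calc _ ≤ (0 : WithBot ℕ) + ((n - (k + 1) : ℕ) : WithBot ℕ) := by gcongr
            _ = ((n - (k + 1) : ℕ) : WithBot ℕ) := zero_add _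
            _ < (n : WithBot ℕ) := by exact_mod_cast (by omega : n - (k + 1) < n)
        · rw [av_succ, sum_range_succ']
          simp
      obtain ⟨R, hR, hS⟩ := hS
      have h3 : (R + av (X : ℤ[X]) n).Monic := h1.add_of_right hR
      have h4 : (R + av (X : ℤ[X]) n).natDegree = n := by
        rw [natDegree_add_eq_right_of_degree_lt hR, h2]
      rw [hS]
      refine ⟨monic_X.mul h3, ?_⟩
      rw [monic_X.natDegree_mul h3, h4, natDegree_X, add_comm]

lemma av_integral {x : ℂ} {n : ℕ} (h : av x n = 0) : IsIntegral ℤ x := by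
  refine ⟨av X n, (av_monic n).1, ?_⟩
  have h1 := av_map (eval₂RingHom (algebraMap ℤ ℂ) x) X n
  rw [coe_eval₂RingHom, eval₂_X] at h1
  rw [h1, h]

lemma rat_integral {r : ℚ} (h : IsIntegral ℤ (r : ℂ)) : ∃ m : ℤ, r = m := by
  have h1 : (r : ℂ) = algebraMap ℚ ℂ r := rfl
  rw [h1, isIntegral_algebraMap_iff (algebraMap ℚ ℂ).injective] at h
  obtain ⟨y, hy⟩ := IsIntegrallyClosed.isIntegral_iff.1 h
  exact ⟨y, by rw [← hy]; rfl⟩

/-- at a zero `i t` with `t²` rational, `t²` is a natural number -/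
lemma sq_nat {n : ℕ} {t : ℝ} {r : ℚ} (ht : t ^ 2 = r) (h : av (Complex.I * (t : ℂ)) n = 0) :
    ∃ d : ℕ, r = d := by
  have h1 : IsIntegral ℤ ((Complex.I * (t : ℂ)) ^ 2) := (av_integral h).pow 2
  have h2 : (Complex.I * (t : ℂ)) ^ 2 = -(r : ℂ) := by
    rw [mul_pow, Complex.I_sq, ← Complex.ofReal_pow, ht]
    simp
  rw [h2] at h1
  have h3 : IsIntegral ℤ (r : ℂ) := by simpa using h1.neg
  obtain ⟨m, hm⟩ := rat_integral h3
  have h4 : (0 : ℝ) ≤ r := by rw [← ht]; positivity
  rw [hm] at h4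
  have h5 : 0 ≤ m := by
    have : (0 : ℝ) ≤ (m : ℝ) := by simpa using h4
    exact_mod_cast this
  exact ⟨m.toNat, by rw [hm]; exact_mod_cast (Int.toNat_of_nonneg h5).symm⟩

/-- a rational `t` with a zero at `i t` is an integer -/
lemma rat_int {n : ℕ} {t : ℚ} (h : av (Complex.I * (t : ℂ)) n = 0) : ∃ m : ℤ, t = m := by
  apply rat_integral
  have h1 := (av_integral h).mul Complex.isIntegral_int_I
  have h2 : Complex.I * (t : ℂ) * Complex.I = -(t : ℂ) := by
    linear_combination (t : ℂ) * Complex.I_mul_I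
  rw [h2] at h1
  simpa using h1.neg

/-- a zero off the origin is small -/
lemma size_lt {x : ℂ} (hx : x ≠ 0) {n : ℕ} (h : av x n = 0) : ‖x‖ < 16 * ((n : ℝ) - 1) := by
  cases n with
  | zero =>
    rw [av_zero] at h
    exact absurd h one_ne_zero
  | succ n =>
    by_contra h1
    exact av_ne_of_size hx n (by push_cast at h1; linarith) h

/-- at a zero `i √d`, the number `-d` is a square modulo the good primes -/
theorem Good.isSquare {p : ℕ} (hg : Good p) {d : ℕ} {x : ℂ} (hx : x ^ 2 = -(d : ℂ)) {n : ℕ}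
    (h : av x n = 0) : IsSquare (-(d : ZMod p)) := by
  by_contra hsq
  have hp := hg.prime
  have : Fact p.Prime := ⟨hp⟩
  have hF : (p : ZMod p) = 0 := ZMod.natCast_self p
  have hlt := Nat.mod_lt d hp.pos
  have h2 := hg.two_lt
  have hodd : Odd p := hp.odd_of_ne_two (by omega)
  obtain ⟨m, hm⟩ := hodd
  have hd0 : -(d : ZMod p) ≠ 0 := by
    intro h0
    rw [h0] at hsq
    exact hsq (IsSquare.zero)
  have h3 : (-(d : ZMod p)) ^ (p / 2) = -1 := by
    rcases ZMod.pow_div_two_eq_neg_one_or_one p hd0 with h4 | h4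
    · exact absurd ((ZMod.euler_criterion p hd0).2 h4) hsq
    · exact h4
  apply hg.ne _ hx n h
  have h1 : (((p - d % p) ^ ((p - 1) / 2) : ℕ) : ZMod p) = ((p - 1 : ℕ) : ZMod p) := by
    rw [Nat.cast_pow, Nat.cast_sub hlt.le, cast_mod hF, Nat.cast_sub hp.one_lt.le, hF, zero_sub,
      zero_sub, show (p - 1) / 2 = p / 2 by omega, h3, Nat.cast_one]
  have h5 := (ZMod.natCast_eq_natCast_iff' _ _ _).1 h1
  rwa [Nat.mod_eq_of_lt (show p - 1 < p by omega)] at h5

end Pool.Agent.Y49x.Darc
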