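import Pool.Agent.Y49x.Darc.Period

/-!
The invariants of the packed computation and the non-vanishing modulo a prime.
-/

set_option autoImplicit false

namespace Pool.Agent.Y49x.Darc

open Finset Pool.Agent.R326

lemma decode (A B : ℕ) (hA : A < 2 ^ 32) :
    (A + 2 ^ 32 * B) % 2 ^ 32 = A ∧ (A + 2 ^ 32 * B) / 2 ^ 32 = B := by
  constructor
  · rw [Nat.add_mul_mod_self_left, Nat.mod_eq_of_lt hA]
  · rw [Nat.add_mul_div_left _ _ (by positivity), Nat.div_eq_of_lt hA, zero_add]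

/-- the real part of the value -/
def re (p e n : ℕ) : ℕ := (st p e n).2 % 2 ^ 32

/-- the imaginary part of the value -/
def im (p e n : ℕ) : ℕ := (st p e n).2 / 2 ^ 32

lemma st_snd (p e n : ℕ) : (st p e n).2 = re p e n + 2 ^ 32 * im p e n := by
  unfold re im
  rw [add_comm, Nat.div_add_mod]

section

variable {p e : ℕ} (hp1 : 1 < p) (hp3 : p * p * p < 2 ^ 32)

include hp1 hp3 in
lemma p_lt : p < 2 ^ 32 := by nlinarith

include hp1 hp3 in
lemma re_succ (n : ℕ) :
    re p e (n + 1) = e * (cc p e n / 2 ^ 32 % p) * ((n + 1) ^ (p - 2) % p) % p ∧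
    im p e (n + 1) = (cc p e n % 2 ^ 32 % p) * ((n + 1) ^ (p - 2) % p) % p := by
  have h := p_lt hp1 hp3
  have h2 : (st p e (n + 1)).2 = e * (cc p e n / 2 ^ 32 % p) * ((n + 1) ^ (p - 2) % p) % p +
      2 ^ 32 * ((cc p e n % 2 ^ 32 % p) * ((n + 1) ^ (p - 2) % p) % p) := rfl
  unfold re im
  rw [h2]
  exact decode _ _ ((Nat.mod_lt _ (by omega)).trans h)

include hp1 hp3 in
lemma re_lt (n : ℕ) : re p e n < p ∧ im p e n < p := by
  cases n with
  | zero =>
    unfold re im st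
    constructor
    · rw [Nat.mod_eq_of_lt (by norm_num)]
      exact hp1
    · rw [Nat.div_eq_of_lt (by norm_num)]
      omega
  | succ n =>
    rw [(re_succ hp1 hp3 n).1, (re_succ hp1 hp3 n).2]
    exact ⟨Nat.mod_lt _ (by omega), Nat.mod_lt _ (by omega)⟩

/-- the convolutions -/
def U (p e n : ℕ) : ℕ := ∑ k ∈ range (n + 1), re p e (n - k) * sg p k

/-- the convolutions -/
def V (p e n : ℕ) : ℕ := ∑ k ∈ range (n + 1), im p e (n - k) * sg p k

lemma sg_lt (hp : 0 < p) (k : ℕ) : sg p k < p := Nat.mod_lt _ hp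

include hp1 hp3 in
lemma UV_lt (n : ℕ) (hn : n < p) : U p e n < 2 ^ 32 ∧ V p e n < 2 ^ 32 := by
  have hb : ∀ f : ℕ → ℕ, (∀ k, f k < p) →
      ∑ k ∈ range (n + 1), f (n - k) * sg p k < 2 ^ 32 := by
    intro f hf
    have h1 : ∑ k ∈ range (n + 1), f (n - k) * sg p k ≤ ∑ k ∈ range (n + 1), p * p := by
      apply sum_le_sum
      intro k _
      exact Nat.mul_le_mul (hf _).le (sg_lt (by omega) k).le
    rw [sum_const, card_range, smul_eq_mul] at h1
    have h2 : (n + 1) * (p * p) ≤ p * (p * p) := Nat.mul_le_mul_right _ hn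
    have h3 : p * (p * p) = p * p * p := by ring
    exact lt_of_le_of_lt (h1.trans (h2.trans h3.le)) hp3
  exact ⟨hb _ fun k => (re_lt hp1 hp3 k).1, hb _ fun k => (re_lt hp1 hp3 k).2⟩

lemma conv_eq (n : ℕ) : ∑ k ∈ range (n + 1), (st p e (n - k)).2 * sg p k =
    U p e n + 2 ^ 32 * V p e n := by
  unfold U V
  rw [mul_sum, ← sum_add_distrib]
  apply sum_congr rfl
  intro k _
  rw [st_snd]
  ring

lemma T_eq (n : ℕ) (hn : n < p)
    (h : (st p e n).1 = ∑ k ∈ range n, (st p e (n - 1 - k)).2 * tl p (k + 1)) :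
    (st p e n).1 + (st p e n).2 * pk p p 0 = (U p e n + 2 ^ 32 * V p e n) +
      2 ^ 64 * ∑ k ∈ range (n + 1), (st p e (n - k)).2 * tl p (k + 1) := by
  have h1 : (st p e n).1 + (st p e n).2 * pk p p 0 =
      ∑ k ∈ range (n + 1), (st p e (n - k)).2 * tl p k := by
    rw [sum_range_succ', h]
    congr 1
    apply sum_congr rfl
    intro k _
    rw [Nat.sub_sub, add_comm 1 k]
  rw [h1, ← conv_eq, mul_sum, ← sum_add_distrib]
  apply sum_congr rfl
  intro k hk
  rw [mem_range] at hk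
  rw [tl_eq p k (by omega)]
  ring

include hp1 hp3 in
lemma st_fst (n : ℕ) (hn : n ≤ p) :
    (st p e n).1 = ∑ k ∈ range n, (st p e (n - 1 - k)).2 * tl p (k + 1) := by
  induction n with
  | zero => rfl
  | succ n ih =>
    have h2 : (st p e (n + 1)).1 = ((st p e n).1 + (st p e n).2 * pk p p 0) / 2 ^ 64 := rfl
    rw [h2, T_eq n hn (ih (by omega)), Nat.add_mul_div_left _ _ (by positivity), Nat.div_eq_of_lt,
      zero_add]
    · apply sum_congr rfl
      intro k _
      rw [Nat.add_sub_cancel]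
    · have := UV_lt (e := e) hp1 hp3 n hn
      have h3 : (2 : ℕ) ^ 64 = 2 ^ 32 * 2 ^ 32 := by norm_num
      rw [h3]
      nlinarith

include hp1 hp3 in
lemma cc_eq (n : ℕ) (hn : n < p) : cc p e n % 2 ^ 32 = U p e n ∧ cc p e n / 2 ^ 32 = V p e n := by
  have := UV_lt (e := e) hp1 hp3 n hn
  have h1 : cc p e n = U p e n + 2 ^ 32 * V p e n := by
    unfold cc
    rw [T_eq n hn (st_fst hp1 hp3 n hn.le), Nat.add_mul_mod_self_left, Nat.mod_eq_of_lt]
    have h3 : (2 : ℕ) ^ 64 = 2 ^ 32 * 2 ^ 32 := by norm_num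
    rw [h3]
    nlinarith
  rw [h1]
  exact decode _ _ this.1

end

section field

variable {F : Type*} [Field F]

lemma cast_mod {p : ℕ} (hp : (p : F) = 0) (a : ℕ) : ((a % p : ℕ) : F) = a := by
  conv_rhs => rw [← Nat.div_add_mod a p]
  rw [Nat.cast_add, Nat.cast_mul, hp]
  ring

/-- the value at the square root -/
def q (p e : ℕ) (x : F) (n : ℕ) : F := (re p e n : F) + (im p e n : F) * x

lemma sum_q {p e : ℕ} (hp : (p : F) = 0) (x : F) (n : ℕ) :
    ∑ k ∈ range (n + 1), (ArithmeticFunction.sigma 1 (k + 1) : F) * q p e x (n - k) =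
      (U p e n : F) + (V p e n : F) * x := by
  unfold U V q
  rw [Nat.cast_sum, Nat.cast_sum, sum_mul, ← sum_add_distrib]
  apply sum_congr rfl
  intro k _
  unfold sg
  rw [Nat.cast_mul, Nat.cast_mul, cast_mod hp, sgAux_self]
  ring

lemma fermat {p : ℕ} (hp : p.Prime) (hF : (p : F) = 0) (a : ℕ) (ha : ¬ p ∣ a) :
    (a : F) ^ (p - 1) = 1 := by
  have : Fact p.Prime := ⟨hp⟩
  have : CharP F p := (CharP.charP_iff_prime_eq_zero hp).2 hF
  have h1 : (a : ZMod p) ≠ 0 := by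
    rwa [Ne, ZMod.natCast_eq_zero_iff]
  have h2 := congrArg (ZMod.castHom (dvd_refl p) F) (ZMod.pow_card_sub_one_eq_one h1)
  rwa [map_pow, map_natCast, map_one] at h2

lemma inv_eq {p : ℕ} (hp : p.Prime) (hF : (p : F) = 0) (n : ℕ) (hn : n + 1 < p) :
    ((n + 1 : ℕ) : F) * (((n + 1) ^ (p - 2) % p : ℕ) : F) = 1 := by
  rw [cast_mod hF, Nat.cast_pow, ← pow_succ', show p - 2 + 1 = p - 1 by omega]
  exact fermat hp hF _ (Nat.not_dvd_of_pos_of_lt (by omega) hn)

lemma q_rec {p e : ℕ} (hp : p.Prime) (hp3 : p * p * p < 2 ^ 32) (hF : (p : F) = 0) {x : F}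
    (hx : x ^ 2 = e) (n : ℕ) (hn : n + 1 < p) :
    ((n + 1 : ℕ) : F) * q p e x (n + 1) =
      x * ∑ k ∈ range (n + 1), (ArithmeticFunction.sigma 1 (k + 1) : F) * q p e x (n - k) := by
  rw [sum_q hF]
  unfold q
  have h := inv_eq hp hF n hn
  rw [(re_succ hp.one_lt hp3 n).1, (re_succ hp.one_lt hp3 n).2,
    (cc_eq hp.one_lt hp3 n (by omega)).1, (cc_eq hp.one_lt hp3 n (by omega)).2]
  generalize (n + 1) ^ (p - 2) % p = w at h ⊢
  rw [cast_mod hF (e * (V p e n % p) * w), cast_mod hF (U p e n % p * w), Nat.cast_mul,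
    Nat.cast_mul, Nat.cast_mul, cast_mod hF (V p e n), cast_mod hF (U p e n)]
  linear_combination ((e : F) * (V p e n : F) + (U p e n : F) * x) * h - (V p e n : F) * hx

/-- `e` is not a square modulo `p`: combinations of `1` and `x` do not vanish -/
lemma comb_ne {p e : ℕ} (hp : p.Prime) (hp2 : 2 < p) (hF : (p : F) = 0) {x : F}
    (hx : x ^ 2 = e) (he : e ^ ((p - 1) / 2) % p = p - 1) (u v : ℕ)
    (h : ¬ (u % p = 0 ∧ v % p = 0)) : (u : F) + (v : F) * x ≠ 0 := by
  have : Fact p.Prime := ⟨hp⟩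
  have : CharP F p := (CharP.charP_iff_prime_eq_zero hp).2 hF
  have hzero : ∀ a : ℕ, (a : F) = 0 ↔ p ∣ a := fun a => CharP.cast_eq_zero_iff F p a
  intro h0
  by_cases hv : p ∣ v
  · have hv0 := (hzero v).2 hv
    rw [hv0, zero_mul, add_zero] at h0
    exact h ⟨Nat.mod_eq_zero_of_dvd ((hzero u).1 h0), Nat.mod_eq_zero_of_dvd hv⟩
  · have hodd : Odd p := hp.odd_of_ne_two (by omega)
    obtain ⟨m, hm⟩ := hodd
    have hm2 : (p - 1) / 2 = m := by omega
    rw [hm2] at he
    have hep : ((e : F)) ^ m = -1 := by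
      rw [← Nat.cast_pow, ← cast_mod hF, he, Nat.cast_sub hp.one_lt.le, hF]
      simp
    have hv1 := fermat hp hF v hv
    -- `x = - u v^{p-2}`
    have hxe : x = -((u * v ^ (p - 2) : ℕ) : F) := by
      have e1 : (v : F) * (v : F) ^ (p - 2) = 1 := by
        rw [← pow_succ', show p - 2 + 1 = p - 1 by omega, hv1]
      rw [Nat.cast_mul, Nat.cast_pow]
      linear_combination (v : F) ^ (p - 2) * h0 - x * e1
    have h3 : x ^ (2 * m) = -1 := by rw [pow_mul, hx, hep]
    have h4 : (-1 : F) ≠ 0 := by simp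
    by_cases hw : p ∣ u * v ^ (p - 2)
    · rw [hxe, (hzero _).2 hw, neg_zero, zero_pow (by omega)] at h3
      exact h4 h3.symm
    · have h5 := fermat hp hF _ hw
      rw [hxe, Even.neg_pow ⟨m, by ring⟩, show 2 * m = p - 1 by omega, h5] at h3
      have h6 : ((2 : ℕ) : F) = 0 := by
        push_cast
        linear_combination h3
      have h7 := Nat.le_of_dvd (by norm_num) ((hzero 2).1 h6)
      omega

lemma av_ne_of_chk {p e : ℕ} (hp : p.Prime) (hp2 : 2 < p) (hp3 : p * p * p < 2 ^ 32)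
    (hF : (p : F) = 0) {x : F} (hx : x ^ 2 = e) (he : e ^ ((p - 1) / 2) % p = p - 1)
    (hc : chk p e = true) (n : ℕ) : av x n ≠ 0 := by
  have : Fact p.Prime := ⟨hp⟩
  have : CharP F p := (CharP.charP_iff_prime_eq_zero hp).2 hF
  have hzero : ∀ a : ℕ, (a : F) = 0 ↔ p ∣ a := fun a => CharP.cast_eq_zero_iff F p a
  apply av_ne p hF (by omega)
  intro s hs
  have h0 : q p e x 0 = 1 := by
    have h1 : re p e 0 = 1 := by
      unfold re st
      exact Nat.mod_eq_of_lt (by norm_num)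
    have h2 : im p e 0 = 0 := by
      unfold im st
      exact Nat.div_eq_of_lt (by norm_num)
    unfold q
    rw [h1, h2]
    simp
  rw [av_succ_eq p x (q p e x) h0 (fun n hn => q_rec hp hp3 hF hx n hn) s hs, sum_q hF]
  have hx0 : x ≠ 0 := by
    intro h
    rw [h] at hx
    have h1 : p ∣ e := (hzero e).1 (by rw [← hx]; ring)
    have h2 : e ^ ((p - 1) / 2) % p = 0 :=
      Nat.mod_eq_zero_of_dvd (h1.trans (dvd_pow_self e (by omega)))
    omega
  refine mul_ne_zero ?_ (mul_ne_zero hx0 ?_)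
  · intro h
    have := (hp.dvd_factorial).1 ((hzero _).1 h)
    omega
  · apply comb_ne hp hp2 hF hx he
    have h1 := loop_true p e p 0 hc s (by omega) (by omega)
    rwa [(cc_eq hp.one_lt hp3 s hs).1, (cc_eq hp.one_lt hp3 s hs).2] at h1

end field

end Pool.Agent.Y49x.Darc
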