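import Mathlib

/-!
A sieve with bit masks.
-/

set_option autoImplicit false

namespace Pool.Agent.Y49x.Darc

/-- the residues `j < m` such that `-j` is a square modulo `p` -/
def msk (p : ℕ) : ℕ → ℕ
  | 0 => 0
  | m + 1 => msk p m + (if (p - m) ^ ((p - 1) / 2) % p = p - 1 then 0 else 2 ^ m)

/-- the residues `j < m` that are not treated by the primes `2` and `3` -/
def msk0 : ℕ → ℕ
  | 0 => 0
  | m + 1 => msk0 m + (if m % 4 = 1 ∨ m % 4 = 2 ∨ m % 3 = 1 ∨ m % 27 = 9 then 0 else 2 ^ m)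

/-- repetition of a mask with period `s`, `k` doublings -/
def rep : ℕ → ℕ → ℕ → ℕ
  | 0, _, M => M
  | k + 1, s, M => rep k (2 * s) (M ||| (M <<< s))

/-- the numbers that are not treated -/
def sieve (N : ℕ) : List ℕ → ℕ
  | [] => rep (Nat.log2 (N / 108) + 1) 108 (msk0 108)
  | p :: l => rep (Nat.log2 (N / p) + 1) p (msk p p) &&& sieve N l

lemma add_pow_testBit {a m : ℕ} (h : a < 2 ^ m) (b : Bool) :
    a + (if b then 0 else 2 ^ m) < 2 ^ (m + 1) ∧
    (∀ i, i < m → (a + (if b then 0 else 2 ^ m)).testBit i = a.testBit i) ∧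
    (a + (if b then 0 else 2 ^ m)).testBit m = !b := by
  cases b with
  | true =>
    simp only [if_true, add_zero, Bool.not_true]
    refine ⟨h.trans (Nat.pow_lt_pow_right (by norm_num) (by omega)), fun i _ => trivial,
      Nat.testBit_lt_two_pow h⟩
  | false =>
    simp only [Bool.false_eq_true, if_false, Bool.not_false]
    refine ⟨by rw [pow_succ]; omega, fun i hi => ?_, ?_⟩
    · rw [add_comm, Nat.testBit_two_pow_add_gt hi]
    · rw [add_comm, Nat.testBit_two_pow_add_eq, Nat.testBit_lt_two_pow h]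
      rfl

lemma msk_spec (p m : ℕ) : msk p m < 2 ^ m ∧ ∀ i, i < m →
    (msk p m).testBit i = !decide ((p - i) ^ ((p - 1) / 2) % p = p - 1) := by
  induction m with
  | zero => exact ⟨by simp [msk], fun i hi => by omega⟩
  | succ m ih =>
    have h := add_pow_testBit ih.1 (decide ((p - m) ^ ((p - 1) / 2) % p = p - 1))
    simp only [decide_eq_true_eq] at h
    refine ⟨h.1, fun i hi => ?_⟩
    rcases Nat.lt_succ_iff_lt_or_eq.1 hi with h1 | h1
    · rw [msk, h.2.1 i h1, ih.2 i h1]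
    · subst h1
      exact h.2.2

lemma msk0_spec (m : ℕ) : msk0 m < 2 ^ m ∧ ∀ i, i < m →
    (msk0 m).testBit i = !decide (i % 4 = 1 ∨ i % 4 = 2 ∨ i % 3 = 1 ∨ i % 27 = 9) := by
  induction m with
  | zero => exact ⟨by simp [msk0], fun i hi => by omega⟩
  | succ m ih =>
    have h := add_pow_testBit ih.1 (decide (m % 4 = 1 ∨ m % 4 = 2 ∨ m % 3 = 1 ∨ m % 27 = 9))
    simp only [decide_eq_true_eq] at h
    refine ⟨h.1, fun i hi => ?_⟩
    rcases Nat.lt_succ_iff_lt_or_eq.1 hi with h1 | h1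
    · rw [msk0, h.2.1 i h1, ih.2 i h1]
    · subst h1
      exact h.2.2

lemma rep_testBit (k s M : ℕ) (hM : M < 2 ^ s) (i : ℕ) (hi : i < s * 2 ^ k) :
    (rep k s M).testBit i = M.testBit (i % s) := by
  induction k generalizing s M with
  | zero =>
    rw [pow_zero, mul_one] at hi
    rw [rep, Nat.mod_eq_of_lt hi]
  | succ k ih =>
    have hs : 0 < s := by
      rcases Nat.eq_zero_or_pos s with h | h
      · subst h; simp at hi
      · exact h
    have hM' : M ||| (M <<< s) < 2 ^ (2 * s) := by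
      apply Nat.or_lt_two_pow
      · exact hM.trans (Nat.pow_lt_pow_right (by norm_num) (by omega))
      · rw [Nat.shiftLeft_eq, two_mul, pow_add]
        exact Nat.mul_lt_mul_of_pos_right hM (by positivity)
    rw [rep, ih (2 * s) _ hM' (by rw [pow_succ] at hi; calc i < s * (2 ^ k * 2) := hi
      _ = 2 * s * 2 ^ k := by ring)]
    have hmod : i % (2 * s) % s = i % s := Nat.mod_mod_of_dvd _ (Dvd.intro_left 2 rfl)
    have hlt : i % (2 * s) < 2 * s := Nat.mod_lt _ (by omega)
    rw [← hmod]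
    generalize i % (2 * s) = j at hlt
    rw [Nat.testBit_or, Nat.testBit_shiftLeft]
    by_cases hj : j < s
    · rw [Nat.mod_eq_of_lt hj]
      simp [hj]
    · have h1 : M.testBit j = false := by
        apply Nat.testBit_lt_two_pow
        exact hM.trans_le (Nat.pow_le_pow_right (by norm_num) (by omega))
      have h2 : j % s = j - s := by
        rw [Nat.mod_eq_sub_mod (by omega), Nat.mod_eq_of_lt (by omega)]
      rw [h1, h2]
      simp
      omega

lemma lt_log2 (N s : ℕ) (hs : 0 < s) (i : ℕ) (hi : i ≤ N) :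
    i < s * 2 ^ (Nat.log2 (N / s) + 1) := by
  have h1 : N / s < 2 ^ (Nat.log2 (N / s) + 1) := Nat.lt_log2_self
  have h2 : N < s * (N / s + 1) := Nat.lt_mul_div_succ N hs
  have h3 : s * (N / s + 1) ≤ s * 2 ^ (Nat.log2 (N / s) + 1) := Nat.mul_le_mul_left _ h1
  omega

lemma sieve_testBit (N : ℕ) (l : List ℕ) (hl : ∀ p ∈ l, 0 < p) (d : ℕ) (hd : d ≤ N)
    (h : (sieve N l).testBit d = false) :
    (d % 4 = 1 ∨ d % 4 = 2 ∨ d % 3 = 1 ∨ d % 27 = 9) ∨
      ∃ p ∈ l, (p - d % p) ^ ((p - 1) / 2) % p = p - 1 := by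
  induction l with
  | nil =>
    left
    rw [sieve, rep_testBit _ _ _ (msk0_spec 108).1 _ (lt_log2 N 108 (by norm_num) d hd),
      (msk0_spec 108).2 _ (Nat.mod_lt _ (by norm_num))] at h
    have h1 : d % 108 % 4 = 1 ∨ d % 108 % 4 = 2 ∨ d % 108 % 3 = 1 ∨ d % 108 % 27 = 9 := by
      simpa only [Bool.not_eq_false', decide_eq_true_eq] using h
    omega
  | cons p l ih =>
    have hp : 0 < p := hl p (by simp)
    rw [sieve, Nat.testBit_and, rep_testBit _ _ _ (msk_spec p p).1 _ (lt_log2 N p hp d hd),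
      (msk_spec p p).2 _ (Nat.mod_lt _ hp)] at h
    rw [Bool.and_eq_false_iff] at h
    rcases h with h | h
    · right
      exact ⟨p, by simp, by simpa only [Bool.not_eq_false', decide_eq_true_eq] using h⟩
    · rcases ih (fun q hq => hl q (by simp [hq])) h with h1 | ⟨q, hq, h1⟩
      · exact Or.inl h1
      · exact Or.inr ⟨q, by simp [hq], h1⟩

/-- the Boolean check -/
def cov (N : ℕ) (l : List ℕ) : Bool := sieve N l % 2 ^ (N + 1) == 1

lemma cov_spec {N : ℕ} {l : List ℕ} (h : cov N l = true) (hl : ∀ p ∈ l, 0 < p) (d : ℕ)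
    (hd0 : 0 < d) (hd : d ≤ N) : (d % 4 = 1 ∨ d % 4 = 2 ∨ d % 3 = 1 ∨ d % 27 = 9) ∨
      ∃ p ∈ l, (p - d % p) ^ ((p - 1) / 2) % p = p - 1 := by
  apply sieve_testBit N l hl d hd
  have h1 : sieve N l % 2 ^ (N + 1) = 1 := by
    unfold cov at h
    simpa using h
  have h2 := congrArg (fun a => Nat.testBit a d) h1
  simp only [Nat.testBit_mod_two_pow] at h2
  have h3 : decide (d < N + 1) = true := by simp; omega
  rw [h3, Bool.true_and] at h2
  rw [h2]
  cases hb : Nat.testBit 1 d with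
  | false => rfl
  | true =>
    rw [Nat.testBit_one_eq_true_iff_self_eq_zero] at hb
    omega

end Pool.Agent.Y49x.Darc
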