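import Pool.Agent.Y49x.Darc.Good

/-!
The kernel computations for the primes 3, 5, 11, 13, 17, 19, 29, 41, 43, 47, 53, 59, 61, 67, 71, 83, 97.
-/

set_option autoImplicit false
set_option maxRecDepth 100000

namespace Pool.Agent.Y49x.Darc

theorem good3 : Good 3 := ⟨by norm_num, by norm_num, by norm_num, by decide +kernel⟩

theorem good5 : Good 5 := ⟨by norm_num, by norm_num, by norm_num, by decide +kernel⟩

theorem good11 : Good 11 := ⟨by norm_num, by norm_num, by norm_num, by decide +kernel⟩

theorem good13 : Good 13 := ⟨by norm_num, by norm_num, by norm_num, by decide +kernel⟩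

theorem good17 : Good 17 := ⟨by norm_num, by norm_num, by norm_num, by decide +kernel⟩

theorem good19 : Good 19 := ⟨by norm_num, by norm_num, by norm_num, by decide +kernel⟩

theorem good29 : Good 29 := ⟨by norm_num, by norm_num, by norm_num, by decide +kernel⟩

theorem good41 : Good 41 := ⟨by norm_num, by norm_num, by norm_num, by decide +kernel⟩

theorem good43 : Good 43 := ⟨by norm_num, by norm_num, by norm_num, by decide +kernel⟩

theorem good47 : Good 47 := ⟨by norm_num, by norm_num, by norm_num, by decide +kernel⟩

theorem good53 : Good 53 := ⟨by norm_num, by norm_num, by norm_num, by decide +kernel⟩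

theorem good59 : Good 59 := ⟨by norm_num, by norm_num, by norm_num, by decide +kernel⟩

theorem good61 : Good 61 := ⟨by norm_num, by norm_num, by norm_num, by decide +kernel⟩

theorem good67 : Good 67 := ⟨by norm_num, by norm_num, by norm_num, by decide +kernel⟩

theorem good71 : Good 71 := ⟨by norm_num, by norm_num, by norm_num, by decide +kernel⟩

theorem good83 : Good 83 := ⟨by norm_num, by norm_num, by norm_num, by decide +kernel⟩

theorem good97 : Good 97 := ⟨by norm_num, by norm_num, by norm_num, by decide +kernel⟩

end Pool.Agent.Y49x.Darc
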