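import Pool.Agent.Y49x.Darc.Good

/-!
The kernel computations for the primes 101, 103, 113, 127, 131, 139, 151, 163.
-/

set_option autoImplicit false
set_option maxRecDepth 100000

namespace Pool.Agent.Y49x.Darc

theorem good101 : Good 101 := ⟨by norm_num, by norm_num, by norm_num, by decide +kernel⟩

theorem good103 : Good 103 := ⟨by norm_num, by norm_num, by norm_num, by decide +kernel⟩

theorem good113 : Good 113 := ⟨by norm_num, by norm_num, by norm_num, by decide +kernel⟩

theorem good127 : Good 127 := ⟨by norm_num, by norm_num, by norm_num, by decide +kernel⟩

theorem good131 : Good 131 := ⟨by norm_num, by norm_num, by norm_num, by decide +kernel⟩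

theorem good139 : Good 139 := ⟨by norm_num, by norm_num, by norm_num, by decide +kernel⟩

theorem good151 : Good 151 := ⟨by norm_num, by norm_num, by norm_num, by decide +kernel⟩

theorem good163 : Good 163 := ⟨by norm_num, by norm_num, by norm_num, by decide +kernel⟩

end Pool.Agent.Y49x.Darc
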