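import Pool.Agent.Y49x.Darc.Good

/-!
The kernel computations for the primes 167, 179, 199, 223.
-/

set_option autoImplicit false
set_option maxRecDepth 100000

namespace Pool.Agent.Y49x.Darc

theorem good167 : Good 167 := ⟨by norm_num, by norm_num, by norm_num, by decide +kernel⟩

theorem good179 : Good 179 := ⟨by norm_num, by norm_num, by norm_num, by decide +kernel⟩

theorem good199 : Good 199 := ⟨by norm_num, by norm_num, by norm_num, by decide +kernel⟩

theorem good223 : Good 223 := ⟨by norm_num, by norm_num, by norm_num, by decide +kernel⟩

end Pool.Agent.Y49x.Darc
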