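import Pool.Agent.Y49x.Darc.Good

/-!
The kernel computations for the primes 347, 367.
-/

set_option autoImplicit false
set_option maxRecDepth 100000

namespace Pool.Agent.Y49x.Darc

theorem good347 : Good 347 := ⟨by norm_num, by norm_num, by norm_num, by decide +kernel⟩

theorem good367 : Good 367 := ⟨by norm_num, by norm_num, by norm_num, by decide +kernel⟩

end Pool.Agent.Y49x.Darc
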