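import Pool.Agent.Y49x.Darc.Crit
import Pool.Agent.Y49x.Darc.Mask
import Pool.Agent.Y49x.Darc.TabA
import Pool.Agent.Y49x.Darc.TabB
import Pool.Agent.Y49x.Darc.TabC
import Pool.Agent.Y49x.Darc.TabD
import Pool.Agent.Y49x.Darc.TabE
import Pool.Agent.Y49x.Darc.TabF

/-!
The list of the good primes.
-/

set_option autoImplicit false
set_option maxRecDepth 100000

namespace Pool.Agent.Y49x.Darc

open Pool.Agent.R326

/-- the good primes -/
def S : List ℕ := [
  3, 5, 11, 13, 17, 19, 29, 41, 43, 47, 53, 59, 61, 67, 71, 83, 97, 101, 103, 113, 127, 131,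
  139, 151, 163, 167, 179, 199, 223, 227, 251, 311, 331, 347, 367]

/-- the factors of the modulus -/
def T : List ℕ := [
  2, 9, 11, 19, 43, 47, 59, 67, 71, 83, 103, 127, 131, 139, 151, 163, 167, 179, 199, 223, 227,
  251, 311, 331, 347, 367]

theorem good_of_mem : ∀ p ∈ S, Good p := by
  unfold S
  refine List.forall_mem_cons.2 ⟨good3, ?_⟩
  refine List.forall_mem_cons.2 ⟨good5, ?_⟩
  refine List.forall_mem_cons.2 ⟨good11, ?_⟩
  refine List.forall_mem_cons.2 ⟨good13, ?_⟩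
  refine List.forall_mem_cons.2 ⟨good17, ?_⟩
  refine List.forall_mem_cons.2 ⟨good19, ?_⟩
  refine List.forall_mem_cons.2 ⟨good29, ?_⟩
  refine List.forall_mem_cons.2 ⟨good41, ?_⟩
  refine List.forall_mem_cons.2 ⟨good43, ?_⟩
  refine List.forall_mem_cons.2 ⟨good47, ?_⟩
  refine List.forall_mem_cons.2 ⟨good53, ?_⟩
  refine List.forall_mem_cons.2 ⟨good59, ?_⟩
  refine List.forall_mem_cons.2 ⟨good61, ?_⟩
  refine List.forall_mem_cons.2 ⟨good67, ?_⟩
  refine List.forall_mem_cons.2 ⟨good71, ?_⟩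
  refine List.forall_mem_cons.2 ⟨good83, ?_⟩
  refine List.forall_mem_cons.2 ⟨good97, ?_⟩
  refine List.forall_mem_cons.2 ⟨good101, ?_⟩
  refine List.forall_mem_cons.2 ⟨good103, ?_⟩
  refine List.forall_mem_cons.2 ⟨good113, ?_⟩
  refine List.forall_mem_cons.2 ⟨good127, ?_⟩
  refine List.forall_mem_cons.2 ⟨good131, ?_⟩
  refine List.forall_mem_cons.2 ⟨good139, ?_⟩
  refine List.forall_mem_cons.2 ⟨good151, ?_⟩
  refine List.forall_mem_cons.2 ⟨good163, ?_⟩
  refine List.forall_mem_cons.2 ⟨good167, ?_⟩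
  refine List.forall_mem_cons.2 ⟨good179, ?_⟩
  refine List.forall_mem_cons.2 ⟨good199, ?_⟩
  refine List.forall_mem_cons.2 ⟨good223, ?_⟩
  refine List.forall_mem_cons.2 ⟨good227, ?_⟩
  refine List.forall_mem_cons.2 ⟨good251, ?_⟩
  refine List.forall_mem_cons.2 ⟨good311, ?_⟩
  refine List.forall_mem_cons.2 ⟨good331, ?_⟩
  refine List.forall_mem_cons.2 ⟨good347, ?_⟩
  refine List.forall_mem_cons.2 ⟨good367, ?_⟩
  exact fun p hp => absurd hp List.not_mem_nil

theorem T_mem : ∀ p ∈ T, p = 2 ∨ p = 9 ∨ (p ∈ S ∧ p % 4 = 3) := by decide +kernel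

theorem T_coprime : T.Pairwise Nat.Coprime := by decide +kernel

theorem cov_S : cov (10 ^ 7) S = true := by decide +kernel

lemma prod_dvd {m : ℕ} (l : List ℕ) (h : l.Pairwise Nat.Coprime) (hl : ∀ a ∈ l, a ∣ m) :
    l.prod ∣ m := by
  induction l with
  | nil => simp
  | cons a l ih =>
    rw [List.pairwise_cons] at h
    rw [List.prod_cons]
    refine Nat.Coprime.mul_dvd_of_dvd_of_dvd ?_ (hl a (by simp))
      (ih h.2 fun b hb => hl b (by simp [hb]))
    exact Nat.coprime_list_prod_right_iff.2 h.1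

lemma sq_mod {m : ℕ} (h : ¬ (2 ∣ m ∧ 9 ∣ m)) : m ^ 2 % 4 = 1 ∨ m ^ 2 % 4 = 2 ∨ m ^ 2 % 3 = 1 ∨
    m ^ 2 % 27 = 9 := by
  rcases Nat.even_or_odd' m with ⟨a, ha | ha⟩
  · have h3 : m % 3 ≠ 0 ∨ m % 9 = 3 ∨ m % 9 = 6 := by omega
    rcases h3 with h3 | h3 | h3
    · right; right; left
      rw [pow_two, Nat.mul_mod]
      have h4 : m % 3 = 1 ∨ m % 3 = 2 := by omega
      rcases h4 with h4 | h4 <;> rw [h4]
    · right; right; right
      obtain ⟨b, hb⟩ : ∃ b, m = 9 * b + 3 := ⟨m / 9, by omega⟩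
      rw [hb, show (9 * b + 3) ^ 2 = 27 * (3 * b ^ 2 + 2 * b) + 9 by ring]
      omega
    · right; right; right
      obtain ⟨b, hb⟩ : ∃ b, m = 9 * b + 6 := ⟨m / 9, by omega⟩
      rw [hb, show (9 * b + 6) ^ 2 = 27 * (3 * b ^ 2 + 4 * b + 1) + 9 by ring]
      omega
  · left
    rw [ha, show (2 * a + 1) ^ 2 = 4 * (a ^ 2 + a) + 1 by ring]
    omega

/-- an integral zero on the imaginary axis is divisible by the modulus -/
theorem T_dvd {m n : ℕ} {x : ℂ} (hx : x ^ 2 = -((m ^ 2 : ℕ) : ℂ)) (h : av x n = 0) :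
    T.prod ∣ m := by
  apply prod_dvd T T_coprime
  have h18 : 2 ∣ m ∧ 9 ∣ m := by
    by_contra h1
    exact av_ne_zero (sq_mod h1) hx n h
  intro p hp
  rcases T_mem p hp with rfl | rfl | ⟨h1, h2⟩
  · exact h18.1
  · exact h18.2
  · exact (good_of_mem p h1).dvd h2 hx h

/-- the range of the sieve -/
theorem large {d n : ℕ} (hd : 0 < d) {x : ℂ} (hx : x ^ 2 = -(d : ℂ)) (h : av x n = 0) :
    10 ^ 7 < d := by
  by_contra h1
  have hpos : ∀ p ∈ S, 0 < p := fun p hp => (good_of_mem p hp).prime.pos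
  rcases cov_spec cov_S hpos d hd (not_lt.1 h1) with h2 | ⟨p, hp, h2⟩
  · exact av_ne_zero h2 hx n h
  · exact (good_of_mem p hp).ne h2 hx n h

end Pool.Agent.Y49x.Darc
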