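import Pool.Agent.Y49x.Darc.Frob
import Pool.Agent.Y49x.Darc.Size

/-!
The second moment of the additive function `∑ log p` over the primes `p ≡ 3` modulo `4`, `p > K`,
dividing `n (n - 1) ⋯ (n - W + 1)`.
-/

set_option autoImplicit false

namespace Pool.Agent.Y49x.Darc.Gen

open Finset Polynomial
open Pool.Agent.Erdos456.Mert (PP)

variable (W K : ℕ)

lemma count_le (M p : ℕ) : #{n ∈ range M | n % p < W} ≤ W * (M / p + 1) := by
  have h : #{n ∈ range M | n % p < W} ≤ #(range W ×ˢ range (M / p + 1)) := by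
    apply card_le_card_of_injOn (fun n => (n % p, n / p))
    · intro n hn
      rw [mem_coe, mem_filter, mem_range] at hn
      rw [mem_coe, mem_product, mem_range, mem_range]
      exact ⟨hn.2, Nat.lt_succ_of_le (Nat.div_le_div_right hn.1.le)⟩
    · intro a _ b _ hab
      simp only [Prod.mk.injEq] at hab
      rw [← Nat.div_add_mod a p, ← Nat.div_add_mod b p, hab.1, hab.2]
  rw [card_product, card_range, card_range] at h
  exact h

lemma count_ge (M p : ℕ) (hp : W ≤ p) : W * (M / p) ≤ #{n ∈ range M | n % p < W} := by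
  have h : #(range W ×ˢ range (M / p)) ≤ #{n ∈ range M | n % p < W} := by
    apply card_le_card_of_injOn (fun w => w.1 + p * w.2)
    · rintro ⟨r, j⟩ hw
      rw [mem_coe, mem_product, mem_range, mem_range] at hw
      rw [mem_coe, mem_filter, mem_range]
      simp only at hw ⊢
      have h1 : p * (j + 1) ≤ p * (M / p) := Nat.mul_le_mul_left _ hw.2
      have h2 : p * (M / p) ≤ M := Nat.mul_div_le M p
      rw [mul_add] at h1
      refine ⟨by omega, ?_⟩
      rw [Nat.add_mul_mod_self_left, Nat.mod_eq_of_lt (by omega)]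
      exact hw.1
    · rintro ⟨r, j⟩ hw ⟨r', j'⟩ hw' hab
      rw [mem_coe, mem_product, mem_range, mem_range] at hw hw'
      simp only at hw hw' hab
      have h1 := congrArg (fun z => z % p) hab
      simp only [Nat.add_mul_mod_self_left] at h1
      rw [Nat.mod_eq_of_lt (by omega), Nat.mod_eq_of_lt (by omega)] at h1
      subst h1
      have h2 : p * j = p * j' := by omega
      rw [Nat.eq_of_mul_eq_mul_left (by omega) h2]
  rw [card_product, card_range, card_range] at h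
  exact h

lemma count2_le (M p q : ℕ) (hpq : p.Coprime q) :
    #{n ∈ range M | n % p < W ∧ n % q < W} ≤ W * W * (M / (p * q) + 1) := by
  have h : #{n ∈ range M | n % p < W ∧ n % q < W} ≤
      #((range W ×ˢ range W) ×ˢ range (M / (p * q) + 1)) := by
    apply card_le_card_of_injOn (fun n => ((n % p, n % q), n / (p * q)))
    · intro n hn
      rw [mem_coe, mem_filter, mem_range] at hn
      rw [mem_coe, mem_product, mem_product, mem_range, mem_range, mem_range]
      exact ⟨hn.2, Nat.lt_succ_of_le (Nat.div_le_div_right hn.1.le)⟩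
    · intro a _ b _ hab
      simp only [Prod.mk.injEq] at hab
      have h1 : a ≡ b [MOD p * q] :=
        (Nat.modEq_and_modEq_iff_modEq_mul hpq).1 ⟨hab.1.1, hab.1.2⟩
      have h2 : a % (p * q) = b % (p * q) := h1
      rw [← Nat.div_add_mod a (p * q), ← Nat.div_add_mod b (p * q), hab.2, h2]
  rw [card_product, card_product, card_range, card_range] at h
  exact h

/-- the primes used -/
def Ps (k : ℕ) : Finset ℕ := {p ∈ PP (k ^ 2) | p % 4 = 3 ∧ K < p}

lemma mem_Ps {K k p : ℕ} (h : p ∈ Ps K k) : p.Prime ∧ p ≤ k ^ 2 ∧ p % 4 = 3 ∧ K < p := by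
  unfold Ps at h
  rw [mem_filter, mem_filter, mem_Icc] at h
  exact ⟨h.1.2, h.1.1.2, h.2.1, h.2.2⟩

/-- the sum of `log p / p` -/
noncomputable def As (k : ℕ) : ℝ := ∑ p ∈ Ps K k, Real.log p / p

/-- the sum of `log p` -/
noncomputable def Th (k : ℕ) : ℝ := ∑ p ∈ Ps K k, Real.log p

lemma Th_le (k : ℕ) : Th K k ≤ 2 * (k : ℝ) ^ 2 := by
  have h4 := Pool.Agent.Erdos456.Mert.theta_le (k ^ 2)
  push_cast at h4
  refine le_trans ?_ h4
  apply sum_le_sum_of_subset_of_nonneg (filter_subset _ _)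
  intro p _ _
  exact Real.log_natCast_nonneg p

lemma Th_nonneg (k : ℕ) : 0 ≤ Th K k := sum_nonneg fun p _ => Real.log_natCast_nonneg p

lemma As_nonneg (k : ℕ) : 0 ≤ As K k :=
  sum_nonneg fun p _ => div_nonneg (Real.log_natCast_nonneg p) (by positivity)

/-- the additive function -/
noncomputable def Xf (k n : ℕ) : ℝ := ∑ p ∈ Ps K k, if n % p < W then Real.log p else 0

variable {W K}

lemma S1_ge (hWK : W ≤ K) (k M : ℕ) :
    W * (M : ℝ) * As K k - W * Th K k ≤ ∑ n ∈ range M, Xf W K k n := by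
  unfold Xf As Th
  rw [sum_comm, mul_sum, mul_sum, ← sum_sub_distrib]
  apply sum_le_sum
  intro p hp
  obtain ⟨hpp, -, -, hp5⟩ := mem_Ps hp
  have hp0 : (0 : ℝ) < p := by exact_mod_cast hpp.pos
  rw [← sum_filter, sum_const, nsmul_eq_mul]
  have h1 := count_ge W M p (by omega)
  have h2 : (M : ℝ) < p * (((M / p : ℕ) : ℝ) + 1) := by
    have := Nat.lt_mul_div_succ M hpp.pos
    exact_mod_cast this
  have h3 : (M : ℝ) / p - 1 ≤ ((M / p : ℕ) : ℝ) := by
    have h4 : (M : ℝ) / p < ((M / p : ℕ) : ℝ) + 1 := by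
      rw [div_lt_iff₀ hp0]
      linarith
    linarith
  have h5 : W * ((M : ℝ) / p - 1) ≤ (#{n ∈ range M | n % p < W} : ℝ) := by
    have h6 : (W * ((M / p : ℕ) : ℝ)) ≤ (#{n ∈ range M | n % p < W} : ℝ) := by
      exact_mod_cast h1
    have h7 := mul_le_mul_of_nonneg_left h3 (show (0 : ℝ) ≤ W by positivity)
    linarith
  calc W * (M : ℝ) * (Real.log p / p) - W * Real.log p = W * ((M : ℝ) / p - 1) * Real.log p := by
        field_simp
    _ ≤ _ := mul_le_mul_of_nonneg_right h5 (Real.log_natCast_nonneg p)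

lemma S2_le (k M : ℕ) : ∑ n ∈ range M, Xf W K k n ^ 2 ≤
    (W : ℝ) ^ 2 * M * As K k ^ 2 + (W : ℝ) ^ 2 * Th K k ^ 2 +
    ∑ p ∈ Ps K k, W * ((M : ℝ) / p + 1) * Real.log p ^ 2 := by
  have h1 : ∑ n ∈ range M, Xf W K k n ^ 2 = ∑ p ∈ Ps K k, ∑ q ∈ Ps K k,
      (#{n ∈ range M | n % p < W ∧ n % q < W} : ℝ) * (Real.log p * Real.log q) := by
    unfold Xf
    simp only [sq, sum_mul_sum]
    rw [sum_comm]
    apply sum_congr rfl
    intro p _
    rw [sum_comm]
    apply sum_congr rfl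
    intro q _
    rw [← nsmul_eq_mul, ← sum_const, sum_filter]
    apply sum_congr rfl
    intro n _
    by_cases hp : n % p < W <;> by_cases hq : n % q < W <;> simp [hp, hq]
  have h2 : (W : ℝ) ^ 2 * M * As K k ^ 2 + (W : ℝ) ^ 2 * Th K k ^ 2 =
      ∑ p ∈ Ps K k, ∑ q ∈ Ps K k,
        ((W : ℝ) ^ 2 * ((M : ℝ) / (p * q) + 1)) * (Real.log p * Real.log q) := by
    unfold As Th
    rw [sq (∑ p ∈ Ps K k, Real.log p / p), sq (∑ p ∈ Ps K k, Real.log p), sum_mul_sum,
      sum_mul_sum, mul_sum, mul_sum, ← sum_add_distrib]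
    apply sum_congr rfl
    intro p _
    rw [mul_sum, mul_sum, ← sum_add_distrib]
    apply sum_congr rfl
    intro q _
    ring
  rw [h1, h2, ← sum_add_distrib]
  apply sum_le_sum
  intro p hp
  obtain ⟨hpp, -, -, hp5⟩ := mem_Ps hp
  have h3 : ∑ q ∈ Ps K k, (if q = p then W * ((M : ℝ) / p + 1) * Real.log p ^ 2 else 0) =
      W * ((M : ℝ) / p + 1) * Real.log p ^ 2 := by
    rw [sum_ite_eq' (Ps K k) p, if_pos hp]
  rw [← h3, ← sum_add_distrib]
  apply sum_le_sum
  intro q hq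
  obtain ⟨hqp, -, -, hq5⟩ := mem_Ps hq
  have hl1 := Real.log_natCast_nonneg p
  have hl2 := Real.log_natCast_nonneg q
  by_cases hqp' : q = p
  · subst hqp'
    rw [if_pos rfl]
    have h4 : (#{n ∈ range M | n % q < W ∧ n % q < W} : ℝ) ≤ W * ((M : ℝ) / q + 1) := by
      have h5 := count_le W M q
      have h6 : ((M / q : ℕ) : ℝ) ≤ (M : ℝ) / q := Nat.cast_div_le
      have h7 : (#{n ∈ range M | n % q < W} : ℝ) ≤ W * (((M / q : ℕ) : ℝ) + 1) := by
        exact_mod_cast h5
      simp only [and_self]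
      have h8 := mul_le_mul_of_nonneg_left h6 (show (0 : ℝ) ≤ W by positivity)
      linarith
    have h8 : 0 ≤ (W : ℝ) ^ 2 * ((M : ℝ) / (q * q) + 1) * (Real.log q * Real.log q) := by
      positivity
    have h9 := mul_le_mul_of_nonneg_right h4 (mul_nonneg hl1 hl1)
    have h10 : Real.log q ^ 2 = Real.log q * Real.log q := sq _
    rw [h10]
    linarith
  · rw [if_neg hqp', add_zero]
    apply mul_le_mul_of_nonneg_right _ (mul_nonneg hl1 hl2)
    have h5 := count2_le W M p q ((Nat.coprime_primes hpp hqp).2 (Ne.symm hqp'))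
    have h6 : ((M / (p * q) : ℕ) : ℝ) ≤ (M : ℝ) / ((p * q : ℕ) : ℝ) := Nat.cast_div_le
    push_cast at h6
    have h7 : (#{n ∈ range M | n % p < W ∧ n % q < W} : ℝ) ≤
        W * W * (((M / (p * q) : ℕ) : ℝ) + 1) := by
      exact_mod_cast h5
    have h8 := mul_le_mul_of_nonneg_left h6 (show (0 : ℝ) ≤ (W : ℝ) ^ 2 by positivity)
    have h9 : (W : ℝ) ^ 2 = W * W := sq _
    rw [h9] at h8 ⊢
    linarith

theorem moment (hWK : W ≤ K) {k M : ℕ} (hk : 1 ≤ k) (hM : k ^ 4 ≤ M) {m : ℝ} (hm : 0 ≤ m) :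
    ∑ n ∈ range M, (Xf W K k n - m) ^ 2 ≤ (M : ℝ) * ((m - W * As K k) ^ 2 +
      2 * W * Real.log k * As K k + 4 * W * m + 4 * W * Real.log k + 4 * W ^ 2) := by
  have hk0 : (1 : ℝ) ≤ k := by exact_mod_cast hk
  have hl : 0 ≤ Real.log k := Real.log_nonneg hk0
  have hMr : (k : ℝ) ^ 4 ≤ M := by exact_mod_cast hM
  have hk2 : (k : ℝ) ^ 2 ≤ M := (pow_le_pow_right₀ hk0 (by norm_num)).trans hMr
  have hW : (0 : ℝ) ≤ W := by positivity
  have h1 := S1_ge hWK k M
  have h2 := S2_le (W := W) (K := K) k M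
  have hA := As_nonneg K k
  have hT := Th_nonneg K k
  have hT2 := Th_le K k
  have h3 : ∑ n ∈ range M, (Xf W K k n - m) ^ 2 = ∑ n ∈ range M, Xf W K k n ^ 2 -
      2 * m * ∑ n ∈ range M, Xf W K k n + M * m ^ 2 := by
    rw [mul_sum, ← sum_sub_distrib]
    have : (M : ℝ) * m ^ 2 = ∑ n ∈ range M, m ^ 2 := by
      rw [sum_const, card_range, nsmul_eq_mul]
    rw [this, ← sum_add_distrib]
    apply sum_congr rfl
    intro n _
    ring
  have hlogp : ∀ p ∈ Ps K k, Real.log p ≤ 2 * Real.log k := by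
    intro p hp
    obtain ⟨hpp, hpk, -, -⟩ := mem_Ps hp
    have hp0 : (0 : ℝ) < p := by exact_mod_cast hpp.pos
    calc Real.log p ≤ Real.log ((k : ℝ) ^ 2) := Real.log_le_log hp0 (by exact_mod_cast hpk)
      _ = 2 * Real.log k := by rw [Real.log_pow]; norm_num
  have h4 : ∑ p ∈ Ps K k, W * ((M : ℝ) / p + 1) * Real.log p ^ 2 ≤
      2 * W * Real.log k * ((M : ℝ) * As K k + Th K k) := by
    have h5 : 2 * W * Real.log k * ((M : ℝ) * As K k + Th K k) =
        ∑ p ∈ Ps K k, W * ((M : ℝ) / p + 1) * (Real.log p * (2 * Real.log k)) := by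
      unfold As Th
      rw [mul_sum, ← sum_add_distrib, mul_sum]
      apply sum_congr rfl
      intro p _
      ring
    rw [h5]
    apply sum_le_sum
    intro p hp
    have h6 := hlogp p hp
    have h7 := Real.log_natCast_nonneg p
    rw [sq]
    apply mul_le_mul_of_nonneg_left (mul_le_mul_of_nonneg_left h6 h7) (by positivity)
  have hTM : Th K k ≤ 2 * M := by linarith
  have hT2M : Th K k ^ 2 ≤ 4 * M := by
    calc Th K k ^ 2 ≤ (2 * (k : ℝ) ^ 2) ^ 2 := pow_le_pow_left₀ hT hT2 2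
      _ = 4 * (k : ℝ) ^ 4 := by ring
      _ ≤ 4 * M := by linarith
  have h8 : W * (Real.log k * Th K k) ≤ W * (Real.log k * (2 * M)) :=
    mul_le_mul_of_nonneg_left (mul_le_mul_of_nonneg_left hTM hl) hW
  have h9 : W * (m * Th K k) ≤ W * (m * (2 * M)) :=
    mul_le_mul_of_nonneg_left (mul_le_mul_of_nonneg_left hTM hm) hW
  have h10 : 2 * m * (W * (M : ℝ) * As K k - W * Th K k) ≤ 2 * m * ∑ n ∈ range M, Xf W K k n :=
    mul_le_mul_of_nonneg_left h1 (by positivity)
  have h11 : (W : ℝ) ^ 2 * Th K k ^ 2 ≤ (W : ℝ) ^ 2 * (4 * M) :=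
    mul_le_mul_of_nonneg_left hT2M (by positivity)
  rw [h3]
  linarith

end Pool.Agent.Y49x.Darc.Gen
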