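import Pool.Agent.Y49x.Darc.Cert
import Pool.Agent.Y49x.Darc.FinalW

/-!
For at least `95 %` of the `n` the `n`-th D'Arcais polynomial has no zero `i t` with `t ≠ 0` an
integer.
-/

set_option autoImplicit false
set_option linter.all false

namespace Pool.Agent.Y49x.Darc.Gen

open Finset Pool.Agent.R326

theorem nz_all : NZ 50 98567927587868060297660681107868082820338655238322546464486021893203600738257178504461094137434486894610019905647949715550767680089600327527975793141357498075651291373233726277273285603698342827965529375998960938084546218029843695606582391043114110563776528528034686697027242316007615999266354672739856714156574063317680907470461385674416841080951606016103706536523376373787986668916793683158802107913165262153843060892960133840706378593398106767822972820317469978970110285340328246386318549990278920310682841101106989048601660214432897661262682133803876314919116599211742144833658949547464392814479100409461248908721404403486846486768132183120012830092202840501959225354924311474190886473701066988356584771945304673907074910017545221075162001067358220667004871086070695518703773045360063090484531389652826755406373610457766297600000000000000000000000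 := by
  intro F _ p hp hK hF x e hx hx0 hc s hs h
  have hs' : s = 0 ∨ s = 1 ∨ s = 2 ∨ s = 3 ∨ s = 4 ∨ s = 5 ∨ s = 6 ∨ s = 7 ∨ s = 8 ∨ s = 9 ∨ s = 10 ∨ s = 11 ∨ s = 12 ∨ s = 13 ∨ s = 14 ∨ s = 15 ∨ s = 16 ∨ s = 17 ∨ s = 18 ∨ s = 19 ∨ s = 20 ∨ s = 21 ∨ s = 22 ∨ s = 23 ∨ s = 24 ∨ s = 25 ∨ s = 26 ∨ s = 27 ∨ s = 28 ∨ s = 29 ∨ s = 30 ∨ s = 31 ∨ s = 32 ∨ s = 33 ∨ s = 34 ∨ s = 35 ∨ s = 36 ∨ s = 37 ∨ s = 38 ∨ s = 39 ∨ s = 40 ∨ s = 41 ∨ s = 42 ∨ s = 43 ∨ s = 44 ∨ s = 45 ∨ s = 46 ∨ s = 47 ∨ s = 48 ∨ s = 49 := by omega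
  rcases hs' with rfl | rfl | rfl | rfl | rfl | rfl | rfl | rfl | rfl | rfl | rfl | rfl | rfl | rfl | rfl | rfl | rfl | rfl | rfl | rfl | rfl | rfl | rfl | rfl | rfl | rfl | rfl | rfl | rfl | rfl | rfl | rfl | rfl | rfl | rfl | rfl | rfl | rfl | rfl | rfl | rfl | rfl | rfl | rfl | rfl | rfl | rfl | rfl | rfl | rfl
  · rw [p0] at h
    exact one_ne_zero h
  · exact not_zero hp hF (by decide +kernel) (lt_of_le_of_lt (by decide +kernel) hK) (nz1 hx hx0 hc h)
  · exact not_zero hp hF (by decide +kernel) (lt_of_le_of_lt (by decide +kernel) hK) (nz2 hx hx0 hc h)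
  · exact not_zero hp hF (by decide +kernel) (lt_of_le_of_lt (by decide +kernel) hK) (nz3 hx hx0 hc h)
  · exact not_zero hp hF (by decide +kernel) (lt_of_le_of_lt (by decide +kernel) hK) (nz4 hx hx0 hc h)
  · exact not_zero hp hF (by decide +kernel) (lt_of_le_of_lt (by decide +kernel) hK) (nz5 hx hx0 hc h)
  · exact not_zero hp hF (by decide +kernel) (lt_of_le_of_lt (by decide +kernel) hK) (nz6 hx hx0 hc h)
  · exact not_zero hp hF (by decide +kernel) (lt_of_le_of_lt (by decide +kernel) hK) (nz7 hx hx0 hc h)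
  · exact not_zero hp hF (by decide +kernel) (lt_of_le_of_lt (by decide +kernel) hK) (nz8 hx hx0 hc h)
  · exact not_zero hp hF (by decide +kernel) (lt_of_le_of_lt (by decide +kernel) hK) (nz9 hx hx0 hc h)
  · exact not_zero hp hF (by decide +kernel) (lt_of_le_of_lt (by decide +kernel) hK) (nz10 hx hx0 hc h)
  · exact not_zero hp hF (by decide +kernel) (lt_of_le_of_lt (by decide +kernel) hK) (nz11 hx hx0 hc h)
  · exact not_zero hp hF (by decide +kernel) (lt_of_le_of_lt (by decide +kernel) hK) (nz12 hx hx0 hc h)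
  · exact not_zero hp hF (by decide +kernel) (lt_of_le_of_lt (by decide +kernel) hK) (nz13 hx hx0 hc h)
  · exact not_zero hp hF (by decide +kernel) (lt_of_le_of_lt (by decide +kernel) hK) (nz14 hx hx0 hc h)
  · exact not_zero hp hF (by decide +kernel) (lt_of_le_of_lt (by decide +kernel) hK) (nz15 hx hx0 hc h)
  · exact not_zero hp hF (by decide +kernel) (lt_of_le_of_lt (by decide +kernel) hK) (nz16 hx hx0 hc h)
  · exact not_zero hp hF (by decide +kernel) (lt_of_le_of_lt (by decide +kernel) hK) (nz17 hx hx0 hc h)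
  · exact not_zero hp hF (by decide +kernel) (lt_of_le_of_lt (by decide +kernel) hK) (nz18 hx hx0 hc h)
  · exact not_zero hp hF (by decide +kernel) (lt_of_le_of_lt (by decide +kernel) hK) (nz19 hx hx0 hc h)
  · exact not_zero hp hF (by decide +kernel) (lt_of_le_of_lt (by decide +kernel) hK) (nz20 hx hx0 hc h)
  · exact not_zero hp hF (by decide +kernel) (lt_of_le_of_lt (by decide +kernel) hK) (nz21 hx hx0 hc h)
  · exact not_zero hp hF (by decide +kernel) (lt_of_le_of_lt (by decide +kernel) hK) (nz22 hx hx0 hc h)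
  · exact not_zero hp hF (by decide +kernel) (lt_of_le_of_lt (by decide +kernel) hK) (nz23 hx hx0 hc h)
  · exact not_zero hp hF (by decide +kernel) (lt_of_le_of_lt (by decide +kernel) hK) (nz24 hx hx0 hc h)
  · exact not_zero hp hF (by decide +kernel) (lt_of_le_of_lt (by decide +kernel) hK) (nz25 hx hx0 hc h)
  · exact not_zero hp hF (by decide +kernel) (lt_of_le_of_lt (by decide +kernel) hK) (nz26 hx hx0 hc h)
  · exact not_zero hp hF (by decide +kernel) (lt_of_le_of_lt (by decide +kernel) hK) (nz27 hx hx0 hc h)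
  · exact not_zero hp hF (by decide +kernel) (lt_of_le_of_lt (by decide +kernel) hK) (nz28 hx hx0 hc h)
  · exact not_zero hp hF (by decide +kernel) (lt_of_le_of_lt (by decide +kernel) hK) (nz29 hx hx0 hc h)
  · exact not_zero hp hF (by decide +kernel) (lt_of_le_of_lt (by decide +kernel) hK) (nz30 hx hx0 hc h)
  · exact not_zero hp hF (by decide +kernel) (lt_of_le_of_lt (by decide +kernel) hK) (nz31 hx hx0 hc h)
  · exact not_zero hp hF (by decide +kernel) (lt_of_le_of_lt (by decide +kernel) hK) (nz32 hx hx0 hc h)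
  · exact not_zero hp hF (by decide +kernel) (lt_of_le_of_lt (by decide +kernel) hK) (nz33 hx hx0 hc h)
  · exact not_zero hp hF (by decide +kernel) (lt_of_le_of_lt (by decide +kernel) hK) (nz34 hx hx0 hc h)
  · exact not_zero hp hF (by decide +kernel) (lt_of_le_of_lt (by decide +kernel) hK) (nz35 hx hx0 hc h)
  · exact not_zero hp hF (by decide +kernel) (lt_of_le_of_lt (by decide +kernel) hK) (nz36 hx hx0 hc h)
  · exact not_zero hp hF (by decide +kernel) (lt_of_le_of_lt (by decide +kernel) hK) (nz37 hx hx0 hc h)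
  · exact not_zero hp hF (by decide +kernel) (lt_of_le_of_lt (by decide +kernel) hK) (nz38 hx hx0 hc h)
  · exact not_zero hp hF (by decide +kernel) (lt_of_le_of_lt (by decide +kernel) hK) (nz39 hx hx0 hc h)
  · exact not_zero hp hF (by decide +kernel) (lt_of_le_of_lt (by decide +kernel) hK) (nz40 hx hx0 hc h)
  · exact not_zero hp hF (by decide +kernel) (lt_of_le_of_lt (by decide +kernel) hK) (nz41 hx hx0 hc h)
  · exact not_zero hp hF (by decide +kernel) (lt_of_le_of_lt (by decide +kernel) hK) (nz42 hx hx0 hc h)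
  · exact not_zero hp hF (by decide +kernel) (lt_of_le_of_lt (by decide +kernel) hK) (nz43 hx hx0 hc h)
  · exact not_zero hp hF (by decide +kernel) (lt_of_le_of_lt (by decide +kernel) hK) (nz44 hx hx0 hc h)
  · exact not_zero hp hF (by decide +kernel) (lt_of_le_of_lt (by decide +kernel) hK) (nz45 hx hx0 hc h)
  · exact not_zero hp hF (by decide +kernel) (lt_of_le_of_lt (by decide +kernel) hK) (nz46 hx hx0 hc h)
  · exact not_zero hp hF (by decide +kernel) (lt_of_le_of_lt (by decide +kernel) hK) (nz47 hx hx0 hc h)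
  · exact not_zero hp hF (by decide +kernel) (lt_of_le_of_lt (by decide +kernel) hK) (nz48 hx hx0 hc h)
  · exact not_zero hp hF (by decide +kernel) (lt_of_le_of_lt (by decide +kernel) hK) (nz49 hx hx0 hc h)

theorem final : ∃ M0 : ℕ, ∀ M : ℕ, M0 ≤ M → (1 - 1 / 20 : ℝ) * M ≤
    Nat.card {n : ℕ | n < M ∧ ∀ t : ℤ, t ≠ 0 → av (Complex.I * (t : ℂ)) n ≠ 0} :=
  proportion nz_all (by decide +kernel) (by decide +kernel) (1 / 20) ineq50

end Pool.Agent.Y49x.Darc.Gen
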