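import Pool.Agent.R326.DArcais6
import Pool.Agent.Y49x.Darc.Comp

/-!
The D'Arcais polynomials in characteristic `p`: periodicity and the packed computation.
-/

set_option autoImplicit false

namespace Pool.Agent.Y49x.Darc

open Finset Pool.Agent.R326

section char

variable {F : Type*} [Field F]

lemma cast_desc (p : ℕ) (hp : (p : F) = 0) (N s k : ℕ) (hk : k ≤ s) :
    ((p * N + s).descFactorial k : F) = (s.descFactorial k : F) := by
  induction k with
  | zero => simp
  | succ k ih =>
    rw [Nat.descFactorial_succ, Nat.descFactorial_succ, Nat.cast_mul, Nat.cast_mul,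
      ih (by omega), show p * N + s - k = p * N + (s - k) by omega, Nat.cast_add, Nat.cast_mul,
      hp]
    ring

lemma cast_desc_zero (p : ℕ) (hp : (p : F) = 0) (N s j : ℕ) :
    ((p * N + s).descFactorial (s + 1 + j) : F) = 0 := by
  induction j with
  | zero =>
    rw [add_zero, Nat.descFactorial_succ, show p * N + s - s = p * N by omega, Nat.cast_mul,
      Nat.cast_mul, hp]
    ring
  | succ j ih =>
    rw [← add_assoc, Nat.descFactorial_succ, Nat.cast_mul, ih, mul_zero]

lemma av_period (p : ℕ) (hp : (p : F) = 0) (x : F) (N s : ℕ) (hs : s ≤ p) :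
    av x (p * N + s) = av x (p * N) * av x s := by
  induction s using Nat.strong_induction_on with
  | _ s ih =>
    cases s with
    | zero => simp [av_zero]
    | succ s =>
      rw [← add_assoc, av_succ, av_succ]
      have h1 : ∑ k ∈ range (p * N + s + 1), (ArithmeticFunction.sigma 1 (k + 1) : F) *
          ((p * N + s).descFactorial k : F) * av x (p * N + s - k) =
          ∑ k ∈ range (s + 1), (ArithmeticFunction.sigma 1 (k + 1) : F) *
          ((p * N + s).descFactorial k : F) * av x (p * N + s - k) := by
        symm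
        apply sum_subset
        · intro k hk
          rw [mem_range] at *
          omega
        · intro k _ hk
          rw [mem_range, not_lt] at hk
          obtain ⟨j, rfl⟩ : ∃ j, k = s + 1 + j := ⟨k - (s + 1), by omega⟩
          rw [cast_desc_zero p hp N s j]
          ring
      have h2 : ∀ k ∈ range (s + 1), (ArithmeticFunction.sigma 1 (k + 1) : F) *
          ((p * N + s).descFactorial k : F) * av x (p * N + s - k) =
          av x (p * N) * ((ArithmeticFunction.sigma 1 (k + 1) : F) *
            (s.descFactorial k : F) * av x (s - k)) := by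
        intro k hk
        rw [mem_range] at hk
        rw [cast_desc p hp N s k (by omega), show p * N + s - k = p * N + (s - k) by omega,
          ih (s - k) (by omega) (by omega)]
        ring
      rw [h1, sum_congr rfl h2, ← mul_sum]
      ring

lemma av_ne (p : ℕ) (hp : (p : F) = 0) (hp1 : 1 ≤ p) (x : F)
    (h : ∀ s, s < p → av x (s + 1) ≠ 0) (n : ℕ) : av x n ≠ 0 := by
  have hN : ∀ N, av x (p * N) ≠ 0 := by
    intro N
    induction N with
    | zero => simp [av_zero]
    | succ N ih =>
      rw [Nat.mul_succ, av_period p hp x N p le_rfl]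
      have := h (p - 1) (by omega)
      rw [Nat.sub_add_cancel hp1] at this
      exact mul_ne_zero ih this
  rw [← Nat.div_add_mod n p, av_period p hp x _ _ (Nat.mod_lt n (by omega)).le]
  refine mul_ne_zero (hN _) ?_
  have hlt := Nat.mod_lt n (show 0 < p by omega)
  rcases Nat.eq_zero_or_pos (n % p) with h0 | h0
  · rw [h0, av_zero]; exact one_ne_zero
  · have := h (n % p - 1) (by omega)
    rwa [Nat.sub_add_cancel h0] at this

lemma desc_mul_fact (n k : ℕ) (hk : k ≤ n) :
    (n.descFactorial k : F) * ((n - k).factorial : F) = (n.factorial : F) := by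
  rw [← Nat.factorial_mul_descFactorial hk, Nat.cast_mul]
  ring

lemma av_eq (p : ℕ) (x : F) (q : ℕ → F) (h0 : q 0 = 1)
    (hq : ∀ n, n + 1 < p → ((n + 1 : ℕ) : F) * q (n + 1) =
      x * ∑ k ∈ range (n + 1), (ArithmeticFunction.sigma 1 (k + 1) : F) * q (n - k))
    (n : ℕ) (hn : n < p) : av x n = (n.factorial : F) * q n := by
  induction n using Nat.strong_induction_on with
  | _ n ih =>
    cases n with
    | zero => simp [av_zero, h0]
    | succ n =>
      rw [av_succ]
      have h2 : ∀ k ∈ range (n + 1), (ArithmeticFunction.sigma 1 (k + 1) : F) *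
          (n.descFactorial k : F) * av x (n - k) =
          (n.factorial : F) * ((ArithmeticFunction.sigma 1 (k + 1) : F) * q (n - k)) := by
        intro k hk
        rw [mem_range] at hk
        rw [ih (n - k) (by omega) (by omega), ← desc_mul_fact n k (by omega)]
        ring
      rw [sum_congr rfl h2, ← mul_sum, Nat.factorial_succ, Nat.cast_mul]
      have := hq n hn
      linear_combination (-(n.factorial : F)) * this

lemma av_succ_eq (p : ℕ) (x : F) (q : ℕ → F) (h0 : q 0 = 1)
    (hq : ∀ n, n + 1 < p → ((n + 1 : ℕ) : F) * q (n + 1) =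
      x * ∑ k ∈ range (n + 1), (ArithmeticFunction.sigma 1 (k + 1) : F) * q (n - k))
    (n : ℕ) (hn : n < p) : av x (n + 1) = (n.factorial : F) *
      (x * ∑ k ∈ range (n + 1), (ArithmeticFunction.sigma 1 (k + 1) : F) * q (n - k)) := by
  rw [av_succ]
  have h2 : ∀ k ∈ range (n + 1), (ArithmeticFunction.sigma 1 (k + 1) : F) *
      (n.descFactorial k : F) * av x (n - k) =
      (n.factorial : F) * ((ArithmeticFunction.sigma 1 (k + 1) : F) * q (n - k)) := by
    intro k hk
    rw [mem_range] at hk
    rw [av_eq p x q h0 hq (n - k) (by omega), ← desc_mul_fact n k (by omega)]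
    ring
  rw [sum_congr rfl h2, ← mul_sum]
  ring

end char

/-! ### The computation -/

lemma sgAux_eq (m d : ℕ) : sgAux m d = ∑ i ∈ range d, if i + 1 ∣ m then i + 1 else 0 := by
  induction d with
  | zero => rfl
  | succ d ih =>
    rw [sum_range_succ, ← ih, sgAux, add_comm]
    congr 1
    by_cases h : m % (d + 1) = 0
    · rw [if_pos h, if_pos (Nat.dvd_of_mod_eq_zero h)]
    · rw [if_neg h, if_neg (fun h' => h (Nat.mod_eq_zero_of_dvd h'))]

lemma sgAux_self (m : ℕ) : sgAux m m = ArithmeticFunction.sigma 1 m := by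
  rw [sgAux_eq, ArithmeticFunction.sigma_one_apply, Nat.divisors, sum_filter]
  rw [range_eq_Ico, sum_Ico_add' (fun i => if i ∣ m then i else 0) 0 m 1]

/-- the packed tails -/
def tl (p m : ℕ) : ℕ := pk p (p - m) m

lemma tl_eq (p m : ℕ) (h : m < p) : tl p m = sg p m + 2 ^ 64 * tl p (m + 1) := by
  unfold tl
  rw [show p - m = (p - (m + 1)) + 1 by omega, pk]

/-- the states of the loop -/
def st (p e : ℕ) : ℕ → ℕ × ℕ
  | 0 => (0, 1)
  | n + 1 =>
    let T := (st p e n).1 + (st p e n).2 * pk p p 0
    (T / 2 ^ 64, e * (T % 2 ^ 64 / 2 ^ 32 % p) * ((n + 1) ^ (p - 2) % p) % p +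
      2 ^ 32 * ((T % 2 ^ 64 % 2 ^ 32 % p) * ((n + 1) ^ (p - 2) % p) % p))

/-- the current value of the convolution -/
def cc (p e n : ℕ) : ℕ := ((st p e n).1 + (st p e n).2 * pk p p 0) % 2 ^ 64

lemma loop_true (p e f n : ℕ) (h : loop p e (pk p p 0) f n (st p e n).1 (st p e n).2 = true)
    (m : ℕ) (h1 : n ≤ m) (h2 : m < n + f) :
    ¬ (cc p e m % 2 ^ 32 % p = 0 ∧ cc p e m / 2 ^ 32 % p = 0) := by
  induction f generalizing n with
  | zero => omega
  | succ f ih =>
    rw [loop] at h
    simp only [Bool.and_eq_true] at h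
    obtain ⟨ha, hb⟩ := h
    rcases Nat.eq_or_lt_of_le h1 with h3 | h3
    · subst h3
      intro hc
      unfold cc at hc
      rw [hc.1, hc.2] at ha
      exact absurd ha (by decide)
    · exact ih (n + 1) hb h3 (by omega)

end Pool.Agent.Y49x.Darc
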