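import Pool.Agent.Y49x.Darc.MomentW

/-!
If `P_n (i t) = 0` with `t ≠ 0` an integer and a large prime `p ≡ 3` modulo `4` divides one of
`n, n - 1, …, n - W + 1`, then `p` divides `t`.
-/

set_option autoImplicit false

namespace Pool.Agent.Y49x.Darc.Gen

open Finset Polynomial Pool.Agent.R326
open Pool.Agent.Erdos456.Mert (PP)

lemma not_zero {F : Type*} [Field F] {p : ℕ} (hp : p.Prime) (hF : (p : F) = 0) {r : ℤ}
    (hr0 : r ≠ 0) (hr : r.natAbs < p) : (r : F) ≠ 0 := by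
  have : CharP F p := (CharP.charP_iff_prime_eq_zero hp).2 hF
  intro h
  rw [CharP.intCast_eq_zero_iff F p] at h
  have h1 := Nat.le_of_dvd (Int.natAbs_pos.2 hr0) (Int.natCast_dvd.1 h)
  omega

lemma av_p_field {F : Type*} [Field F] {p : ℕ} (hp : p.Prime) (hF : (p : F) = 0) (x : F) :
    av x p = x ^ p - x := by
  have : Fact p.Prime := ⟨hp⟩
  have : CharP F p := (CharP.charP_iff_prime_eq_zero hp).2 hF
  have h1 := avX_p p
  have h2 := av_map (mapRingHom (Int.castRingHom (ZMod p))) X p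
  rw [coe_mapRingHom, map_X] at h2
  rw [h2] at h1
  have h3 := congrArg (eval₂RingHom (ZMod.castHom (dvd_refl p) F) x) h1
  rw [av_map, map_sub, map_pow, coe_eval₂RingHom, eval₂_X] at h3
  exact h3

/-- combinations of `1` and a square root of `-t²` -/
lemma comb_int {F : Type*} [Field F] {p : ℕ} (hp : p.Prime) (hp2 : 2 < p) (hF : (p : F) = 0)
    {x : F} (hx0 : x ≠ 0) (hxp : x ^ p = -x) (u v : ℤ) (h : (u : F) + (v : F) * x = 0) :
    (u : F) = 0 ∧ (v : F) = 0 := by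
  have : Fact p.Prime := ⟨hp⟩
  have : CharP F p := (CharP.charP_iff_prime_eq_zero hp).2 hF
  have hint : ∀ w : ℤ, (w : F) ^ p = (w : F) := by
    intro w
    have h1 := congrArg (ZMod.castHom (dvd_refl p) F) (ZMod.pow_card (w : ZMod p))
    rwa [map_pow, map_intCast] at h1
  have h2 : (u : F) - (v : F) * x = 0 := by
    have h3 : ((u : F) + (v : F) * x) ^ p = 0 := by rw [h, zero_pow hp.ne_zero]
    rw [add_pow_char, mul_pow, hint, hint, hxp] at h3
    linear_combination h3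
  have h4 : ((2 : ℤ) : F) ≠ 0 := not_zero hp hF (by norm_num) (by simpa using hp2)
  push_cast at h4
  constructor
  · have h5 : (2 : F) * (u : F) = 0 := by linear_combination h + h2
    exact (mul_eq_zero.1 h5).resolve_left h4
  · have h5 : (2 : F) * ((v : F) * x) = 0 := by linear_combination h - h2
    exact (mul_eq_zero.1 ((mul_eq_zero.1 h5).resolve_left h4)).resolve_right hx0

/-- the property of `W` and `K` -/
def NZ (W K : ℕ) : Prop := ∀ (F : Type) [Field F] (p : ℕ) (_ : p.Prime) (_ : K < p)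
  (_ : (p : F) = 0) (x : F) (e : ℤ) (_ : x ^ 2 = (e : F)) (_ : x ≠ 0)
  (_ : ∀ u v : ℤ, (u : F) + (v : F) * x = 0 → (u : F) = 0 ∧ (v : F) = 0) (s : ℕ) (_ : s < W),
  av x s ≠ 0

theorem t_dvd {W K p n : ℕ} {t : ℤ} (hNZ : NZ W K) (_hWK : W ≤ K) (_hK : 2 < K) (hp : p.Prime)
    (h4 : p % 4 = 3) (hKp : K < p) (h : av (Complex.I * (t : ℂ)) n = 0) (hn : n % p < W) :
    (p : ℤ) ∣ t := by
  by_contra htp
  have hxi := av_integral h
  obtain ⟨𝔪, h𝔪, hpm⟩ := exists_max p hp.one_lt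
  let : Field (integralClosure ℤ ℂ ⧸ 𝔪) := Ideal.Quotient.field 𝔪
  have : Fact p.Prime := ⟨hp⟩
  set Y : integralClosure ℤ ℂ := ⟨Complex.I * (t : ℂ), hxi⟩ with hY
  have hYx : algebraMap (integralClosure ℤ ℂ) ℂ Y = Complex.I * (t : ℂ) := rfl
  have hY2 : Y ^ 2 = ((-t ^ 2 : ℤ) : integralClosure ℤ ℂ) := by
    apply Subtype.ext
    have h1 : (Complex.I * (t : ℂ)) ^ 2 = ((-t ^ 2 : ℤ) : ℂ) := by
      rw [mul_pow, Complex.I_sq]; push_cast; ring
    simpa [hY] using h1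
  set ψ := Ideal.Quotient.mk 𝔪 with hψ
  have hF : (p : integralClosure ℤ ℂ ⧸ 𝔪) = 0 := by
    have := Ideal.Quotient.eq_zero_iff_mem.2 hpm
    rwa [map_natCast] at this
  have : CharP (integralClosure ℤ ℂ ⧸ 𝔪) p := (CharP.charP_iff_prime_eq_zero hp).2 hF
  have ht0 : (t : integralClosure ℤ ℂ ⧸ 𝔪) ≠ 0 := by
    rwa [Ne, CharP.intCast_eq_zero_iff (integralClosure ℤ ℂ ⧸ 𝔪) p]
  have hx2 : (ψ Y) ^ 2 = ((-t ^ 2 : ℤ) : integralClosure ℤ ℂ ⧸ 𝔪) := by
    rw [← map_pow, hY2, map_intCast]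
  have hx0 : ψ Y ≠ 0 := by
    intro h0
    rw [h0] at hx2
    push_cast at hx2
    exact ht0 (pow_eq_zero_iff (n := 2) (by norm_num) |>.1 (by linear_combination hx2))
  have htf : (t : integralClosure ℤ ℂ ⧸ 𝔪) ^ (p - 1) = 1 := by
    have h1 : (t : ZMod p) ≠ 0 := by
      rwa [Ne, ZMod.intCast_zmod_eq_zero_iff_dvd]
    have h2 := congrArg (ZMod.castHom (dvd_refl p) (integralClosure ℤ ℂ ⧸ 𝔪))
      (ZMod.pow_card_sub_one_eq_one h1)
    rwa [map_pow, map_intCast, map_one] at h2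
  have hxp : (ψ Y) ^ p = -(ψ Y) := by
    obtain ⟨j, hj⟩ : ∃ j, p = 2 * (2 * j + 1) + 1 := ⟨p / 4, by omega⟩
    have h1 : (ψ Y) ^ p = ((ψ Y) ^ 2) ^ (2 * j + 1) * ψ Y := by
      rw [← pow_mul, ← pow_succ, ← hj]
    rw [h1, hx2]
    push_cast
    rw [neg_pow, ← pow_mul, show 2 * (2 * j + 1) = p - 1 by omega, htf,
      Odd.neg_one_pow ⟨j, rfl⟩]
    ring
  have h2ne : ((2 : ℤ) : integralClosure ℤ ℂ ⧸ 𝔪) ≠ 0 :=
    not_zero hp hF (by norm_num) (by simp; omega)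
  push_cast at h2ne
  have hs := hNZ (integralClosure ℤ ℂ ⧸ 𝔪) p hp hKp hF (ψ Y) (-t ^ 2) hx2 hx0
    (comb_int hp (by omega) hF hx0 hxp) (n % p) hn
  have hv : av (ψ Y) n ≠ 0 := by
    rw [← Nat.div_add_mod n p, av_period p hF _ _ _ (Nat.mod_lt n hp.pos).le, av_mul' p hF,
      av_p_field hp hF, hxp]
    refine mul_ne_zero (pow_ne_zero _ ?_) hs
    intro h0
    have h1 : (2 : integralClosure ℤ ℂ ⧸ 𝔪) * ψ Y = 0 := by linear_combination -h0
    exact hx0 ((mul_eq_zero.1 h1).resolve_left h2ne)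
  apply hv
  rw [← av_map]
  rw [← hYx, ← av_map] at h
  have h3 : av Y n = 0 :=
    (FaithfulSMul.algebraMap_injective (integralClosure ℤ ℂ) ℂ) (by rw [h, map_zero])
  rw [h3, map_zero]

end Pool.Agent.Y49x.Darc.Gen
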