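import Pool.Agent.Erdos456.Mertens

/-!
The primes modulo which a polynomial without rational roots does not split into distinct linear
factors: an elementary lower bound.
-/

set_option autoImplicit false

namespace Pool.Agent.Y49x.Darc

open Finset Polynomial
open Pool.Agent.Erdos456.Mert (PP)

/-- homogenization -/
def hom (f : ℤ[X]) (a b : ℤ) : ℤ :=
  ∑ i ∈ range (f.natDegree + 1), f.coeff i * a ^ i * b ^ (f.natDegree - i)

/-- the size of the coefficients -/
def csize (f : ℤ[X]) : ℤ := ∑ i ∈ range (f.natDegree + 1), |f.coeff i|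

lemma hom_le (f : ℤ[X]) (N : ℤ) {a b : ℤ} (ha : |a| ≤ N) (hb : |b| ≤ N) :
    |hom f a b| ≤ csize f * N ^ f.natDegree := by
  unfold hom csize
  refine (abs_sum_le_sum_abs _ _).trans ?_
  rw [sum_mul]
  apply sum_le_sum
  intro i hi
  rw [mem_range] at hi
  rw [abs_mul, abs_mul, abs_pow, abs_pow, mul_assoc]
  apply mul_le_mul_of_nonneg_left _ (abs_nonneg _)
  calc |a| ^ i * |b| ^ (f.natDegree - i) ≤ N ^ i * N ^ (f.natDegree - i) := by
        apply mul_le_mul (pow_le_pow_left₀ (abs_nonneg _) ha _)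
          (pow_le_pow_left₀ (abs_nonneg _) hb _) (by positivity)
          (pow_nonneg ((abs_nonneg _).trans ha) _)
    _ = N ^ f.natDegree := by rw [← pow_add]; congr 1; omega

lemma hom_ne {f : ℤ[X]} (hf : f.Monic) (hr : ∀ r : ℚ, aeval r f ≠ 0) {a b : ℤ}
    (h : ¬ (a = 0 ∧ b = 0)) : hom f a b ≠ 0 := by
  by_cases hb : b = 0
  · subst hb
    have ha : a ≠ 0 := fun h0 => h ⟨h0, rfl⟩
    unfold hom
    rw [sum_range_succ, sum_eq_zero, zero_add, Nat.sub_self, pow_zero, mul_one]
    · rw [show f.coeff f.natDegree = 1 from hf, one_mul]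
      exact pow_ne_zero _ ha
    · intro i hi
      rw [mem_range] at hi
      rw [zero_pow (by omega), mul_zero]
  · intro h0
    have hbq : (b : ℚ) ≠ 0 := by exact_mod_cast hb
    apply hr ((a : ℚ) / b)
    rw [aeval_eq_sum_range]
    have h1 : (b : ℚ) ^ f.natDegree * ∑ i ∈ range (f.natDegree + 1),
        f.coeff i • ((a : ℚ) / b) ^ i = (hom f a b : ℚ) := by
      unfold hom
      rw [mul_sum]
      push_cast
      apply sum_congr rfl
      intro i hi
      rw [mem_range] at hi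
      have h2 : (b : ℚ) ^ f.natDegree = b ^ i * b ^ (f.natDegree - i) := by
        rw [← pow_add]; congr 1; omega
      rw [h2, zsmul_eq_mul, div_pow]
      field_simp
    rw [h0, Int.cast_zero] at h1
    exact (mul_eq_zero.1 h1).resolve_left (pow_ne_zero _ hbq)

lemma hom_dvd {f : ℤ[X]} {p : ℕ} [Fact p.Prime] (a b : ℤ) (s : Finset (ZMod p))
    (hs : s.card ≤ f.natDegree)
    (hroot : ∀ r ∈ s, (f.map (Int.castRingHom (ZMod p))).IsRoot r) :
    (p : ℤ) ^ (#{r ∈ s | (a : ZMod p) = b * r}) ∣ hom f a b := by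
  rcases Nat.lt_or_ge 1 (#{r ∈ s | (a : ZMod p) = b * r}) with h1 | h1
  · obtain ⟨r, hr, r', hr', hne⟩ := Finset.one_lt_card.1 h1
    rw [mem_filter] at hr hr'
    have hb : (b : ZMod p) = 0 := by
      have h2 : (b : ZMod p) * (r - r') = 0 := by
        rw [mul_sub, ← hr.2, ← hr'.2, sub_self]
      exact (mul_eq_zero.1 h2).resolve_right (sub_ne_zero.2 hne)
    have ha : (a : ZMod p) = 0 := by rw [hr.2, hb, zero_mul]
    rw [ZMod.intCast_zmod_eq_zero_iff_dvd] at ha hb
    have h3 : (p : ℤ) ^ f.natDegree ∣ hom f a b := by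
      unfold hom
      apply dvd_sum
      intro i hi
      rw [mem_range] at hi
      have h4 : (p : ℤ) ^ f.natDegree = p ^ i * p ^ (f.natDegree - i) := by
        rw [← pow_add]; congr 1; omega
      rw [h4, mul_assoc]
      exact (mul_dvd_mul (pow_dvd_pow_of_dvd ha i) (pow_dvd_pow_of_dvd hb _)).mul_left _
    exact (pow_dvd_pow _ ((card_filter_le _ _).trans hs)).trans h3
  · rcases Nat.eq_zero_or_pos (#{r ∈ s | (a : ZMod p) = b * r}) with h0 | h0
    · rw [h0, pow_zero]; exact one_dvd _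
    · have h2 : #{r ∈ s | (a : ZMod p) = b * r} = 1 := by omega
      rw [h2, pow_one]
      obtain ⟨r, hr⟩ := Finset.card_pos.1 h0
      rw [mem_filter] at hr
      have h3 := hroot r hr.1
      rw [IsRoot, eval_map, eval₂_eq_sum_range] at h3
      rw [← ZMod.intCast_zmod_eq_zero_iff_dvd]
      unfold hom
      push_cast
      have h4 : ∑ i ∈ range (f.natDegree + 1), (f.coeff i : ZMod p) * (a : ZMod p) ^ i *
          (b : ZMod p) ^ (f.natDegree - i) = (b : ZMod p) ^ f.natDegree *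
          ∑ i ∈ range (f.natDegree + 1), (Int.castRingHom (ZMod p)) (f.coeff i) * r ^ i := by
        rw [mul_sum]
        apply sum_congr rfl
        intro i hi
        rw [mem_range] at hi
        have h5 : (b : ZMod p) ^ f.natDegree = b ^ i * b ^ (f.natDegree - i) := by
          rw [← pow_add]; congr 1; omega
        rw [hr.2, mul_pow, h5, eq_intCast]
        ring
      rw [h4, h3, mul_zero]

/-- the good primes of a polynomial: it has as many roots as its degree -/
def G (f : ℤ[X]) (p : ℕ) : Prop := ∃ s : Finset (ZMod p), s.card = f.natDegree ∧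
  ∀ r ∈ s, (f.map (Int.castRingHom (ZMod p))).IsRoot r

/-- the box -/
def box (N : ℕ) : Finset (ℕ × ℕ) := range N ×ˢ range N

lemma card_box (N : ℕ) : (#(box N) : ℝ) = (N : ℝ) ^ 2 := by
  unfold box
  rw [card_product, card_range]
  push_cast
  ring

lemma cs (N p : ℕ) [Fact p.Prime] (φ : ℕ × ℕ → ZMod p) :
    (N : ℝ) ^ 4 / p - (N : ℝ) ^ 2 ≤ #{w ∈ (box N).offDiag | φ w.1 = φ w.2} := by
  have hp : (0 : ℝ) < p := by exact_mod_cast (Fact.out : p.Prime).pos
  have h1 : (#(box N) : ℝ) = ∑ c : ZMod p, (#{u ∈ box N | φ u = c} : ℝ) := by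
    rw [card_eq_sum_card_fiberwise (f := φ) (t := univ) (by intro u _; simp)]
    push_cast
    rfl
  have h2 := sq_sum_le_card_mul_sum_sq (s := (univ : Finset (ZMod p)))
    (f := fun c => (#{u ∈ box N | φ u = c} : ℝ))
  rw [← h1, card_box, card_univ, ZMod.card] at h2
  have h3 : (∑ c : ZMod p, (#{u ∈ box N | φ u = c} : ℝ) ^ 2) =
      (#{w ∈ box N ×ˢ box N | φ w.1 = φ w.2} : ℝ) := by
    rw [card_eq_sum_card_fiberwise (f := fun w => φ w.1) (t := univ) (by intro u _; simp)]
    push_cast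
    apply sum_congr rfl
    intro c _
    have h4 : {w ∈ {w ∈ box N ×ˢ box N | φ w.1 = φ w.2} | φ w.1 = c} =
        {u ∈ box N | φ u = c} ×ˢ {u ∈ box N | φ u = c} := by
      ext w
      simp only [mem_filter, mem_product]
      constructor
      · rintro ⟨⟨⟨h5, h6⟩, h7⟩, h8⟩
        exact ⟨⟨h5, h8⟩, h6, by rw [← h7, h8]⟩
      · rintro ⟨⟨h5, h6⟩, h7, h8⟩
        exact ⟨⟨⟨h5, h7⟩, by rw [h6, h8]⟩, h6⟩
    rw [h4, card_product]
    push_cast
    ring
  rw [h3] at h2
  have h5 : (#{w ∈ box N ×ˢ box N | φ w.1 = φ w.2} : ℝ) ≤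
      #{w ∈ (box N).offDiag | φ w.1 = φ w.2} + (N : ℝ) ^ 2 := by
    rw [← card_box, ← diag_card (box N)]
    have h6 : {w ∈ box N ×ˢ box N | φ w.1 = φ w.2} ⊆
        {w ∈ (box N).offDiag | φ w.1 = φ w.2} ∪ (box N).diag := by
      intro w hw
      rw [mem_filter, mem_product] at hw
      rw [mem_union, mem_filter, mem_offDiag, mem_diag]
      by_cases h : w.1 = w.2
      · exact Or.inr ⟨hw.1.1, h⟩
      · exact Or.inl ⟨⟨hw.1.1, hw.1.2, h⟩, hw.2⟩
    exact_mod_cast (card_le_card h6).trans (card_union_le _ _)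
  have h7 : (N : ℝ) ^ 4 / p ≤ #{w ∈ box N ×ˢ box N | φ w.1 = φ w.2} := by
    rw [div_le_iff₀ hp]
    nlinarith
  linarith

end Pool.Agent.Y49x.Darc
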