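import Pool.Agent.Y49x.Darc.Split

/-!
The primes modulo which a polynomial without rational roots does not split into distinct linear
factors have a divergent sum of reciprocals.
-/

set_option autoImplicit false

namespace Pool.Agent.Y49x.Darc

open Finset Polynomial
open Pool.Agent.Erdos456.Mert (PP)

lemma csize_pos {f : ℤ[X]} (hf : f.Monic) : 1 ≤ csize f := by
  unfold csize
  have h1 : |f.coeff f.natDegree| ≤ ∑ i ∈ range (f.natDegree + 1), |f.coeff i| :=
    single_le_sum (f := fun i => |f.coeff i|) (fun i _ => abs_nonneg _) (by simp)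
  rw [show f.coeff f.natDegree = 1 from hf, abs_one] at h1
  exact h1

lemma log_hom {f : ℤ[X]} (hf : f.Monic) (hr : ∀ r : ℚ, aeval r f ≠ 0) {N : ℕ} (hN : 1 ≤ N)
    {a b : ℤ} (hab : ¬ (a = 0 ∧ b = 0)) (ha : |a| ≤ N) (hb : |b| ≤ N) (P : Finset ℕ)
    (hP : ∀ p ∈ P, p.Prime) (c : ℕ → ℕ) (hc : ∀ p ∈ P, (p : ℤ) ^ c p ∣ hom f a b) :
    ∑ p ∈ P, (c p : ℝ) * Real.log p ≤ Real.log (csize f) + f.natDegree * Real.log N := by
  have h0 := hom_ne hf hr hab
  have hN0 : (0 : ℝ) < N := by exact_mod_cast hN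
  have hcs : (0 : ℝ) < csize f := by exact_mod_cast (csize_pos hf)
  have h1 : ∏ p ∈ P, (p : ℤ) ^ c p ∣ hom f a b := by
    apply Finset.prod_dvd_of_coprime
    · intro p hp q hq hpq
      apply IsCoprime.pow
      rw [Nat.isCoprime_iff_coprime]
      exact (Nat.coprime_primes (hP p hp) (hP q hq)).2 hpq
    · exact hc
  have h2 : ∏ p ∈ P, (p : ℤ) ^ c p ≤ |hom f a b| :=
    Int.le_of_dvd (abs_pos.2 h0) ((dvd_abs _ _).2 h1)
  have h3 := h2.trans (hom_le f N ha hb)
  have h4 : (∏ p ∈ P, (p : ℝ) ^ c p) ≤ (csize f : ℝ) * (N : ℝ) ^ f.natDegree := by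
    exact_mod_cast h3
  have hpos : ∀ p ∈ P, (0 : ℝ) < p := fun p hp => by exact_mod_cast (hP p hp).pos
  have h5 : Real.log (∏ p ∈ P, (p : ℝ) ^ c p) = ∑ p ∈ P, (c p : ℝ) * Real.log p := by
    rw [Real.log_prod (fun p hp => (pow_pos (hpos p hp) _).ne')]
    apply sum_congr rfl
    intro p _
    rw [Real.log_pow]
  rw [← h5, ← Real.log_pow, ← Real.log_mul hcs.ne' (pow_pos hN0 _).ne']
  apply Real.log_le_log _ h4
  exact prod_pos fun p hp => pow_pos (hpos p hp) _

lemma main_ineq {f : ℤ[X]} (hf : f.Monic) (hr : ∀ r : ℚ, aeval r f ≠ 0) {N : ℕ} (hN : 1 ≤ N)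
    (P : Finset ℕ) (hP : ∀ p ∈ P, p.Prime ∧ G f p) :
    ∑ p ∈ P, Real.log p * (f.natDegree * ((N : ℝ) ^ 4 / p - (N : ℝ) ^ 2)) ≤
      (N : ℝ) ^ 4 * (Real.log (csize f) + f.natDegree * Real.log N) := by
  classical
  have hex : ∀ p : ℕ, ∃ s : Finset (ZMod p), p ∈ P → (s.card = f.natDegree ∧
      ∀ r ∈ s, (f.map (Int.castRingHom (ZMod p))).IsRoot r) := by
    intro p
    by_cases hp : p ∈ P
    · obtain ⟨s, hs⟩ := (hP p hp).2
      exact ⟨s, fun _ => hs⟩
    · exact ⟨∅, fun h => absurd h hp⟩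
  choose s hs using hex
  set A : (ℕ × ℕ) × (ℕ × ℕ) → ℤ := fun w => (w.1.1 : ℤ) - w.2.1 with hA
  set B : (ℕ × ℕ) × (ℕ × ℕ) → ℤ := fun w => (w.1.2 : ℤ) - w.2.2 with hB
  set c : ℕ → (ℕ × ℕ) × (ℕ × ℕ) → ℕ := fun p w =>
    #{r ∈ s p | (A w : ZMod p) = (B w : ZMod p) * r} with hcdef
  have hw : ∀ w ∈ (box N).offDiag, ∑ p ∈ P, (c p w : ℝ) * Real.log p ≤
      Real.log (csize f) + f.natDegree * Real.log N := by
    intro w hw
    rw [mem_offDiag] at hw
    obtain ⟨h1, h2, h3⟩ := hw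
    unfold box at h1 h2
    rw [mem_product, mem_range, mem_range] at h1 h2
    apply log_hom hf hr hN (a := A w) (b := B w) _ _ _ P (fun p hp => (hP p hp).1)
    · intro p hp
      have : Fact p.Prime := ⟨(hP p hp).1⟩
      exact hom_dvd (A w) (B w) (s p) (hs p hp).1.le (hs p hp).2
    · rintro ⟨h4, h5⟩
      apply h3
      simp only [hA, hB] at h4 h5
      ext <;> omega
    · simp only [hA]
      rw [abs_le]
      omega
    · simp only [hB]
      rw [abs_le]
      omega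
  have hsum : ∑ w ∈ (box N).offDiag, ∑ p ∈ P, (c p w : ℝ) * Real.log p ≤
      (N : ℝ) ^ 4 * (Real.log (csize f) + f.natDegree * Real.log N) := by
    refine (sum_le_sum hw).trans ?_
    rw [sum_const, nsmul_eq_mul]
    apply mul_le_mul_of_nonneg_right
    · have h1 : (#(box N).offDiag : ℝ) ≤ #(box N) * #(box N) := by
        rw [offDiag_card]
        exact_mod_cast Nat.sub_le _ _
      rw [card_box] at h1
      calc (#(box N).offDiag : ℝ) ≤ (N : ℝ) ^ 2 * (N : ℝ) ^ 2 := h1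
        _ = (N : ℝ) ^ 4 := by ring
    · apply add_nonneg
      · apply Real.log_nonneg
        exact_mod_cast csize_pos hf
      · apply mul_nonneg (by positivity)
        apply Real.log_nonneg
        exact_mod_cast hN
  refine le_trans ?_ hsum
  rw [sum_comm]
  apply sum_le_sum
  intro p hp
  have : Fact p.Prime := ⟨(hP p hp).1⟩
  have hlog : 0 ≤ Real.log p := Real.log_natCast_nonneg p
  rw [← sum_mul, mul_comm]
  apply mul_le_mul_of_nonneg_right _ hlog
  have h1 : ∑ w ∈ (box N).offDiag, (c p w : ℝ) =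
      ∑ r ∈ s p, (#{w ∈ (box N).offDiag | (A w : ZMod p) = (B w : ZMod p) * r} : ℝ) := by
    simp only [hcdef, card_filter]
    push_cast
    rw [sum_comm]
  rw [h1]
  have h2 : ∀ r ∈ s p, (N : ℝ) ^ 4 / p - (N : ℝ) ^ 2 ≤
      (#{w ∈ (box N).offDiag | (A w : ZMod p) = (B w : ZMod p) * r} : ℝ) := by
    intro r _
    refine (cs N p (fun u => (u.1 : ZMod p) - (u.2 : ZMod p) * r)).trans ?_
    norm_cast
    apply card_le_card
    intro w hw
    rw [mem_filter] at hw ⊢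
    refine ⟨hw.1, ?_⟩
    have h3 := hw.2
    simp only [hA, hB]
    push_cast
    linear_combination h3
  have h3 := sum_le_sum h2
  rw [sum_const, nsmul_eq_mul, (hs p hp).1] at h3
  exact h3

open Classical in
theorem split_bound {f : ℤ[X]} (hf : f.Monic) (hr : ∀ r : ℚ, aeval r f ≠ 0)
    (hD : 0 < f.natDegree) : ∃ C : ℝ, ∀ N : ℕ, 1 ≤ N →
      Real.log N - C ≤ ∑ p ∈ PP (N ^ 2) with ¬ G f p, Real.log p / p := by
  obtain ⟨C0, hC0⟩ := Pool.Agent.Erdos456.Mert.mertens_log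
  refine ⟨Real.log (csize f) + 2 + C0, fun N hN => ?_⟩
  have hN0 : (0 : ℝ) < N := by exact_mod_cast hN
  have hDr : (1 : ℝ) ≤ f.natDegree := by exact_mod_cast hD
  have hcs : 0 ≤ Real.log (csize f) := by
    apply Real.log_nonneg
    exact_mod_cast csize_pos hf
  have h1 := main_ineq hf hr hN ({p ∈ PP (N ^ 2) | G f p}) (fun p hp => by
    rw [mem_filter] at hp
    exact ⟨(mem_filter.1 hp.1).2, hp.2⟩)
  have h2 : ∑ p ∈ PP (N ^ 2) with G f p,
      Real.log p * (f.natDegree * ((N : ℝ) ^ 4 / p - (N : ℝ) ^ 2)) =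
      f.natDegree * (N : ℝ) ^ 4 * (∑ p ∈ PP (N ^ 2) with G f p, Real.log p / p) -
      f.natDegree * (N : ℝ) ^ 2 * (∑ p ∈ PP (N ^ 2) with G f p, Real.log p) := by
    rw [mul_sum, mul_sum, ← sum_sub_distrib]
    apply sum_congr rfl
    intro p _
    ring
  have h3 : ∑ p ∈ PP (N ^ 2) with G f p, Real.log p ≤ 2 * (N : ℝ) ^ 2 := by
    have h4 := Pool.Agent.Erdos456.Mert.theta_le (N ^ 2)
    push_cast at h4
    refine le_trans ?_ h4
    apply sum_le_sum_of_subset_of_nonneg (filter_subset _ _)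
    intro p _ _
    exact Real.log_natCast_nonneg p
  have h5 : Real.log ((N ^ 2 : ℕ) : ℝ) - C0 ≤ ∑ p ∈ PP (N ^ 2), Real.log p / p := by
    have h6 := hC0 (N ^ 2) (Nat.one_le_pow _ _ hN)
    have h7 := (abs_le.1 h6).1
    linarith
  have h6 : ∑ p ∈ PP (N ^ 2), Real.log p / p = (∑ p ∈ PP (N ^ 2) with G f p, Real.log p / p) +
      ∑ p ∈ PP (N ^ 2) with ¬ G f p, Real.log p / p := (sum_filter_add_sum_filter_not _ _ _).symm
  have h7 : Real.log ((N ^ 2 : ℕ) : ℝ) = 2 * Real.log N := by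
    push_cast
    rw [Real.log_pow]
    norm_num
  rw [h2] at h1
  set S1 := ∑ p ∈ PP (N ^ 2) with G f p, Real.log p / p with hS1
  have h8 : S1 ≤ Real.log (csize f) + Real.log N + 2 := by
    have h9 : f.natDegree * (N : ℝ) ^ 2 * (∑ p ∈ PP (N ^ 2) with G f p, Real.log p) ≤
        f.natDegree * (N : ℝ) ^ 2 * (2 * (N : ℝ) ^ 2) :=
      mul_le_mul_of_nonneg_left h3 (by positivity)
    have h10 : (f.natDegree * (N : ℝ) ^ 4) * S1 ≤ (f.natDegree * (N : ℝ) ^ 4) *
        (Real.log (csize f) + Real.log N + 2) := by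
      have h11 : (N : ℝ) ^ 4 * Real.log (csize f) ≤
          f.natDegree * (N : ℝ) ^ 4 * Real.log (csize f) := by
        have : 0 ≤ (N : ℝ) ^ 4 * Real.log (csize f) := by positivity
        nlinarith
      nlinarith
    exact le_of_mul_le_mul_left h10 (by positivity)
  linarith

end Pool.Agent.Y49x.Darc
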