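import Pool.Agent.Y49x.Darc.Frob

/-!
The prime factors of `n (n - 1) (n - 2) (n - 3) (n - 4)` when the `n`-th D'Arcais polynomial
vanishes at `x`.
-/

set_option autoImplicit false

namespace Pool.Agent.Y49x.Darc

open Finset Polynomial Pool.Agent.R326

lemma av_small {S : Type*} [CommRing S] (x : S) : av x 1 = x ∧ av x 2 = x * (x + 3) ∧
    av x 3 = x * (x + 1) * (x + 8) ∧ av x 4 = x * (x + 1) * (x + 3) * (x + 14) := by
  have s1 : ArithmeticFunction.sigma 1 1 = 1 := by decide +kernel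
  have s2 : ArithmeticFunction.sigma 1 2 = 3 := by decide +kernel
  have s3 : ArithmeticFunction.sigma 1 3 = 4 := by decide +kernel
  have s4 : ArithmeticFunction.sigma 1 4 = 7 := by decide +kernel
  have a1 : av x 1 = x := by
    rw [av_succ]
    simp [av_zero]
  have a2 : av x 2 = x * (x + 3) := by
    have h := av_succ x 1
    simp only [sum_range_succ, sum_range_zero] at h
    norm_num [s1, s2, a1, av_zero, Nat.descFactorial_succ] at h
    rw [h]
  have a3 : av x 3 = x * (x + 1) * (x + 8) := by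
    have h := av_succ x 2
    simp only [sum_range_succ, sum_range_zero] at h
    norm_num [s1, s2, s3, a1, a2, av_zero, Nat.descFactorial_succ] at h
    rw [h]
    ring
  have a4 : av x 4 = x * (x + 1) * (x + 3) * (x + 14) := by
    have h := av_succ x 3
    simp only [sum_range_succ, sum_range_zero] at h
    norm_num [s1, s2, s3, s4, a1, a2, a3, av_zero, Nat.descFactorial_succ] at h
    rw [h]
    ring
  exact ⟨a1, a2, a3, a4⟩

theorem avX_mul_add (p N s : ℕ) [Fact p.Prime] (hs : s ≤ p) :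
    (av (X : ℤ[X]) (p * N + s)).map (Int.castRingHom (ZMod p)) =
      (X ^ p - X) ^ N * av (X : (ZMod p)[X]) s := by
  have h1 := av_map (mapRingHom (Int.castRingHom (ZMod p))) X (p * N + s)
  have h2 := av_map (mapRingHom (Int.castRingHom (ZMod p))) X p
  rw [coe_mapRingHom, map_X] at h1 h2
  have hF : (p : (ZMod p)[X]) = 0 := CharP.cast_eq_zero (ZMod p)[X] p
  rw [h1, av_period' p hF _ _ _ hs, av_mul' p hF, ← h2, avX_p]

lemma splits_small (p s : ℕ) [Fact p.Prime] (hs : s ≤ 4) :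
    (av (X : (ZMod p)[X]) s).Splits ∧ av (X : (ZMod p)[X]) s ≠ 0 := by
  obtain ⟨a1, a2, a3, a4⟩ := av_small (X : (ZMod p)[X])
  have hlin : ∀ c : ZMod p, (X + C c : (ZMod p)[X]).Splits ∧ (X + C c : (ZMod p)[X]) ≠ 0 :=
    fun c => ⟨Splits.X_add_C c, X_add_C_ne_zero c⟩
  have hX : (X : (ZMod p)[X]).Splits ∧ (X : (ZMod p)[X]) ≠ 0 := ⟨Splits.X, X_ne_zero⟩
  have hm : ∀ f g : (ZMod p)[X], (f.Splits ∧ f ≠ 0) → (g.Splits ∧ g ≠ 0) →
      ((f * g).Splits ∧ f * g ≠ 0) := fun f g hf hg => ⟨hf.1.mul hg.1, mul_ne_zero hf.2 hg.2⟩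
  have h1 := hlin 1
  have h3 := hlin 3
  have h8 := hlin 8
  have h14 := hlin 14
  rw [C_1] at h1
  rw [show (C (3 : ZMod p) : (ZMod p)[X]) = 3 from map_ofNat C 3] at h3
  rw [show (C (8 : ZMod p) : (ZMod p)[X]) = 8 from map_ofNat C 8] at h8
  rw [show (C (14 : ZMod p) : (ZMod p)[X]) = 14 from map_ofNat C 14] at h14
  have hc : s = 0 ∨ s = 1 ∨ s = 2 ∨ s = 3 ∨ s = 4 := by omega
  rcases hc with rfl | rfl | rfl | rfl | rfl
  · rw [av_zero]
    exact ⟨Splits.one, one_ne_zero⟩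
  · rw [a1]; exact hX
  · rw [a2]; exact hm _ _ hX h3
  · rw [a3]; exact hm _ _ (hm _ _ hX h1) h8
  · rw [a4]; exact hm _ _ (hm _ _ (hm _ _ hX h1) h3) h14

/-- the minimal polynomial of a zero of the `n`-th polynomial splits modulo the primes that divide
`n - s`, `s ≤ 4` -/
theorem minpoly_splits {x : ℂ} {n p s : ℕ} (hp : p.Prime) (h : av x n = 0) (hs : s ≤ 4)
    (hsn : s ≤ n) (hpn : p ∣ n - s) :
    ((minpoly ℤ x).map (Int.castRingHom (ZMod p))).Splits := by
  have : Fact p.Prime := ⟨hp⟩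
  have h1 : aeval x (av (X : ℤ[X]) n) = 0 := by
    have h2 := av_map (eval₂RingHom (algebraMap ℤ ℂ) x) X n
    rw [coe_eval₂RingHom, eval₂_X] at h2
    rw [aeval_def, h2, h]
  have h3 := minpoly.isIntegrallyClosed_dvd (av_integral h) h1
  have h4 := map_dvd (mapRingHom (Int.castRingHom (ZMod p))) h3
  rw [coe_mapRingHom] at h4
  obtain ⟨k, hk⟩ := hpn
  -- reduce `s` to its residue modulo `p`
  have hn : n = p * (k + s / p) + s % p := by
    have := Nat.div_add_mod s p
    rw [mul_add, add_assoc, this]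
    omega
  rw [hn, avX_mul_add _ _ _ (Nat.mod_lt s hp.pos).le] at h4
  have h5 := splits_small p (s % p) ((Nat.mod_le _ _).trans hs)
  have h6 : ((X ^ p - X) ^ (k + s / p) : (ZMod p)[X]).Splits :=
    (GaloisField.splits_zmod_X_pow_sub_X p).pow _
  have h7 : ((X ^ p - X) ^ (k + s / p) : (ZMod p)[X]) ≠ 0 :=
    pow_ne_zero _ (FiniteField.X_pow_card_sub_X_ne_zero _ hp.one_lt)
  exact (h6.mul h5.1).of_dvd (mul_ne_zero h7 h5.2) h4

end Pool.Agent.Y49x.Darc
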