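import Pool.Agent.Y49x.Darc.Frob

/-!
For `x` not an integer the set of the `n` such that the `n`-th D'Arcais polynomial vanishes at `x`
has density zero.
-/

set_option autoImplicit false

namespace Pool.Agent.Y49x.Darc

open Finset Polynomial Pool.Agent.R326 Filter Topology

/-- modulo the large primes the minimal polynomial is separable -/
lemma sep {x : ℂ} (hx : IsIntegral ℤ x) : ∃ R : ℕ, ∀ p : ℕ, p.Prime → R < p →
    ((minpoly ℤ x).map (Int.castRingHom (ZMod p))).Separable := by
  have hQ : minpoly ℚ x = (minpoly ℤ x).map (algebraMap ℤ ℚ) :=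
    minpoly.isIntegrallyClosed_eq_field_fractions' ℚ hx
  have hxQ : IsIntegral ℚ x := hx.tower_top
  have hs : (minpoly ℚ x).Separable := (minpoly.irreducible hxQ).separable
  rw [hQ, Polynomial.separable_def] at hs
  obtain ⟨a, b, hab⟩ := hs
  rw [derivative_map] at hab
  obtain ⟨u, hu, hca⟩ := IsLocalization.integerNormalization_spec (nonZeroDivisors ℤ) a
  obtain ⟨v, hv, hcb⟩ := IsLocalization.integerNormalization_spec (nonZeroDivisors ℤ) b
  set A := IsLocalization.integerNormalization (nonZeroDivisors ℤ) a with hA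
  set B := IsLocalization.integerNormalization (nonZeroDivisors ℤ) b with hB
  have hu0 : u ≠ 0 := nonZeroDivisors.ne_zero hu
  have hv0 : v ≠ 0 := nonZeroDivisors.ne_zero hv
  set f := minpoly ℤ x with hf
  have key : C v * A * f + C u * B * derivative f = C (u * v) := by
    apply map_injective (algebraMap ℤ ℚ) (algebraMap ℤ ℚ).injective_int
    rw [Polynomial.map_add, Polynomial.map_mul, Polynomial.map_mul, Polynomial.map_mul,
      Polynomial.map_mul, hca, hcb, map_C, map_C, map_C, map_mul, C_mul]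
    have h1 : (u • a : ℚ[X]) = C (algebraMap ℤ ℚ u) * a := by
      rw [zsmul_eq_mul]; simp
    have h2 : (v • b : ℚ[X]) = C (algebraMap ℤ ℚ v) * b := by
      rw [zsmul_eq_mul]; simp
    rw [h1, h2]
    linear_combination (C (algebraMap ℤ ℚ u) * C (algebraMap ℤ ℚ v)) * hab
  refine ⟨(u * v).natAbs, fun p hp hR => ?_⟩
  have : Fact p.Prime := ⟨hp⟩
  have hne : ((u * v : ℤ) : ZMod p) ≠ 0 := by
    rw [Ne, ZMod.intCast_zmod_eq_zero_iff_dvd]
    intro h
    have h1 := Int.natCast_dvd.1 h
    have h2 : 0 < (u * v).natAbs := Int.natAbs_pos.2 (mul_ne_zero hu0 hv0)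
    have h3 := Nat.le_of_dvd h2 h1
    omega
  have h4 := congrArg (Polynomial.map (Int.castRingHom (ZMod p))) key
  have e1 : (C v * A * f).map (Int.castRingHom (ZMod p)) =
      (C v * A).map (Int.castRingHom (ZMod p)) * f.map (Int.castRingHom (ZMod p)) :=
    Polynomial.map_mul _
  have e2 : (C u * B * derivative f).map (Int.castRingHom (ZMod p)) =
      (C u * B).map (Int.castRingHom (ZMod p)) *
        (derivative f).map (Int.castRingHom (ZMod p)) := Polynomial.map_mul _
  rw [Polynomial.map_add, e1, e2, map_C, ← derivative_map] at h4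
  have h5 : C (((u * v : ℤ) : ZMod p)⁻¹) * C ((u * v : ℤ) : ZMod p) = 1 := by
    rw [← C_mul, inv_mul_cancel₀ hne, C_1]
  rw [separable_def]
  refine ⟨C (((u * v : ℤ) : ZMod p)⁻¹) * (C v * A).map (Int.castRingHom (ZMod p)),
    C (((u * v : ℤ) : ZMod p)⁻¹) * (C u * B).map (Int.castRingHom (ZMod p)), ?_⟩
  have h6 : (Int.castRingHom (ZMod p)) (u * v) = ((u * v : ℤ) : ZMod p) := rfl
  rw [h6] at h4
  linear_combination (C (((u * v : ℤ) : ZMod p)⁻¹)) * h4 + h5

lemma G_of_sep {x : ℂ} {n p : ℕ} (hp : p.Prime) (h : av x n = 0) (hpn : p ∣ n)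
    (hsep : ((minpoly ℤ x).map (Int.castRingHom (ZMod p))).Separable) :
    G (minpoly ℤ x) p := by
  have : Fact p.Prime := ⟨hp⟩
  have hxi := av_integral h
  have hn : n ≠ 0 := by
    rintro rfl
    rw [av_zero] at h
    exact one_ne_zero h
  have hN : n / p ≠ 0 := by
    have := Nat.div_pos (Nat.le_of_dvd (by omega) hpn) hp.pos
    omega
  have h1 := minpoly_dvd h hpn
  have h2 := (hsep.squarefree.dvd_pow_iff_dvd hN).1 h1
  have hspl : Splits ((minpoly ℤ x).map (Int.castRingHom (ZMod p))) :=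
    (GaloisField.splits_zmod_X_pow_sub_X p).of_dvd (FiniteField.X_pow_card_sub_X_ne_zero _ hp.one_lt) h2
  refine ⟨((minpoly ℤ x).map (Int.castRingHom (ZMod p))).roots.toFinset, ?_, ?_⟩
  · rw [Multiset.toFinset_card_of_nodup (nodup_roots hsep), ← hspl.natDegree_eq_card_roots,
      (minpoly.monic hxi).natDegree_map]
  · intro r hr
    rw [Multiset.mem_toFinset] at hr
    exact isRoot_of_mem_roots hr

open Classical in
theorem zeros_density (x : ℂ) (hx : ∀ m : ℤ, x ≠ m) :
    Tendsto (fun N : ℕ => (#{n ∈ range N | n ∈ {n | av x n = 0}} : ℝ) / N) atTop (𝓝 0) := by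
  by_cases hex : ∃ n, av x n = 0
  · obtain ⟨n0, h0⟩ := hex
    have hxi := av_integral h0
    have hxQ : IsIntegral ℚ x := hxi.tower_top
    have hQ : minpoly ℚ x = (minpoly ℤ x).map (algebraMap ℤ ℚ) :=
      minpoly.isIntegrallyClosed_eq_field_fractions' ℚ hxi
    obtain ⟨R, hR⟩ := sep hxi
    have hr : ∀ r : ℚ, aeval r (minpoly ℤ x) ≠ 0 := by
      intro r hr0
      have h1 : (minpoly ℚ x).IsRoot r := by
        rw [hQ, IsRoot, eval_map_algebraMap]
        exact hr0
      have h2 : algebraMap ℚ ℂ r = x := minpoly.root hxQ h1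
      have h3 : (r : ℂ) = x := h2
      obtain ⟨m, hm⟩ := rat_integral (r := r) (by rw [h3]; exact hxi)
      apply hx m
      rw [← h3, hm]
      simp
    exact density_zero (minpoly.monic hxi) hr (minpoly.natDegree_pos hxi) R {n | av x n = 0}
      (fun n hn p hp hRp hG hpn => hG (G_of_sep hp hn hpn (hR p hp hRp)))
  · push Not at hex
    simp [hex]

end Pool.Agent.Y49x.Darc
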